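import Pool.Agent.RK.Defs

/-!
Classification of the automorphisms of the rook's graph, `n, m ≥ 2`.

Proof.  Call a neighbour `v` of `u` a row neighbour if `v.1 = u.1` and a column neighbour if
`v.2 = u.2`.  For two distinct neighbours `v, v'` of `u`: they have the same type iff they are
adjacent.  So at every `u` the automorphism either preserves the types of all neighbours, or
swaps the types of all neighbours (there is at least one neighbour of each type, `n, m ≥ 2`).
The type behaviour is the same at adjacent vertices (look at the edge between them, from the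
other side), so by connectedness (`(i,j) - (i,j') - (i',j')`) it is the same everywhere.
If types are preserved, the first coordinate of `φ (i,j)` depends only on `i` and the second only
on `j`.  If they are swapped, the first coordinate depends only on `j`, the second only on `i`.
Injectivity of `φ` gives injectivity, hence (finite sets; in the swapped case injections in both
directions between `Fin n` and `Fin m`) bijectivity.
-/

namespace Pool.Agent.RK

open SimpleGraph

section

variable {n m : ℕ}

theorem rook_adj_iff (x y : Fin n × Fin m) :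
    (rook n m).Adj x y ↔ (x.1 ≠ y.1 ∧ x.2 = y.2) ∨ (x.2 ≠ y.2 ∧ x.1 = y.1) := by
  rw [rook, SimpleGraph.boxProd_adj]
  simp

/-- Types at a vertex: `P` holds for the pair (row neighbour, column neighbour). -/
theorem aut_types (φ : rook n m ≃g rook n m) (x y z : Fin n × Fin m)
    (hy : x.1 = y.1) (hy' : x.2 ≠ y.2) (hz : x.2 = z.2) (hz' : x.1 ≠ z.1) :
    ((φ x).1 = (φ y).1 ∧ (φ x).2 ≠ (φ y).2 ∧ (φ x).2 = (φ z).2 ∧ (φ x).1 ≠ (φ z).1) ∨
    ((φ x).2 = (φ y).2 ∧ (φ x).1 ≠ (φ y).1 ∧ (φ x).1 = (φ z).1 ∧ (φ x).2 ≠ (φ z).2) := by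
  have h1 : (rook n m).Adj (φ x) (φ y) :=
    (SimpleGraph.Iso.map_adj_iff φ).2 ((rook_adj_iff x y).2 (Or.inr ⟨hy', hy⟩))
  have h2 : (rook n m).Adj (φ x) (φ z) :=
    (SimpleGraph.Iso.map_adj_iff φ).2 ((rook_adj_iff x z).2 (Or.inl ⟨hz', hz⟩))
  have h3 : ¬ (rook n m).Adj (φ y) (φ z) := by
    intro h
    have h' := (rook_adj_iff y z).1 ((SimpleGraph.Iso.map_adj_iff φ).1 h)
    rcases h' with ⟨_, h'⟩ | ⟨_, h'⟩
    · exact hy' (hz.trans h'.symm)
    · exact hz' (hy.trans h')
  have h4 : φ y ≠ φ z := by
    intro h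
    have := φ.injective h
    subst this
    exact hz' hy
  rw [rook_adj_iff] at h1 h2 h3
  have h4' : (φ y).1 ≠ (φ z).1 ∨ (φ y).2 ≠ (φ z).2 := by
    by_contra hc
    push Not at hc
    exact h4 (Prod.ext hc.1 hc.2)
  rcases h1 with ⟨a, b⟩ | ⟨a, b⟩ <;> rcases h2 with ⟨c, d⟩ | ⟨c, d⟩
  · exfalso
    apply h3
    left
    refine ⟨?_, b.symm.trans d⟩
    rcases h4' with h | h
    · exact h
    · exact absurd (b.symm.trans d) h
  · right
    exact ⟨b, a, d, c⟩
  · left
    exact ⟨b, a, d, c⟩
  · exfalso
    apply h3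
    right
    refine ⟨?_, b.symm.trans d⟩
    rcases h4' with h | h
    · exact absurd (b.symm.trans d) h
    · exact h

/-- The automorphism preserves the types at `x`. -/
def Pres (φ : rook n m ≃g rook n m) (x : Fin n × Fin m) : Prop :=
  (∀ y, x.1 = y.1 → (φ x).1 = (φ y).1) ∧ (∀ z, x.2 = z.2 → (φ x).2 = (φ z).2)

/-- The automorphism swaps the types at `x`. -/
def Swap (φ : rook n m ≃g rook n m) (x : Fin n × Fin m) : Prop :=
  (∀ y, x.1 = y.1 → (φ x).2 = (φ y).2) ∧ (∀ z, x.2 = z.2 → (φ x).1 = (φ z).1)

theorem exists_ne_of_two {k : ℕ} (hk : 2 ≤ k) (a : Fin k) : ∃ b : Fin k, a ≠ b := by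
  have : Nontrivial (Fin k) := Fin.nontrivial_iff_two_le.2 hk
  obtain ⟨b, hb⟩ := exists_ne a
  exact ⟨b, hb.symm⟩

theorem pres_or_swap (hn : 2 ≤ n) (hm : 2 ≤ m) (φ : rook n m ≃g rook n m)
    (x : Fin n × Fin m) : Pres φ x ∨ Swap φ x := by
  obtain ⟨j', hj'⟩ := exists_ne_of_two hm x.2
  obtain ⟨i', hi'⟩ := exists_ne_of_two hn x.1
  rcases aut_types φ x (x.1, j') (i', x.2) rfl hj' rfl hi' with h | h
  · left
    constructor
    · intro y hy
      by_cases hxy : x.2 = y.2
      · rw [show x = y from Prod.ext hy hxy]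
      · rcases aut_types φ x y (i', x.2) hy hxy rfl hi' with h2 | h2
        · exact h2.1
        · exact absurd h2.2.2.1 h.2.2.2
    · intro z hz
      by_cases hxz : x.1 = z.1
      · rw [show x = z from Prod.ext hxz hz]
      · rcases aut_types φ x (x.1, j') z rfl hj' hz hxz with h2 | h2
        · exact h2.2.2.1
        · exact absurd h2.1 h.2.1
  · right
    constructor
    · intro y hy
      by_cases hxy : x.2 = y.2
      · rw [show x = y from Prod.ext hy hxy]
      · rcases aut_types φ x y (i', x.2) hy hxy rfl hi' with h2 | h2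
        · exact absurd h2.2.2.1 h.2.2.2
        · exact h2.1
    · intro z hz
      by_cases hxz : x.1 = z.1
      · rw [show x = z from Prod.ext hxz hz]
      · rcases aut_types φ x (x.1, j') z rfl hj' hz hxz with h2 | h2
        · exact absurd h2.1 h.2.1
        · exact h2.2.2.1

theorem pres_row (hn : 2 ≤ n) (hm : 2 ≤ m) (φ : rook n m ≃g rook n m)
    {x y : Fin n × Fin m} (hxy : x.1 = y.1) (h : Pres φ x) : Pres φ y := by
  by_cases hne : x.2 = y.2
  · rwa [← show x = y from Prod.ext hxy hne]
  · rcases pres_or_swap hn hm φ y with h2 | h2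
    · exact h2
    · exfalso
      have e1 := h.1 y hxy
      have e2 := h2.1 x hxy.symm
      have := φ.injective (Prod.ext e1 e2.symm : φ x = φ y)
      exact hne (congrArg Prod.snd this)

theorem pres_col (hn : 2 ≤ n) (hm : 2 ≤ m) (φ : rook n m ≃g rook n m)
    {x y : Fin n × Fin m} (hxy : x.2 = y.2) (h : Pres φ x) : Pres φ y := by
  by_cases hne : x.1 = y.1
  · rwa [← show x = y from Prod.ext hne hxy]
  · rcases pres_or_swap hn hm φ y with h2 | h2
    · exact h2
    · exfalso
      have e1 := h.2 y hxy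
      have e2 := h2.2 x hxy.symm
      have := φ.injective (Prod.ext e2.symm e1 : φ x = φ y)
      exact hne (congrArg Prod.fst this)

theorem pres_all (hn : 2 ≤ n) (hm : 2 ≤ m) (φ : rook n m ≃g rook n m)
    {x : Fin n × Fin m} (h : Pres φ x) (y : Fin n × Fin m) : Pres φ y := by
  have h1 : Pres φ (x.1, y.2) := pres_row hn hm φ (x := x) (y := (x.1, y.2)) rfl h
  exact pres_col hn hm φ (x := (x.1, y.2)) (y := y) rfl h1

end

theorem aut_class {n m : ℕ} (hn : 2 ≤ n) (hm : 2 ≤ m) (φ : rook n m ≃g rook n m) :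
    (∃ (π : Equiv.Perm (Fin n)) (σ : Equiv.Perm (Fin m)), ∀ i j, φ (i, j) = (π i, σ j)) ∨
    (∃ (π : Fin m → Fin n) (σ : Fin n → Fin m), Function.Bijective π ∧ Function.Bijective σ ∧
      ∀ i j, φ (i, j) = (π j, σ i)) := by
  have i0 : Fin n := ⟨0, by omega⟩
  have j0 : Fin m := ⟨0, by omega⟩
  by_cases hP : ∃ x, Pres φ x
  · left
    obtain ⟨x, hx⟩ := hP
    have hall := pres_all hn hm φ hx
    have hinj1 : Function.Injective (fun i => (φ (i, j0)).1) := by
      intro i i' h
      have h2 := (hall (i, j0)).2 (i', j0) rfl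
      have := φ.injective (Prod.ext h h2 : φ (i, j0) = φ (i', j0))
      exact congrArg Prod.fst this
    have hinj2 : Function.Injective (fun j => (φ (i0, j)).2) := by
      intro j j' h
      have h2 := (hall (i0, j)).1 (i0, j') rfl
      have := φ.injective (Prod.ext h2 h : φ (i0, j) = φ (i0, j'))
      exact congrArg Prod.snd this
    refine ⟨Equiv.ofBijective _ (Finite.injective_iff_bijective.1 hinj1),
      Equiv.ofBijective _ (Finite.injective_iff_bijective.1 hinj2), ?_⟩
    intro i j
    apply Prod.ext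
    · exact (hall (i, j)).1 (i, j0) rfl
    · exact (hall (i, j)).2 (i0, j) rfl
  · right
    push Not at hP
    have hall : ∀ x, Swap φ x := fun x => (pres_or_swap hn hm φ x).resolve_left (hP x)
    have hinj1 : Function.Injective (fun j => (φ (i0, j)).1) := by
      intro j j' h
      have h2 := (hall (i0, j)).1 (i0, j') rfl
      have := φ.injective (Prod.ext h h2 : φ (i0, j) = φ (i0, j'))
      exact congrArg Prod.snd this
    have hinj2 : Function.Injective (fun i => (φ (i, j0)).2) := by
      intro i i' h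
      have h2 := (hall (i, j0)).2 (i', j0) rfl
      have := φ.injective (Prod.ext h2 h : φ (i, j0) = φ (i', j0))
      exact congrArg Prod.fst this
    have hmn : m ≤ n := by simpa using Fintype.card_le_of_injective _ hinj1
    have hnm : n ≤ m := by simpa using Fintype.card_le_of_injective _ hinj2
    refine ⟨_, _, (Fintype.bijective_iff_injective_and_card _).2 ⟨hinj1, ?_⟩,
      (Fintype.bijective_iff_injective_and_card _).2 ⟨hinj2, ?_⟩, ?_⟩
    · simp; omega
    · simp; omega
    · intro i j
      apply Prod.ext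
      · exact (hall (i, j)).2 (i0, j) rfl
      · exact (hall (i, j)).1 (i, j0) rfl

end Pool.Agent.RK
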