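import Pool.Agent.RK.Lef

/-!
The Combinatorial Nullstellensatz lemma.

`n` rows, a finite set `C` of columns, lists `L i j ≠ ∅`, a set `R` of columns (the other columns
typically have one-element lists), `Y : C → Fin n → ℕ` injective on `R` with `Y j i < #(L i j)`
for `j ∈ R`, and a permutation `Δ` of the rows such that for every row
`Δ i = 0` or `2 ∑_{j ∈ R} Y j i + Δ i ≤ ∑_{all j} (#(L i j) - 1)`.
Then some choice of colours has pairwise distinct columns in `R` and pairwise distinct row sums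
(over all columns).

Proof.  Polynomial ring over `ℚ` in the `X (i,j)`, `ℓ (i,j) = #(L i j)`, `I` as in `InI`,
`s i = ∑_j X (i,j)` over ALL columns, `T i = {i} × C`.
`P = det_{l, j ∈ R} (∏ i, X (i,j) ^ (Y l i))` (a `Matrix ↥R ↥R`), `V = det (vandermonde s)`,
`Φ = P * V`.
(1) `P ∉ I`: the coefficient of `P` at `e₀ = ∑_{j ∈ R} ∑_i (Y j i) δ_(i,j)` is `1`, since in
`det_apply` the monomial of the permutation `τ` equals `e₀` only if `Y ∘ τ = Y` on `R`, i.e.
`τ = 1`.  Every monomial of `P` has row degree `y i = ∑_{j ∈ R} Y j i` in row `i`.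
(2) By `lef`, row by row (Finset induction over the rows; rows with `Δ i = 0` are trivial),
`P * ∏ i, s i ^ (Δ i) ∉ I`.  So there is a monomial `e` in the box with nonzero coefficient, and
its row degrees are `y i + Δ i`.
(3) `V = ∑_σ sign σ ∏ i, s (σ i) ^ i = ∑_σ ± ∏ i, s i ^ (σ⁻¹ i)`, and `P * ∏ i, s i ^ (σ' i)` is
homogeneous of row degrees `y i + σ' i`; so only `σ' = Δ` contributes to the coefficient of `e` in
`Φ`, which is therefore `±` the nonzero coefficient of (2).
(4) `Φ` is homogeneous of degree `∑ e`, so `totalDegree Φ = degree e`, and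
`MvPolynomial.combinatorial_nullstellensatz_exists_eval_nonzero` (Mathlib, Nullstellensatz.lean)
gives `c` with values in the (casts to `ℚ` of the) lists and `Φ(c) ≠ 0`.  Then the columns in `R`
are distinct (else the evaluated determinant has two equal columns) and the row sums are
distinct (`Matrix.det_vandermonde_ne_zero_iff`).
-/

namespace Pool.Agent.RK

open MvPolynomial

set_option linter.unusedSectionVars false

section

variable {n : ℕ} {C : Type} [Fintype C] [DecidableEq C]

/-- The row weights. -/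
def rowW {n : ℕ} {C : Type} : Fin n × C → (Fin n → ℕ) := fun v => Pi.single v.1 1

/-- The row sum polynomial. -/
noncomputable def rsum (i : Fin n) : MvPolynomial (Fin n × C) ℚ := ∑ j, X (i, j)

theorem weight_rowW (e : Fin n × C →₀ ℕ) (i : Fin n) :
    Finsupp.weight rowW e i = ∑ j, e (i, j) := by
  rw [Finsupp.weight_eq_sum, Finset.sum_apply, Fintype.sum_prod_type]
  simp only [rowW, Pi.smul_apply, smul_eq_mul, Pi.single_apply, mul_ite, mul_one, mul_zero]
  rw [Finset.sum_comm]
  refine Finset.sum_congr rfl fun j _ => ?_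
  simp

theorem rsum_hom (i : Fin n) :
    IsWeightedHomogeneous rowW (rsum i : MvPolynomial (Fin n × C) ℚ) (Pi.single i 1) := by
  unfold rsum
  refine IsWeightedHomogeneous.sum _ _ _ fun j _ => ?_
  exact isWeightedHomogeneous_X ℚ rowW (i, j)

theorem prod_rsum_hom (d : Fin n → ℕ) (s : Finset (Fin n)) :
    IsWeightedHomogeneous rowW (∏ i ∈ s, (rsum i : MvPolynomial (Fin n × C) ℚ) ^ d i)
      (∑ i ∈ s, d i • Pi.single i 1) :=
  IsWeightedHomogeneous.prod _ _ _ fun i _ => (rsum_hom i).pow (d i)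

theorem sum_smul_single (d : Fin n → ℕ) (s : Finset (Fin n)) (a : Fin n) :
    (∑ i ∈ s, d i • (Pi.single i 1 : Fin n → ℕ)) a = if a ∈ s then d a else 0 := by
  rw [Finset.sum_apply]
  simp only [Pi.smul_apply, Pi.single_apply, smul_eq_mul, mul_ite, mul_one, mul_zero]
  simp

/-- The monomial of a column. -/
noncomputable def colMon (u : Fin n → ℕ) (j : C) : MvPolynomial (Fin n × C) ℚ :=
  ∏ i, X (i, j) ^ u i

/-- The determinant. -/
noncomputable def detP (R : Finset C) (Y : C → Fin n → ℕ) : MvPolynomial (Fin n × C) ℚ :=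
  Matrix.det (Matrix.of fun l j : R => colMon (Y l) (j : C))

/-- The exponent of a permutation term. -/
noncomputable def expo (R : Finset C) (Y : C → Fin n → ℕ) (τ : Equiv.Perm R) :
    Fin n × C →₀ ℕ :=
  ∑ l : R, ∑ i, Finsupp.single (i, (l : C)) (Y (τ l) i)

theorem expo_apply (R : Finset C) (Y : C → Fin n → ℕ) (τ : Equiv.Perm R) (i : Fin n) (l : R) :
    expo R Y τ (i, (l : C)) = Y (τ l) i := by
  unfold expo
  rw [Finsupp.finsetSum_apply]
  rw [Finset.sum_eq_single l]
  · rw [Finsupp.finsetSum_apply, Finset.sum_eq_single i]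
    · simp
    · intro b _ hb
      rw [Finsupp.single_apply, if_neg]
      intro h
      exact hb (Prod.ext_iff.1 h).1
    · simp
  · intro b _ hb
    rw [Finsupp.finsetSum_apply]
    refine Finset.sum_eq_zero fun i' _ => ?_
    rw [Finsupp.single_apply, if_neg]
    intro h
    exact hb (Subtype.ext (Prod.ext_iff.1 h).2)
  · simp

theorem expo_apply_out (R : Finset C) (Y : C → Fin n → ℕ) (τ : Equiv.Perm R) (i : Fin n)
    (j : C) (hj : j ∉ R) : expo R Y τ (i, j) = 0 := by
  unfold expo
  rw [Finsupp.finsetSum_apply]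
  refine Finset.sum_eq_zero fun l _ => ?_
  rw [Finsupp.finsetSum_apply]
  refine Finset.sum_eq_zero fun i' _ => ?_
  rw [Finsupp.single_apply, if_neg]
  intro h
  have := (Prod.ext_iff.1 h).2
  simp only at this
  exact hj (this ▸ l.2)

theorem prod_colMon (R : Finset C) (Y : C → Fin n → ℕ) (τ : Equiv.Perm R) :
    ∏ l : R, (colMon (Y (τ l)) (l : C)) = monomial (expo R Y τ) (1 : ℚ) := by
  unfold colMon expo
  rw [monomial_sum_one]
  refine Finset.prod_congr rfl fun l _ => ?_
  rw [monomial_sum_one]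
  refine Finset.prod_congr rfl fun i _ => ?_
  rw [X_pow_eq_monomial]

theorem detP_eq (R : Finset C) (Y : C → Fin n → ℕ) :
    (detP R Y : MvPolynomial (Fin n × C) ℚ) =
      ∑ τ : Equiv.Perm R, Equiv.Perm.sign τ • monomial (expo R Y τ) (1 : ℚ) := by
  unfold detP
  rw [Matrix.det_apply]
  refine Finset.sum_congr rfl fun τ _ => ?_
  rw [← prod_colMon]
  simp only [Matrix.of_apply]

theorem weight_expo (R : Finset C) (Y : C → Fin n → ℕ) (τ : Equiv.Perm R) :
    Finsupp.weight rowW (expo R Y τ) = fun i => ∑ j ∈ R, Y j i := by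
  funext i
  rw [weight_rowW, ← Finset.sum_subset (Finset.subset_univ R)]
  · rw [← Finset.sum_coe_sort R, ← Finset.sum_coe_sort R]
    simp_rw [expo_apply]
    exact Equiv.sum_comp τ (fun l : R => Y l i)
  · intro j _ hj
    exact expo_apply_out R Y τ i j hj

theorem detP_hom (R : Finset C) (Y : C → Fin n → ℕ) :
    IsWeightedHomogeneous rowW (detP R Y : MvPolynomial (Fin n × C) ℚ)
      (fun i => ∑ j ∈ R, Y j i) := by
  rw [detP_eq]
  refine IsWeightedHomogeneous.sum _ _ _ fun τ _ => ?_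
  have h := isWeightedHomogeneous_monomial rowW (expo R Y τ) (1 : ℚ) (weight_expo R Y τ)
  rcases Int.units_eq_one_or (Equiv.Perm.sign τ) with h1 | h1
  · rw [h1, one_smul]
    exact h
  · rw [h1, Units.neg_smul, one_smul]
    exact h.neg

theorem coeff_detP (R : Finset C) (Y : C → Fin n → ℕ) (hinj : Set.InjOn Y (R : Set C)) :
    coeff (expo R Y 1) (detP R Y) = (1 : ℚ) := by
  rw [detP_eq, coeff_sum, Finset.sum_eq_single 1]
  · simp
  · intro τ _ hτ
    have hne : expo R Y τ ≠ expo R Y 1 := by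
      intro h
      apply hτ
      ext l
      have h2 : ∀ i, Y (τ l) i = Y l i := by
        intro i
        have := DFunLike.congr_fun h (i, (l : C))
        rw [expo_apply, expo_apply] at this
        simpa using this
      have h3 := hinj (τ l).2 l.2 (funext h2)
      simpa using h3
    have h0 : coeff (expo R Y 1) (monomial (expo R Y τ) (1 : ℚ)) = 0 := by
      rw [coeff_monomial, if_neg hne]
    rcases Int.units_eq_one_or (Equiv.Perm.sign τ) with h1 | h1
    · rw [h1, one_smul, h0]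
    · rw [h1, Units.neg_smul, one_smul, coeff_neg, h0, neg_zero]
  · simp

theorem not_inI_detP (R : Finset C) (Y : C → Fin n → ℕ) (hinj : Set.InjOn Y (R : Set C))
    (ℓ : Fin n × C → ℕ) (hℓ : ∀ v, 1 ≤ ℓ v) (hlt : ∀ j ∈ R, ∀ i, Y j i < ℓ (i, j)) :
    ¬ InI ℓ (detP R Y) := by
  intro h
  have h1 := h (expo R Y 1) ?_
  · rw [coeff_detP R Y hinj] at h1
    exact one_ne_zero h1
  · rintro ⟨i, j⟩
    by_cases hj : j ∈ R
    · have := expo_apply R Y 1 i ⟨j, hj⟩
      simp only [Equiv.Perm.coe_one, id_eq] at this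
      rw [this]
      exact hlt j hj i
    · rw [expo_apply_out R Y 1 i j hj]
      exact hℓ _

/-- The embedding of the columns as the row `a`. -/
def rowEmb (a : Fin n) : C ↪ Fin n × C := ⟨fun j => (a, j), Prod.mk_right_injective a⟩

/-- Step (2). -/
theorem not_inI_prod (R : Finset C) (Y : C → Fin n → ℕ) (hinj : Set.InjOn Y (R : Set C))
    (ℓ : Fin n × C → ℕ) (hℓ : ∀ v, 1 ≤ ℓ v) (hlt : ∀ j ∈ R, ∀ i, Y j i < ℓ (i, j))
    (Δ : Fin n → ℕ)
    (hΔ : ∀ i, Δ i = 0 ∨ 2 * (∑ j ∈ R, Y j i) + Δ i ≤ ∑ j, (ℓ (i, j) - 1))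
    (s : Finset (Fin n)) :
    ¬ InI ℓ (detP R Y * ∏ i ∈ s, rsum i ^ Δ i) := by
  induction s using Finset.induction_on with
  | empty =>
    rw [Finset.prod_empty, mul_one]
    exact not_inI_detP R Y hinj ℓ hℓ hlt
  | insert a s ha ih =>
    intro h
    apply ih
    rw [Finset.prod_insert ha] at h
    rcases hΔ a with h0 | h1
    · rw [h0, pow_zero, one_mul] at h
      exact h
    · have hhom := (detP_hom R Y).mul (prod_rsum_hom (C := C) Δ s)
      refine lef ℓ (Finset.univ.map (rowEmb a)) (fun v _ => hℓ v) (∑ j ∈ R, Y j a) (Δ a) _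
        ?_ ?_ ?_
      · intro e he
        have h2 := congrFun (hhom he) a
        rw [weight_rowW, Pi.add_apply, sum_smul_single, if_neg ha, add_zero] at h2
        rw [Finset.sum_map]
        exact h2
      · rw [Finset.sum_map]
        exact h1
      · rw [Finset.sum_map]
        have : (rsum a ^ Δ a * (detP R Y * ∏ i ∈ s, rsum i ^ Δ i) :
            MvPolynomial (Fin n × C) ℚ) = detP R Y * (rsum a ^ Δ a * ∏ i ∈ s, rsum i ^ Δ i) := by
          ring
        unfold rsum at this ⊢
        unfold rsum at h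
        rw [← this] at h
        exact h

/-- Steps (1), (2): a monomial in the box with nonzero coefficient and known row degrees. -/
theorem exists_mono (R : Finset C) (Y : C → Fin n → ℕ) (hinj : Set.InjOn Y (R : Set C))
    (ℓ : Fin n × C → ℕ) (hℓ : ∀ v, 1 ≤ ℓ v) (hlt : ∀ j ∈ R, ∀ i, Y j i < ℓ (i, j))
    (Δ : Fin n → ℕ)
    (hΔ : ∀ i, Δ i = 0 ∨ 2 * (∑ j ∈ R, Y j i) + Δ i ≤ ∑ j, (ℓ (i, j) - 1)) :
    ∃ e : Fin n × C →₀ ℕ, (∀ v, e v < ℓ v) ∧
      coeff e (detP R Y * ∏ i, rsum i ^ Δ i) ≠ (0 : ℚ) ∧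
      Finsupp.weight rowW e = fun i => (∑ j ∈ R, Y j i) + Δ i := by
  have h := not_inI_prod R Y hinj ℓ hℓ hlt Δ hΔ Finset.univ
  unfold InI at h
  push Not at h
  obtain ⟨e, he, hc⟩ := h
  refine ⟨e, he, hc, ?_⟩
  have hhom := (detP_hom R Y).mul (prod_rsum_hom (C := C) Δ Finset.univ)
  funext i
  have h2 := congrFun (hhom hc) i
  rw [Pi.add_apply, sum_smul_single, if_pos (Finset.mem_univ i)] at h2
  exact h2

/-- The value of `detP` is zero if two columns agree. -/
theorem eval_detP_ne (R : Finset C) (Y : C → Fin n → ℕ) (x : Fin n × C → ℚ)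
    (h : eval x (detP R Y) ≠ 0) (j j' : C) (hj : j ∈ R) (hj' : j' ∈ R) (hne : j ≠ j') :
    ∃ i, x (i, j) ≠ x (i, j') := by
  by_contra hcon
  push Not at hcon
  apply h
  unfold detP
  rw [RingHom.map_det]
  refine Matrix.det_zero_of_column_eq (i := (⟨j, hj⟩ : R)) (j := ⟨j', hj'⟩) ?_ ?_
  · intro h1
    exact hne (congrArg Subtype.val h1)
  · intro l
    simp only [RingHom.mapMatrix_apply, Matrix.map_apply, Matrix.of_apply, colMon, map_prod,
      map_pow, eval_X]
    refine Finset.prod_congr rfl fun i _ => ?_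
    rw [hcon i]

/-- The Vandermonde determinant of the row sums. -/
noncomputable def vdm : MvPolynomial (Fin n × C) ℚ :=
  Matrix.det (Matrix.vandermonde (fun i : Fin n => (rsum i : MvPolynomial (Fin n × C) ℚ)))

theorem vdm_eq : (vdm : MvPolynomial (Fin n × C) ℚ) =
    ∑ τ : Equiv.Perm (Fin n), Equiv.Perm.sign τ • ∏ i, rsum i ^ ((τ i : Fin n) : ℕ) := by
  unfold vdm
  rw [← Matrix.det_transpose, Matrix.det_apply]
  refine Finset.sum_congr rfl fun τ _ => ?_
  simp only [Matrix.transpose_apply, Matrix.vandermonde_apply]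

/-- Homogeneity of the terms of the Vandermonde determinant, and so on. -/
theorem term_hom (R : Finset C) (Y : C → Fin n → ℕ) (d : Fin n → ℕ) :
    IsWeightedHomogeneous rowW (detP R Y * ∏ i, rsum i ^ d i : MvPolynomial (Fin n × C) ℚ)
      (fun i => (∑ j ∈ R, Y j i) + d i) := by
  have hhom := (detP_hom R Y).mul (prod_rsum_hom (C := C) d Finset.univ)
  have : (fun i => ∑ j ∈ R, Y j i) + ∑ i, d i • (Pi.single i 1 : Fin n → ℕ) =
      fun i => (∑ j ∈ R, Y j i) + d i := by
    funext i
    rw [Pi.add_apply, sum_smul_single, if_pos (Finset.mem_univ i)]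
  rw [← this]
  exact hhom

theorem isHomogeneous_rsum (i : Fin n) :
    (rsum i : MvPolynomial (Fin n × C) ℚ).IsHomogeneous 1 := by
  unfold rsum
  exact IsHomogeneous.sum _ _ _ fun j _ => isHomogeneous_X ℚ (i, j)

/-- Row weights determine the degree. -/
theorem degree_eq (e : Fin n × C →₀ ℕ) : e.degree = ∑ i, Finsupp.weight rowW e i := by
  rw [Finsupp.degree_eq_sum, Fintype.sum_prod_type]
  refine Finset.sum_congr rfl fun i _ => ?_
  rw [weight_rowW]

theorem coeff_sign_smul (e : Fin n × C →₀ ℕ) (u : ℤˣ) (f : MvPolynomial (Fin n × C) ℚ) :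
    coeff e (u • f) = ((u : ℤ) : ℚ) * coeff e f := by
  rcases Int.units_eq_one_or u with h1 | h1
  · rw [h1, one_smul]; simp
  · rw [h1, Units.neg_smul, one_smul, coeff_neg]; simp

/-- A polynomial all of whose monomials have degree `d`, with a nonzero coefficient at `e` of
degree `d`, has total degree `d`. -/
theorem totalDegree_eq_of (f : MvPolynomial (Fin n × C) ℚ) (e : Fin n × C →₀ ℕ)
    (he : coeff e f ≠ 0) (h : ∀ e', coeff e' f ≠ 0 → e'.degree = e.degree) :
    f.totalDegree = e.degree := by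
  have hh : f.IsHomogeneous e.degree := by
    intro e' he'
    exact (DFunLike.congr_fun (Finsupp.degree_eq_weight_one (R := ℕ)) e').symm.trans (h e' he')
  refine hh.totalDegree ?_
  rintro rfl
  exact he (coeff_zero e)

end

theorem cn_lemma {n : ℕ} {C : Type} [Fintype C] [DecidableEq C]
    (L : Fin n → C → Finset ℕ) (hL : ∀ i j, 1 ≤ (L i j).card)
    (R : Finset C) (Y : C → Fin n → ℕ) (hinj : Set.InjOn Y (R : Set C))
    (hlt : ∀ j ∈ R, ∀ i, Y j i < (L i j).card)
    (Δ : Equiv.Perm (Fin n))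
    (hΔ : ∀ i, (Δ i : ℕ) = 0 ∨
      2 * (∑ j ∈ R, Y j i) + (Δ i : ℕ) ≤ ∑ j, ((L i j).card - 1)) :
    ∃ c : Fin n → C → ℕ, (∀ i j, c i j ∈ L i j) ∧
      (∀ j ∈ R, ∀ j' ∈ R, j ≠ j' → ∃ i, c i j ≠ c i j') ∧
      Function.Injective (fun i => ∑ j, c i j) := by
  obtain ⟨e, hbox, hcoef, hw⟩ := exists_mono R Y hinj (fun v => (L v.1 v.2).card)
    (fun v => hL v.1 v.2) (fun j hj i => hlt j hj i) (fun i => (Δ i : ℕ)) hΔ
  set Φ : MvPolynomial (Fin n × C) ℚ := detP R Y * vdm with hΦ
  have hΦ2 : Φ = ∑ τ : Equiv.Perm (Fin n), Equiv.Perm.sign τ •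
      (detP R Y * ∏ i, rsum i ^ ((τ i : Fin n) : ℕ)) := by
    rw [hΦ, vdm_eq, Finset.mul_sum]
    refine Finset.sum_congr rfl fun τ _ => ?_
    rw [mul_smul_comm]
  have hc : coeff e Φ ≠ 0 := by
    rw [hΦ2, coeff_sum, Finset.sum_eq_single Δ]
    · rw [coeff_sign_smul]
      refine mul_ne_zero ?_ hcoef
      rcases Int.units_eq_one_or (Equiv.Perm.sign Δ) with h1 | h1 <;> rw [h1] <;> simp
    · intro τ _ hτ
      rw [coeff_sign_smul]
      have : coeff e (detP R Y * ∏ i, rsum i ^ ((τ i : Fin n) : ℕ)) = (0 : ℚ) := by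
        refine (term_hom R Y (fun i => ((τ i : Fin n) : ℕ))).coeff_eq_zero e ?_
        intro h
        apply hτ
        ext i
        have := congrFun (hw.symm.trans h) i
        omega
      rw [this, mul_zero]
    · simp
  have htot : Φ.totalDegree = e.degree := by
    refine totalDegree_eq_of Φ e hc fun e' he' => ?_
    rw [hΦ2, coeff_sum] at he'
    obtain ⟨τ, _, hτ⟩ := Finset.exists_ne_zero_of_sum_ne_zero he'
    rw [coeff_sign_smul] at hτ
    have h1 := (term_hom R Y (fun i => ((τ i : Fin n) : ℕ))) (right_ne_zero_of_mul hτ)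
    rw [degree_eq, degree_eq, h1, hw]
    simp only
    rw [Finset.sum_add_distrib, Finset.sum_add_distrib]
    congr 1
    rw [Equiv.sum_comp τ (fun i : Fin n => (i : ℕ)), Equiv.sum_comp Δ (fun i : Fin n => (i : ℕ))]
  obtain ⟨x, hx, hne⟩ := combinatorial_nullstellensatz_exists_eval_nonzero Φ e hc htot
    (fun v => (L v.1 v.2).map Nat.castEmbedding) (fun v => by
      rw [Finset.card_map]
      exact hbox v)
  have hx2 : ∀ i j, ∃ a ∈ L i j, (a : ℚ) = x (i, j) := by
    intro i j
    have := hx (i, j)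
    rw [Finset.mem_map] at this
    simpa using this
  choose c hc1 hc2 using hx2
  rw [hΦ, eval_mul] at hne
  refine ⟨c, hc1, ?_, ?_⟩
  · intro j hj j' hj' hjj
    obtain ⟨i, hi⟩ := eval_detP_ne R Y x (left_ne_zero_of_mul hne) j j' hj hj' hjj
    refine ⟨i, fun h => hi ?_⟩
    rw [← hc2, ← hc2, h]
  · have hv := right_ne_zero_of_mul hne
    unfold vdm at hv
    rw [RingHom.map_det] at hv
    have hv2 : (eval x).mapMatrix (Matrix.vandermonde
        (fun i : Fin n => (rsum i : MvPolynomial (Fin n × C) ℚ))) =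
        Matrix.vandermonde (fun i : Fin n => ((∑ j, c i j : ℕ) : ℚ)) := by
      ext i j
      simp only [RingHom.mapMatrix_apply, Matrix.map_apply, Matrix.vandermonde_apply, map_pow,
        rsum, map_sum, eval_X, Nat.cast_sum, hc2]
    rw [hv2, Matrix.det_vandermonde_ne_zero_iff] at hv
    intro i i' h
    apply hv
    simp only at h ⊢
    rw [h]

end Pool.Agent.RK
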