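import Mathlib

/-!
Definitions for the list-distinguishing number of the rook's graph (MP_0d630e_co).
-/

namespace Pool.Agent.RK

open SimpleGraph

universe u v

/-- A colouring `c` of the vertices of `G` is distinguishing if the identity is the only
automorphism of `G` that preserves the colours. -/
def Distinguishing {V : Type u} {α : Type v} (G : SimpleGraph V) (c : V → α) : Prop :=
  ∀ φ : G ≃g G, (∀ x, c (φ x) = c x) → ∀ x, φ x = x

/-- `G` has a distinguishing colouring with at most `k` colours. -/
def HasDist {V : Type u} (G : SimpleGraph V) (k : ℕ) : Prop :=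
  ∃ c : V → Fin k, Distinguishing G c

/-- Every assignment of lists of exactly `k` colours has a distinguishing list colouring. -/
def HasListDist {V : Type u} (G : SimpleGraph V) (k : ℕ) : Prop :=
  ∀ L : V → Finset ℕ, (∀ x, (L x).card = k) →
    ∃ c : V → ℕ, (∀ x, c x ∈ L x) ∧ Distinguishing G c

/-- The distinguishing number. -/
noncomputable def distNumber {V : Type u} (G : SimpleGraph V) : ℕ := sInf {k | HasDist G k}

/-- The list-distinguishing number. -/
noncomputable def listDistNumber {V : Type u} (G : SimpleGraph V) : ℕ :=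
  sInf {k | HasListDist G k}

/-- The rook's graph `K_n □ K_m`. -/
abbrev rook (n m : ℕ) : SimpleGraph (Fin n × Fin m) :=
  (⊤ : SimpleGraph (Fin n)) □ (⊤ : SimpleGraph (Fin m))

/-- A matrix is distinguished if no nontrivial pair of a row permutation and a column
permutation preserves it. -/
def MDist {n m : ℕ} {α : Type v} (c : Fin n → Fin m → α) : Prop :=
  ∀ (π : Equiv.Perm (Fin n)) (σ : Equiv.Perm (Fin m)),
    (∀ i j, c (π i) (σ j) = c i j) → π = 1 ∧ σ = 1

/-- No transposition of a square matrix, followed by permutations, preserves it. -/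
def NoSwap {n : ℕ} {α : Type v} (c : Fin n → Fin n → α) : Prop :=
  ∀ (π σ : Equiv.Perm (Fin n)), ¬ ∀ i j, c (π j) (σ i) = c i j

/-- `c` chooses a colour from every list. -/
def Chooses {n m : ℕ} (L : Fin n → Fin m → Finset ℕ) (c : Fin n → Fin m → ℕ) : Prop :=
  ∀ i j, c i j ∈ L i j

/-- Number of columns whose list in row `i` contains the colour `a`. -/
def cnt {n m : ℕ} (L : Fin n → Fin m → Finset ℕ) (i : Fin n) (a : ℕ) : ℕ :=
  (Finset.univ.filter (fun j => a ∈ L i j)).card

/-- The columns that contain, in some row, a colour which is small for that row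
(at most `N` columns have it in that row). -/
def smallCols {n m : ℕ} (L : Fin n → Fin m → Finset ℕ) (N : ℕ) : Finset (Fin m) :=
  Finset.univ.filter (fun j => ∃ i, ∃ a ∈ L i j, cnt L i a ≤ N)

/-- A good partial colouring: the columns in `Q` are coloured from their lists, they are pairwise
distinct, and each of them differs from every list colouring of every column outside `Q`. -/
def Good {n m : ℕ} (L : Fin n → Fin m → Finset ℕ) (Q : Finset (Fin m))
    (c : Fin n → Fin m → ℕ) : Prop :=
  (∀ j ∈ Q, ∀ i, c i j ∈ L i j) ∧ (∀ j ∈ Q, ∀ j' ∈ Q, j ≠ j' → ∃ i, c i j ≠ c i j') ∧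
    (∀ j ∈ Q, ∀ j' ∉ Q, ∃ i, c i j ∉ L i j')

/-- A set `T` of vectors is asymmetric under permutations of the coordinates. -/
def Asym {n : ℕ} {α : Type v} (T : Set (Fin n → α)) : Prop :=
  ∀ π : Equiv.Perm (Fin n), (∀ v, v ∘ π ∈ T ↔ v ∈ T) → π = 1

end Pool.Agent.RK
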