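import Pool.Agent.RK.Aut

/-!
Reduction of `Distinguishing (rook n m)` to matrices.
Every pair `(π, σ)` gives an automorphism `(i,j) ↦ (π i, σ j)`, and for `n = m` every pair gives
`(i,j) ↦ (π j, σ i)`; the converse is `aut_class`.
-/

namespace Pool.Agent.RK

open SimpleGraph

/-- The automorphism given by a row and a column permutation. -/
def isoOf {n m : ℕ} (π : Equiv.Perm (Fin n)) (σ : Equiv.Perm (Fin m)) :
    rook n m ≃g rook n m where
  toEquiv := Equiv.prodCongr π σ
  map_rel_iff' := by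
    intro a b
    simp only [SimpleGraph.boxProd_adj, SimpleGraph.top_adj, Equiv.prodCongr_apply, Prod.map_fst,
      Prod.map_snd, ne_eq, EmbeddingLike.apply_eq_iff_eq]

/-- The automorphism given by a transposition followed by permutations. -/
def isoSwap {n : ℕ} (π σ : Equiv.Perm (Fin n)) : rook n n ≃g rook n n where
  toEquiv := (Equiv.prodComm (Fin n) (Fin n)).trans (Equiv.prodCongr π σ)
  map_rel_iff' := by
    intro a b
    simp only [SimpleGraph.boxProd_adj, SimpleGraph.top_adj, Equiv.trans_apply,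
      Equiv.prodComm_apply, Equiv.prodCongr_apply, Prod.map_fst,
      Prod.map_snd, ne_eq, EmbeddingLike.apply_eq_iff_eq, Prod.fst_swap, Prod.snd_swap]
    tauto

theorem mdist_of_dist {n m : ℕ} {α : Type*} (c : Fin n × Fin m → α)
    (h : Distinguishing (rook n m) c) (hn : 1 ≤ n) (hm : 1 ≤ m) :
    MDist (fun i j => c (i, j)) := by
  intro π σ hc
  have h1 := h (isoOf π σ) (by
    rintro ⟨i, j⟩
    exact hc i j)
  constructor
  · ext i : 1
    have := h1 (i, ⟨0, hm⟩)
    have h2 : (π i, σ ⟨0, hm⟩) = (i, ⟨0, hm⟩) := this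
    exact (Prod.mk.inj h2).1
  · ext j : 1
    have := h1 (⟨0, hn⟩, j)
    have h2 : (π ⟨0, hn⟩, σ j) = (⟨0, hn⟩, j) := this
    exact (Prod.mk.inj h2).2

theorem dist_of_mdist {n m : ℕ} {α : Type*} (hn : 2 ≤ n) (hnm : n < m)
    (c : Fin n → Fin m → α) (h : MDist c) :
    Distinguishing (rook n m) (fun v => c v.1 v.2) := by
  intro φ hφ
  rcases aut_class hn (by omega) φ with ⟨π, σ, hπ⟩ | ⟨π, σ, hb, _, _⟩
  · obtain ⟨h1, h2⟩ := h π σ (by
      intro i j
      have := hφ (i, j)
      rw [hπ] at this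
      exact this)
    rintro ⟨i, j⟩
    rw [hπ, h1, h2]
    rfl
  · have := Fintype.card_of_bijective hb
    simp at this
    omega

theorem dist_of_mdist_sq {n : ℕ} {α : Type*} (hn : 2 ≤ n)
    (c : Fin n → Fin n → α) (h : MDist c) (h2 : NoSwap c) :
    Distinguishing (rook n n) (fun v => c v.1 v.2) := by
  intro φ hφ
  rcases aut_class hn hn φ with ⟨π, σ, hπ⟩ | ⟨π, σ, hb, hb', hπ⟩
  · obtain ⟨h1, h2⟩ := h π σ (by
      intro i j
      have := hφ (i, j)
      rw [hπ] at this
      exact this)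
    rintro ⟨i, j⟩
    rw [hπ, h1, h2]
    rfl
  · exfalso
    apply h2 (Equiv.ofBijective π hb) (Equiv.ofBijective σ hb')
    intro i j
    have := hφ (i, j)
    rw [hπ] at this
    exact this

theorem noswap_of_dist {n : ℕ} {α : Type*} (hn : 2 ≤ n) (c : Fin n × Fin n → α)
    (h : Distinguishing (rook n n) c) : NoSwap (fun i j => c (i, j)) := by
  intro π σ hc
  have h1 := h (isoSwap π σ) (by
    rintro ⟨i, j⟩
    exact hc i j)
  have h2 : (π (⟨0, by omega⟩ : Fin n), σ (⟨0, by omega⟩ : Fin n)) =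
      ((⟨0, by omega⟩ : Fin n), (⟨0, by omega⟩ : Fin n)) := h1 (⟨0, by omega⟩, ⟨0, by omega⟩)
  have h3 : (π (⟨0, by omega⟩ : Fin n), σ (⟨1, by omega⟩ : Fin n)) =
      ((⟨1, by omega⟩ : Fin n), (⟨0, by omega⟩ : Fin n)) := h1 (⟨1, by omega⟩, ⟨0, by omega⟩)
  have h4 := (Prod.mk.inj h2).1
  have h5 := (Prod.mk.inj h3).1
  rw [h4] at h5
  simp at h5

/-- Distinct columns and distinct row sums are enough. -/
theorem mdist_of_sums {n m : ℕ} (c : Fin n → Fin m → ℕ)
    (hcol : ∀ j j', j ≠ j' → ∃ i, c i j ≠ c i j')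
    (hrow : Function.Injective (fun i => ∑ j, c i j)) : MDist c := by
  intro π σ hc
  have h1 : π = 1 := by
    ext i : 1
    apply hrow
    show ∑ j, c (π i) j = ∑ j, c i j
    rw [← Equiv.sum_comp σ (fun j => c (π i) j)]
    exact Finset.sum_congr rfl (fun j _ => hc i j)
  refine ⟨h1, ?_⟩
  ext j : 1
  by_contra hne
  obtain ⟨i, hi⟩ := hcol (σ j) j hne
  apply hi
  have := hc i j
  rw [h1] at this
  exact this

/-- Breaking the transposition: the sums of the squares of the row sums and of the column sums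
differ.  If `c (π j) (σ i) = c i j`, the row sum `i` equals the column sum `σ i`. -/
theorem noswap_of_sq {n : ℕ} (c : Fin n → Fin n → ℕ)
    (h : (∑ i : Fin n, (∑ j : Fin n, c i j) ^ 2) ≠ ∑ j : Fin n, (∑ i : Fin n, c i j) ^ 2) :
    NoSwap c := by
  intro π σ hc
  apply h
  rw [← Equiv.sum_comp σ (fun j => (∑ i : Fin n, c i j) ^ 2)]
  refine Finset.sum_congr rfl (fun i _ => ?_)
  congr 1
  rw [← Equiv.sum_comp π (fun k => c k (σ i))]
  exact Finset.sum_congr rfl (fun j _ => (hc i j).symm)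

end Pool.Agent.RK
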