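import Mathlib

/-!
Exponent sets, first kind.

For `2 ≤ n`, `2 ≤ k` and `n - 1 ≤ ρ ≤ k ^ n - (n - 1)` there is a set `Y` of `ρ` vectors in
`{0..k-1}^n` with `2 * ∑_{v ∈ Y} v i + i ≤ ρ (k-1)` for every row `i`; in centred form
`w_i(Y) = ∑_{v ∈ Y} (2 v_i - (k-1)) ≤ - i`.

Proof.  Let `-v` be the vector `k-1-v_i`.  Base set `B_s` (`s = n-2` or `n-1`): the zero vector and
the `s` vectors `(k-1) e_r`, `r < s`; it has `s + 1` elements and
`w_i = -(k-1)(s-1) ≤ -i` for `i < s`, `w_i = -(k-1)(s+1) ≤ -i` for `i ≥ s`; and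
`B_s ∩ -B_s = ∅` (for `s ≤ n - 1`).  Adding a set `S` with `S = -S` (disjoint from `B_s` and
`-B_s`) does not change `w`.  The complement `Z` of `B_s ∪ -B_s` is closed under `-`, and `-` has
no fixed point on it for `k` even, exactly one (all `v_i = (k-1)/2`) for `k` odd; so it contains a
set `S = -S` of every size `≤ |Z| = k ^ n - 2 (s+1)` that is even, or, for `k` odd, of every size
`≤ |Z|`.  (Choose `S` by induction: remove a pair `{v, -v}` or the fixed point.)
`k` even: `k ^ n` is even; use `s = n-2` for `ρ ≡ n-1 (mod 2)` (`n-1 ≤ ρ ≤ k^n-(n-1)`), and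
`s = n-1` for `ρ ≡ n (mod 2)` (then `n ≤ ρ ≤ k^n - n`).  `k` odd: `s = n-2`.
-/

namespace Pool.Agent.RK

namespace Y1

/-- symmetric subsets of even size -/
theorem sym_even {α : Type*} [DecidableEq α] (Z : Finset α) (f : α → α) (hf : ∀ z, f (f z) = z)
    (hZ : ∀ z ∈ Z, f z ∈ Z) (hfix : ∀ z ∈ Z, ∀ w ∈ Z, f z = z → f w = w → z = w) (t : ℕ)
    (ht : 2 * t ≤ Z.card) :
    ∃ S ⊆ Z, S.card = 2 * t ∧ (∀ z ∈ S, f z ∈ S) ∧ ∀ z ∈ S, f z ≠ z := by
  induction t with
  | zero => exact ⟨∅, by simp, by simp, by simp, by simp⟩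
  | succ t ih =>
    obtain ⟨S, hSZ, hc, hs, hn⟩ := ih (by omega)
    have h2 : 1 < (Z \ S).card := by
      rw [Finset.card_sdiff_of_subset hSZ]; omega
    obtain ⟨z, hz, hzf⟩ : ∃ z ∈ Z \ S, f z ≠ z := by
      by_contra hcon
      push Not at hcon
      obtain ⟨a, ha, b, hb, hab⟩ := Finset.one_lt_card.mp h2
      exact hab (hfix a (Finset.mem_sdiff.mp ha).1 b (Finset.mem_sdiff.mp hb).1
        (hcon a ha) (hcon b hb))
    rw [Finset.mem_sdiff] at hz
    have hfz : f z ∉ S := fun h => hz.2 (by have := hs _ h; rwa [hf] at this)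
    have hz2 : z ∉ insert (f z) S := by
      rw [Finset.mem_insert, not_or]; exact ⟨fun h => hzf h.symm, hz.2⟩
    refine ⟨insert z (insert (f z) S), ?_, ?_, ?_, ?_⟩
    · intro w hw
      rw [Finset.mem_insert, Finset.mem_insert] at hw
      rcases hw with rfl | rfl | hw
      · exact hz.1
      · exact hZ _ hz.1
      · exact hSZ hw
    · rw [Finset.card_insert_of_notMem hz2, Finset.card_insert_of_notMem hfz, hc]; ring
    · intro w hw
      rw [Finset.mem_insert, Finset.mem_insert] at hw ⊢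
      rcases hw with rfl | rfl | hw
      · right; left; rfl
      · left; exact hf z
      · right; right; exact hs _ hw
    · intro w hw
      rw [Finset.mem_insert, Finset.mem_insert] at hw
      rcases hw with rfl | rfl | hw
      · exact hzf
      · rw [hf]; exact fun h => hzf h.symm
      · exact hn _ hw

/-- symmetric subsets -/
theorem sym_any {α : Type*} [DecidableEq α] (Z : Finset α) (f : α → α) (hf : ∀ z, f (f z) = z)
    (hZ : ∀ z ∈ Z, f z ∈ Z) (hfix : ∀ z ∈ Z, ∀ w ∈ Z, f z = z → f w = w → z = w) (m : ℕ)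
    (hm : m ≤ Z.card) (h : Even m ∨ ∃ z ∈ Z, f z = z) :
    ∃ S ⊆ Z, S.card = m ∧ (∀ z ∈ S, f z ∈ S) := by
  rcases Nat.even_or_odd' m with ⟨t, rfl | rfl⟩
  · obtain ⟨S, h1, h2, h3, -⟩ := sym_even Z f hf hZ hfix t hm
    exact ⟨S, h1, h2, h3⟩
  · obtain ⟨z, hz, hzf⟩ : ∃ z ∈ Z, f z = z := by
      rcases h with h | h
      · exact absurd h (by simp)
      · exact h
    obtain ⟨S, h1, h2, h3, h4⟩ := sym_even Z f hf hZ hfix t (by omega)
    have hzS : z ∉ S := fun h => h4 z h hzf
    refine ⟨insert z S, ?_, ?_, ?_⟩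
    · intro w hw
      rcases Finset.mem_insert.mp hw with rfl | hw
      · exact hz
      · exact h1 hw
    · rw [Finset.card_insert_of_notMem hzS, h2]
    · intro w hw
      rcases Finset.mem_insert.mp hw with rfl | hw
      · rw [hzf]; exact Finset.mem_insert_self _ _
      · exact Finset.mem_insert_of_mem (h3 _ hw)

variable {n k : ℕ}

/-- negation -/
def neg (v : Fin n → Fin k) : Fin n → Fin k := fun i => (v i).rev

theorem neg_neg (v : Fin n → Fin k) : neg (neg v) = v := by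
  funext i; simp [neg]

theorem neg_inj : Function.Injective (neg : (Fin n → Fin k) → _) :=
  Function.LeftInverse.injective neg_neg

theorem neg_val (v : Fin n → Fin k) (i : Fin n) : ((neg v i : Fin k) : ℕ) + (v i : ℕ) = k - 1 := by
  have := (v i).2
  simp only [neg, Fin.val_rev]
  omega

theorem sum_sym (S : Finset (Fin n → Fin k)) (hS : ∀ v ∈ S, neg v ∈ S) (i : Fin n) :
    2 * ∑ v ∈ S, (v i : ℕ) = S.card * (k - 1) := by
  have h1 : ∑ v ∈ S, (neg v i : ℕ) = ∑ v ∈ S, (v i : ℕ) := by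
    refine Finset.sum_nbij' neg neg hS hS (fun v _ => neg_neg v) (fun v _ => neg_neg v) ?_
    intro v _; rfl
  have h2 : ∑ v ∈ S, ((neg v i : ℕ) + (v i : ℕ)) = S.card * (k - 1) := by
    rw [Finset.sum_congr rfl (fun v _ => neg_val v i), Finset.sum_const, smul_eq_mul]
  rw [Finset.sum_add_distrib, h1] at h2
  omega

theorem fix_unique (v w : Fin n → Fin k) (hv : neg v = v) (hw : neg w = w) : v = w := by
  funext i
  have h1 := neg_val v i
  have h2 := neg_val w i
  rw [hv] at h1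
  rw [hw] at h2
  exact Fin.ext (by omega)

/-- the vector `(k-1) e_r` -/
def unit (hk : 2 ≤ k) (r : ℕ) : Fin n → Fin k := fun i => if (i : ℕ) = r then ⟨k - 1, by omega⟩ else ⟨0, by omega⟩

theorem unit_val (hk : 2 ≤ k) (r : ℕ) (i : Fin n) :
    ((unit hk r i : Fin k) : ℕ) = if (i : ℕ) = r then k - 1 else 0 := by
  unfold unit; split_ifs <;> rfl

/-- the base set: `unit n = 0` and `unit r`, `r < s` -/
def base (n : ℕ) (hk : 2 ≤ k) (s : ℕ) : Finset (Fin n → Fin k) :=
  (insert n (Finset.range s)).image (unit hk)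

theorem unit_injOn (hk : 2 ≤ k) (s : ℕ) (hs : s < n) :
    Set.InjOn (unit (n := n) hk) (insert n (Finset.range s) : Finset ℕ) := by
  have key : ∀ a < n, ∀ b, unit (n := n) hk a = unit hk b → a = b := by
    intro a ha b h
    have := congrArg (fun v => ((v ⟨a, ha⟩ : Fin k) : ℕ)) h
    simp only [unit_val] at this
    by_contra hab
    rw [if_pos trivial, if_neg hab] at this
    omega
  intro a ha b hb h
  simp only [Finset.coe_insert, Finset.coe_range, Set.mem_insert_iff, Set.mem_Iio] at ha hb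
  by_cases h1 : a < n
  · exact key a h1 b h
  · by_cases h2 : b < n
    · exact (key b h2 a h.symm).symm
    · omega

theorem base_card (hk : 2 ≤ k) (s : ℕ) (hs : s < n) : (base n hk s).card = s + 1 := by
  rw [base, Finset.card_image_of_injOn (unit_injOn hk s hs), Finset.card_insert_of_notMem,
    Finset.card_range]
  simp; omega

theorem base_sum (hk : 2 ≤ k) (s : ℕ) (hs : s < n) (i : Fin n) :
    ∑ v ∈ base n hk s, (v i : ℕ) = if (i : ℕ) < s then k - 1 else 0 := by
  rw [base, Finset.sum_image (unit_injOn hk s hs)]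
  simp only [unit_val]
  rw [Finset.sum_ite_eq]
  have : (i : ℕ) ∈ insert n (Finset.range s) ↔ (i : ℕ) < s := by
    rw [Finset.mem_insert, Finset.mem_range]
    have := i.2
    omega
  simp only [this]

theorem base_last (hk : 2 ≤ k) (s : ℕ) (hs : s < n) (v : Fin n → Fin k) (hv : v ∈ base n hk s) :
    ((v ⟨n - 1, by omega⟩ : Fin k) : ℕ) = 0 := by
  rw [base, Finset.mem_image] at hv
  obtain ⟨r, hr, rfl⟩ := hv
  rw [Finset.mem_insert, Finset.mem_range] at hr
  rw [unit_val, if_neg]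
  simp only
  omega

theorem main {ρ s : ℕ} (hk : 2 ≤ k) (hs : s < n) (hs2 : n ≤ s + 2) (h1 : s + 1 ≤ ρ)
    (h2 : ρ + (s + 1) ≤ k ^ n) (hpar : Even (ρ - (s + 1)) ∨ Odd k) :
    ∃ Y : Finset (Fin n → Fin k), Y.card = ρ ∧
      ∀ i : Fin n, 2 * (∑ v ∈ Y, (v i : ℕ)) + (i : ℕ) ≤ ρ * (k - 1) := by
  classical
  set B := base n hk s with hB
  set NB := B.image neg with hNB
  have hBcard : B.card = s + 1 := base_card hk s hs
  have hNBcard : NB.card = s + 1 := by
    rw [hNB, Finset.card_image_of_injective _ neg_inj, hBcard]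
  have hBl : ∀ v ∈ B, ((v ⟨n - 1, by omega⟩ : Fin k) : ℕ) = 0 := base_last hk s hs
  have hNBl : ∀ v ∈ NB, ((v ⟨n - 1, by omega⟩ : Fin k) : ℕ) = k - 1 := by
    intro v hv
    obtain ⟨w, hw, rfl⟩ := Finset.mem_image.mp hv
    have := neg_val w ⟨n - 1, by omega⟩
    rw [hBl w hw] at this
    omega
  have hdisj : Disjoint B NB := by
    rw [Finset.disjoint_left]
    intro v h1 h2
    have a := hBl v h1
    have b := hNBl v h2
    omega
  set Z := Finset.univ \ (B ∪ NB) with hZ
  have hZmem : ∀ v, v ∈ Z ↔ v ∉ B ∧ v ∉ NB := by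
    intro v; rw [hZ, Finset.mem_sdiff, Finset.mem_union, not_or]; simp
  have hZcard : Z.card = k ^ n - 2 * (s + 1) := by
    rw [hZ, Finset.card_sdiff_of_subset (Finset.subset_univ _), Finset.card_union_of_disjoint hdisj,
      hBcard, hNBcard, Finset.card_univ, Fintype.card_fun, Fintype.card_fin, Fintype.card_fin]
    omega
  have hBN : ∀ v, neg v ∈ B → v ∈ NB := fun v h => by
    rw [hNB, Finset.mem_image]; exact ⟨_, h, neg_neg v⟩
  have hNN : ∀ v, neg v ∈ NB → v ∈ B := fun v h => by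
    obtain ⟨w, hw, hwv⟩ := Finset.mem_image.mp h
    rwa [← neg_inj hwv]
  have hZneg : ∀ v ∈ Z, neg v ∈ Z := by
    intro v hv
    rw [hZmem] at hv ⊢
    exact ⟨fun h => hv.2 (hBN v h), fun h => hv.1 (hNN v h)⟩
  have hfixex : Odd k → ∃ z ∈ Z, neg z = z := by
    rintro ⟨q, rfl⟩
    have hz : ∀ (i : Fin n), ((⟨q, by omega⟩ : Fin (2 * q + 1)) : ℕ) = q := fun _ => rfl
    refine ⟨fun _ => ⟨q, by omega⟩, ?_, ?_⟩
    · rw [hZmem]
      constructor
      · intro h
        have := hBl _ h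
        simp only at this
        omega
      · intro h
        have := hNBl _ h
        simp only at this
        omega
    · funext i
      apply Fin.ext
      have := neg_val (fun _ : Fin n => (⟨q, by omega⟩ : Fin (2 * q + 1))) i
      simp only at this ⊢
      omega
  obtain ⟨S, hSZ, hScard, hSneg⟩ := sym_any Z neg neg_neg hZneg
    (fun z _ w _ hz hw => fix_unique z w hz hw) (ρ - (s + 1)) (by rw [hZcard]; omega)
    (hpar.imp id hfixex)
  have hBS : Disjoint B S := by
    rw [Finset.disjoint_left]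
    intro v h1 h2
    exact ((hZmem v).mp (hSZ h2)).1 h1
  refine ⟨B ∪ S, ?_, ?_⟩
  · rw [Finset.card_union_of_disjoint hBS, hBcard, hScard]; omega
  · intro i
    rw [Finset.sum_union hBS, hB, base_sum hk s hs i, mul_add, sum_sym S hSneg i, hScard]
    have hi := i.2
    obtain ⟨m, hm⟩ : ∃ m, ρ = (s + 1) + m := ⟨ρ - (s + 1), by omega⟩
    obtain ⟨k', rfl⟩ : ∃ k', k = k' + 2 := ⟨k - 2, by omega⟩
    subst hm
    have e1 : s + 1 + m - (s + 1) = m := by omega
    have e2 : k' + 2 - 1 = k' + 1 := by omega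
    rw [e1, e2]
    split_ifs with h
    · have : (s - 1) * (k' + 1) ≥ s - 1 := by nlinarith [Nat.zero_le ((s - 1) * k')]
      obtain ⟨s', rfl⟩ : ∃ s', s = s' + 1 := ⟨s - 1, by omega⟩
      have e3 : s' + 1 - 1 = s' := by omega
      rw [e3] at this
      nlinarith
    · nlinarith [Nat.zero_le (s * k')]

end Y1

theorem y_sets1 {n k ρ : ℕ} (hn : 2 ≤ n) (hk : 2 ≤ k) (h1 : n - 1 ≤ ρ)
    (h2 : ρ + (n - 1) ≤ k ^ n) :
    ∃ Y : Finset (Fin n → Fin k), Y.card = ρ ∧
      ∀ i : Fin n, 2 * (∑ v ∈ Y, (v i : ℕ)) + (i : ℕ) ≤ ρ * (k - 1) := by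
  have e : n - 2 + 1 = n - 1 := by omega
  rcases Nat.even_or_odd k with hke | hko
  · rcases Nat.even_or_odd (ρ - (n - 1)) with hp | hp
    · exact Y1.main (s := n - 2) hk (by omega) (by omega) (by omega) (by rw [e]; exact h2)
        (Or.inl (by rw [e]; exact hp))
    · have hkn : Even (k ^ n) := hke.pow_of_ne_zero (by omega)
      obtain ⟨a, ha⟩ := hkn
      obtain ⟨b, hb⟩ := hp
      refine Y1.main (s := n - 1) hk (by omega) (by omega) (by omega) (by omega) (Or.inl ?_)
      exact ⟨b, by omega⟩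
  · exact Y1.main (s := n - 2) hk (by omega) (by omega) (by omega) (by rw [e]; exact h2)
      (Or.inr hko)

end Pool.Agent.RK
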