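import Pool.Agent.RK.Defs
import Pool.Agent.RK.Red
import Pool.Agent.RK.CN
import Pool.Agent.RK.Y1

/-!
From a good partial colouring `(Q, c)` to a full colouring.

`R = Qᶜ`, `ρ = m - #Q`, `Y` from `y_sets1`, a bijection of `R` with `Y`, `L' i j = {c i j}` for
`j ∈ Q` and `L' i j = L i j` otherwise, `Δ = 1`; apply `cn_lemma`.  The columns in `Q` are distinct
and differ from the ones in `R` since `Good`; those in `R` are distinct by `cn_lemma`; the row
sums are distinct; conclude by `mdist_of_sums`.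
-/

namespace Pool.Agent.RK

theorem finish {n m k : ℕ} (hn : 2 ≤ n) (hk : 2 ≤ k) (L : Fin n → Fin m → Finset ℕ)
    (hL : ∀ i j, (L i j).card = k) (Q : Finset (Fin m)) (c : Fin n → Fin m → ℕ)
    (hG : Good L Q c) (h1 : n - 1 + Q.card ≤ m) (h2 : m + (n - 1) ≤ k ^ n + Q.card) :
    ∃ c', Chooses L c' ∧ MDist c' := by
  obtain ⟨hG1, hG2, hG3⟩ := hG
  have hQm : Q.card ≤ m := by
    have := Finset.card_le_univ Q
    simpa using this
  obtain ⟨Y, hYc, hY⟩ := y_sets1 (n := n) (k := k) (ρ := m - Q.card) hn hk (by omega) (by omega)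
  have hR : (Qᶜ).card = Y.card := by
    rw [Finset.card_compl, Fintype.card_fin, hYc]
  let E : (Qᶜ : Finset (Fin m)) ≃ Y := Finset.equivOfCardEq hR
  let Yf : Fin m → Fin n → ℕ := fun j i => if h : j ∈ Qᶜ then ((E ⟨j, h⟩ : Fin n → Fin k) i : ℕ)
    else 0
  let L' : Fin n → Fin m → Finset ℕ := fun i j => if j ∈ Q then {c i j} else L i j
  have hL'1 : ∀ i j, 1 ≤ (L' i j).card := by
    intro i j
    simp only [L']
    split_ifs
    · simp
    · rw [hL]; omega
  have hYf : ∀ i, ∑ j ∈ Qᶜ, Yf j i = ∑ v ∈ Y, (v i : ℕ) := by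
    intro i
    rw [← Finset.sum_coe_sort (Qᶜ), ← Finset.sum_coe_sort Y,
      ← Equiv.sum_comp E (fun v : Y => ((v : Fin n → Fin k) i : ℕ))]
    refine Finset.sum_congr rfl fun j _ => ?_
    simp only [Yf]
    rw [dif_pos j.2]
  obtain ⟨c', hc1, hc2, hc3⟩ := cn_lemma L' hL'1 (Qᶜ) Yf (by
    intro j hj j' hj' hjj
    have hj2 : j ∈ Qᶜ := hj
    have hj3 : j' ∈ Qᶜ := hj'
    have h3 : (E ⟨j, hj2⟩ : Fin n → Fin k) = (E ⟨j', hj3⟩ : Fin n → Fin k) := by
      funext i
      have := congrFun hjj i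
      simp only [Yf] at this
      rw [dif_pos hj2, dif_pos hj3] at this
      exact Fin.ext this
    have h4 := E.injective (Subtype.ext h3)
    exact congrArg Subtype.val h4) (by
    intro j hj i
    simp only [Yf, L']
    rw [dif_pos hj, if_neg (Finset.mem_compl.1 hj), hL]
    exact ((E ⟨j, hj⟩ : Fin n → Fin k) i).2) 1 (by
    intro i
    right
    rw [hYf]
    have h3 : ∑ j, ((L' i j).card - 1) = (m - Q.card) * (k - 1) := by
      have h4 : ∀ j, (L' i j).card - 1 = if j ∈ Qᶜ then k - 1 else 0 := by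
        intro j
        simp only [L', Finset.mem_compl]
        by_cases hj : j ∈ Q
        · simp [hj]
        · simp [hj, hL]
      simp_rw [h4]
      rw [Finset.sum_ite_mem, Finset.univ_inter, Finset.sum_const, hR, hYc, smul_eq_mul]
    rw [h3]
    exact hY i)
  have hcQ : ∀ j ∈ Q, ∀ i, c' i j = c i j := by
    intro j hj i
    have := hc1 i j
    simp only [L', if_pos hj, Finset.mem_singleton] at this
    exact this
  have hcR : ∀ j, j ∉ Q → ∀ i, c' i j ∈ L i j := by
    intro j hj i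
    have := hc1 i j
    simp only [L', if_neg hj] at this
    exact this
  refine ⟨c', ?_, mdist_of_sums c' ?_ hc3⟩
  · intro i j
    by_cases hj : j ∈ Q
    · rw [hcQ j hj]; exact hG1 j hj i
    · exact hcR j hj i
  · have key : ∀ j ∈ Q, ∀ j' ∉ Q, ∃ i, c' i j ≠ c' i j' := by
      intro j hj j' hj'
      obtain ⟨i, hi⟩ := hG3 j hj j' hj'
      refine ⟨i, fun h => hi ?_⟩
      rw [← hcQ j hj i, h]
      exact hcR j' hj' i
    intro j j' hjj
    by_cases hj : j ∈ Q
    · by_cases hj' : j' ∈ Q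
      · obtain ⟨i, hi⟩ := hG2 j hj j' hj' hjj
        refine ⟨i, ?_⟩
        rw [hcQ j hj, hcQ j' hj']
        exact hi
      · exact key j hj j' hj'
    · by_cases hj' : j' ∈ Q
      · obtain ⟨i, hi⟩ := key j' hj' j hj
        exact ⟨i, fun h => hi h.symm⟩
      · exact hc2 j (Finset.mem_compl.2 hj) j' (Finset.mem_compl.2 hj') hjj

end Pool.Agent.RK
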