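import Pool.Agent.RK.Defs

/-!
Greedy choice of distinct representatives.

`sdr`: Finset induction on `s`.
`choose_cols`: `sdr` with `Opt j = Fintype.piFinset (fun i => if i = i₀ then {a} else L i j)`,
which has at least `k ^ (n-1)` elements.
-/

namespace Pool.Agent.RK

theorem sdr {ι β : Type*} [DecidableEq ι] [DecidableEq β] [Nonempty β] (s : Finset ι)
    (Opt : ι → Finset β) (h : ∀ i ∈ s, s.card ≤ (Opt i).card) :
    ∃ f : ι → β, (∀ i ∈ s, f i ∈ Opt i) ∧ Set.InjOn f (s : Set ι) := by
  induction s using Finset.induction_on with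
  | empty => exact ⟨fun _ => Classical.arbitrary β, by simp, by simp⟩
  | insert i s his ih =>
    rw [Finset.card_insert_of_notMem his] at h
    obtain ⟨f, hf, hinj⟩ := ih fun j hj =>
      (Nat.le_succ _).trans (h j (Finset.mem_insert_of_mem hj))
    have hi := h i (Finset.mem_insert_self i s)
    obtain ⟨b, hb, hb'⟩ : ∃ b ∈ Opt i, b ∉ s.image f := by
      by_contra hcon
      push Not at hcon
      have h1 := Finset.card_le_card (show Opt i ⊆ s.image f from hcon)
      have h2 := Finset.card_image_le (s := s) (f := f)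
      omega
    have hne : ∀ j ∈ s, j ≠ i := fun j hj h => his (h ▸ hj)
    refine ⟨Function.update f i b, ?_, ?_⟩
    · intro j hj
      rw [Finset.mem_insert] at hj
      rcases hj with rfl | hj
      · rwa [Function.update_self]
      · rw [Function.update_of_ne (hne j hj)]
        exact hf j hj
    · intro j hj j' hj' heq
      rw [Finset.mem_coe, Finset.mem_insert] at hj hj'
      rcases hj with rfl | hj <;> rcases hj' with rfl | hj'
      · rfl
      · rw [Function.update_self, Function.update_of_ne (hne j' hj')] at heq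
        exact absurd (Finset.mem_image.2 ⟨j', hj', heq.symm⟩) hb'
      · rw [Function.update_self, Function.update_of_ne (hne j hj)] at heq
        exact absurd (Finset.mem_image.2 ⟨j, hj, heq⟩) hb'
      · rw [Function.update_of_ne (hne j hj), Function.update_of_ne (hne j' hj')] at heq
        exact hinj hj hj' heq

/-- The same with a different prescribed row and colour for every column of `X`. -/
theorem choose_cols' {n m k : ℕ} (L : Fin n → Fin m → Finset ℕ)
    (hL : ∀ i j, k ≤ (L i j).card) (X : Finset (Fin m)) (i₀ : Fin m → Fin n) (a : Fin m → ℕ)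
    (hX : ∀ j ∈ X, a j ∈ L (i₀ j) j) (hcard : X.card ≤ k ^ (n - 1)) :
    ∃ f : Fin n → Fin m → ℕ, (∀ j ∈ X, ∀ i, f i j ∈ L i j) ∧ (∀ j ∈ X, f (i₀ j) j = a j) ∧
      (∀ j ∈ X, ∀ j' ∈ X, j ≠ j' → ∃ i, f i j ≠ f i j') := by
  obtain ⟨g, hg, hinj⟩ := sdr X (fun j => Fintype.piFinset fun i : Fin n =>
    if i = i₀ j then {a j} else L i j) (fun j _ => by
      refine hcard.trans ?_
      rw [Fintype.card_piFinset, ← Finset.mul_prod_erase _ _ (Finset.mem_univ (i₀ j))]
      simp only [if_true, Finset.card_singleton, one_mul]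
      calc k ^ (n - 1) = ∏ _i ∈ Finset.univ.erase (i₀ j), k := by
            rw [Finset.prod_const, Finset.card_erase_of_mem (Finset.mem_univ _),
              Finset.card_univ, Fintype.card_fin]
        _ ≤ _ := by
            refine Finset.prod_le_prod (fun _ _ => Nat.zero_le _) fun i hi => ?_
            rw [if_neg (Finset.ne_of_mem_erase hi)]
            exact hL i j)
  refine ⟨fun i j => g j i, ?_, ?_, ?_⟩
  · intro j hj i
    have h1 := Fintype.mem_piFinset.1 (hg j hj) i
    show g j i ∈ L i j
    split_ifs at h1 with h2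
    · rw [Finset.mem_singleton] at h1
      rw [h1, h2]
      exact hX j hj
    · exact h1
  · intro j hj
    have h1 := Fintype.mem_piFinset.1 (hg j hj) (i₀ j)
    rw [if_pos rfl, Finset.mem_singleton] at h1
    exact h1
  · intro j hj j' hj' hne
    by_contra hcon
    push Not at hcon
    exact hne (hinj hj hj' (funext hcon))

theorem choose_cols {n m k : ℕ} (L : Fin n → Fin m → Finset ℕ)
    (hL : ∀ i j, k ≤ (L i j).card) (A : Finset (Fin m)) (i₀ : Fin n) (a : ℕ)
    (hA : ∀ j ∈ A, a ∈ L i₀ j) (hcard : A.card ≤ k ^ (n - 1)) :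
    ∃ f : Fin n → Fin m → ℕ, (∀ j ∈ A, ∀ i, f i j ∈ L i j) ∧ (∀ j ∈ A, f i₀ j = a) ∧
      (∀ j ∈ A, ∀ j' ∈ A, j ≠ j' → ∃ i, f i j ≠ f i j') :=
  choose_cols' L hL A (fun _ => i₀) (fun _ => a) hA hcard

end Pool.Agent.RK
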