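import Mathlib

/-!
Exponent sets, second kind (special row `i₀`, permutation `Δ = swap 0 i₀`, so `Δ i₀ = 0`).

`A = {v : v i₀ ≠ k-1} \ T'` where `T'` consists of the vector with `v i₀ = 0` and `k-1` in all other
rows, and of the `n-1` vectors with `v i₀ = 0`, `0` in one further row `r ≠ i₀` and `k-1` elsewhere
(`n` vectors).  `B` (with `n - t` elements): the vector `v i₀ = k-1`, `0` elsewhere, and for the
rows `r` with `1 ≤ Δ r ≤ n - t - 1` the vector `v i₀ = k-1`, `v r = k-1`, `0` elsewhere.
Centred sums `w_i = ∑ (2 v_i - (k-1))` for `i ≠ i₀`: the whole set `{v : v i₀ ≠ k-1}` has `w_i = 0`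
(symmetric under `v_i ↦ k-1-v_i` in the row `i`), `w_i(T') = (k-1)(n-2)`, and
`w_i(B) = -(k-1)(n-t-2)` if `Δ i ≤ n-t-1`, `= -(k-1)(n-t)` otherwise.  So
`w_i(A) + w_i(B) ≤ - Δ i`: for `Δ i ≤ n-t-1`: `Δ i ≤ n - t - 1 ≤ (n-2) + (n-t-2)`; otherwise
`Δ i ≤ n - 1 ≤ (n - 2) + (n - t)`.
-/

namespace Pool.Agent.RK

namespace Y2

open Finset

/-- The vectors of `T'`. -/
def tv {n K : ℕ} (i₀ r : Fin n) : Fin n → Fin (K + 1) :=
  fun i => if i = i₀ ∨ i = r then 0 else Fin.last K

/-- The vectors of `B`. -/
def bv {n K : ℕ} (i₀ r : Fin n) : Fin n → Fin (K + 1) :=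
  fun i => if i = i₀ ∨ i = r then Fin.last K else 0

/-- The vectors whose entry in the special row is not the last one. -/
def V0 {n : ℕ} (K : ℕ) (i₀ : Fin n) : Finset (Fin n → Fin (K + 1)) :=
  univ.filter (fun v => (v i₀ : ℕ) + 1 < K + 1)

theorem tv_inj {n K : ℕ} (hK : 1 ≤ K) (i₀ : Fin n) :
    Function.Injective (tv (K := K) i₀) := by
  have hne : K ≠ 0 := by omega
  intro r s h
  by_contra hrs
  by_cases hr : r = i₀
  · have h1 := congrFun h s
    have hs : s ≠ i₀ := fun h' => hrs (hr.trans h'.symm)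
    have hsr : s ≠ r := fun h' => hrs h'.symm
    simp [tv, hs, hsr] at h1
    first | exact hne h1 | exact hne h1.symm
  · have h1 := congrFun h r
    simp [tv, hr, hrs] at h1
    first | exact hne h1.symm | exact hne h1

theorem bv_inj {n K : ℕ} (hK : 1 ≤ K) (i₀ : Fin n) :
    Function.Injective (bv (K := K) i₀) := by
  have hne : K ≠ 0 := by omega
  intro r s h
  by_contra hrs
  by_cases hr : r = i₀
  · have h1 := congrFun h s
    have hs : s ≠ i₀ := fun h' => hrs (hr.trans h'.symm)
    have hsr : s ≠ r := fun h' => hrs h'.symm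
    simp [bv, hs, hsr] at h1
    first | exact hne h1.symm | exact hne h1
  · have h1 := congrFun h r
    simp [bv, hr, hrs] at h1
    first | exact hne h1 | exact hne h1.symm

theorem V0_card {n K : ℕ} (i₀ : Fin n) : (V0 K i₀).card = K * (K + 1) ^ (n - 1) := by
  classical
  have h : V0 K i₀ = Fintype.piFinset
      (fun i => if i = i₀ then (univ.filter (fun x : Fin (K + 1) => (x : ℕ) < K)) else univ) := by
    ext v
    simp only [V0, mem_filter, mem_univ, true_and, Fintype.mem_piFinset]
    constructor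
    · intro hv i
      by_cases hi : i = i₀
      · subst hi
        simp
        omega
      · simp [hi]
    · intro hv
      have := hv i₀
      simp at this
      omega
  rw [h, Fintype.card_piFinset]
  rw [← Finset.mul_prod_erase univ _ (mem_univ i₀)]
  have h1 : (univ.filter (fun x : Fin (K + 1) => (x : ℕ) < K)).card = K := by
    have : (univ.filter (fun x : Fin (K + 1) => (x : ℕ) < K)) = univ.erase (Fin.last K) := by
      ext x
      simp only [mem_filter, mem_univ, true_and, mem_erase, and_true]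
      constructor
      · intro hx h'
        subst h'
        simp at hx
      · intro hx
        have h1 := x.2
        by_contra h2
        apply hx
        ext
        simp
        omega
    rw [this, card_erase_of_mem (mem_univ _)]
    simp
  rw [if_pos rfl, h1]
  congr 1
  rw [Finset.prod_congr rfl (g := fun _ => K + 1)]
  · rw [Finset.prod_const, card_erase_of_mem (mem_univ _)]
    simp
  · intro x hx
    rw [if_neg (ne_of_mem_erase hx)]
    simp

theorem V0_sum {n K : ℕ} (i₀ i : Fin n) (hi : i ≠ i₀) :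
    2 * ∑ v ∈ V0 K i₀, ((v i : Fin (K + 1)) : ℕ) = (V0 K i₀).card * K := by
  classical
  have h : ∑ v ∈ V0 K i₀, ((v i : Fin (K + 1)) : ℕ)
      = ∑ v ∈ V0 K i₀, (K - ((v i : Fin (K + 1)) : ℕ)) := by
    refine Finset.sum_bij' (fun v _ => Function.update v i (Fin.rev (v i)))
      (fun v _ => Function.update v i (Fin.rev (v i))) ?_ ?_ ?_ ?_ ?_
    · intro v hv
      simp only [V0, mem_filter, mem_univ, true_and] at hv ⊢
      rw [Function.update_of_ne (Ne.symm hi)]
      exact hv
    · intro v hv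
      simp only [V0, mem_filter, mem_univ, true_and] at hv ⊢
      rw [Function.update_of_ne (Ne.symm hi)]
      exact hv
    · intro v hv
      simp
    · intro v hv
      simp
    · intro v hv
      have := (v i).2
      simp [Fin.val_rev]
      omega
  have h2 : ∑ v ∈ V0 K i₀, ((v i : Fin (K + 1)) : ℕ)
      + ∑ v ∈ V0 K i₀, (K - ((v i : Fin (K + 1)) : ℕ)) = (V0 K i₀).card * K := by
    rw [← Finset.sum_add_distrib]
    rw [Finset.sum_congr rfl (g := fun _ => K)]
    · simp
    · intro v hv
      have := (v i).2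
      omega
  omega

theorem tv_sum {n K : ℕ} (hK : 1 ≤ K) (i₀ i : Fin n) (hi : i ≠ i₀) :
    ∑ v ∈ univ.image (tv (K := K) i₀), ((v i : Fin (K + 1)) : ℕ) = (n - 1) * K := by
  classical
  rw [Finset.sum_image (fun a _ b _ h => tv_inj hK i₀ h)]
  rw [← Finset.add_sum_erase univ _ (mem_univ i)]
  rw [Finset.sum_congr rfl (g := fun _ => K)]
  · rw [Finset.sum_const, card_erase_of_mem (mem_univ _)]
    simp [tv]
  · intro x hx
    have : ¬ i = x := fun h => (ne_of_mem_erase hx) h.symm
    simp [tv, hi, this]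

theorem bv_sum {n K : ℕ} (hK : 1 ≤ K) (i₀ i : Fin n) (hi : i ≠ i₀) (S : Finset (Fin n)) :
    ∑ v ∈ S.image (bv (K := K) i₀), ((v i : Fin (K + 1)) : ℕ) = if i ∈ S then K else 0 := by
  classical
  rw [Finset.sum_image (fun a _ b _ h => bv_inj hK i₀ h)]
  rw [Finset.sum_congr rfl (g := fun r => if i = r then K else 0)]
  · rw [Finset.sum_ite_eq]
  · intro x hx
    by_cases h : i = x
    · simp [bv, h]
    · simp [bv, hi, h]

end Y2

open Y2 Finset in
theorem y_sets2 {n k t : ℕ} (hn : 3 ≤ n) (hk : 2 ≤ k) (ht : 1 ≤ t) (ht2 : t + 2 ≤ n)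
    (i₀ : Fin n) :
    ∃ A B : Finset (Fin n → Fin k), Disjoint A B ∧ (∀ v ∈ A, (v i₀ : ℕ) + 1 < k) ∧
      A.card + n = (k - 1) * k ^ (n - 1) ∧ B.card + t = n ∧
      ∀ i, i ≠ i₀ →
        2 * (∑ v ∈ A, (v i : ℕ) + ∑ v ∈ B, (v i : ℕ)) +
          ((Equiv.swap (⟨0, by omega⟩ : Fin n) i₀ i : Fin n) : ℕ) ≤
        (A.card + B.card) * (k - 1) := by
  classical
  obtain ⟨K, rfl⟩ : ∃ K, k = K + 1 := ⟨k - 1, by omega⟩
  have hK : 1 ≤ K := by omega
  set Δ := Equiv.swap (⟨0, by omega⟩ : Fin n) i₀ with hΔ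
  set T : Finset (Fin n → Fin (K + 1)) := univ.image (tv i₀) with hT
  set S : Finset (Fin n) := univ.filter (fun r => ((Δ r : Fin n) : ℕ) + t < n) with hS
  have hTsub : T ⊆ V0 K i₀ := by
    intro v hv
    rw [hT, mem_image] at hv
    obtain ⟨r, -, rfl⟩ := hv
    simp [V0, tv]
    omega
  have hTcard : T.card = n := by
    rw [hT, card_image_of_injective _ (tv_inj hK i₀)]
    simp
  have hScard : S.card + t = n := by
    have h1 : S.card = (univ.filter (fun r : Fin n => (r : ℕ) + t < n)).card := by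
      rw [hS]
      apply Finset.card_bij' (fun r _ => Δ r) (fun r _ => Δ.symm r)
      · intro r hr
        simpa using hr
      · intro r hr
        simpa using hr
      · intro r hr
        simp
      · intro r hr
        simp
    have h2 : (univ.filter (fun r : Fin n => (r : ℕ) + t < n)).card = n - t := by
      have h3 : (univ.filter (fun r : Fin n => (r : ℕ) + t < n)).map Fin.valEmbedding
          = Finset.range (n - t) := by
        ext x
        simp only [mem_map, mem_filter, mem_univ, true_and, Fin.valEmbedding_apply, mem_range]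
        constructor
        · rintro ⟨a, ha, rfl⟩
          omega
        · intro hx
          exact ⟨⟨x, by omega⟩, by simp; omega, rfl⟩
      rw [← Finset.card_map Fin.valEmbedding, h3, card_range]
    omega
  have hAcard : (V0 K i₀ \ T).card + n = K * (K + 1) ^ (n - 1) := by
    have h1 := Finset.card_sdiff_add_card_eq_card hTsub
    rw [V0_card, hTcard] at h1
    exact h1
  refine ⟨V0 K i₀ \ T, S.image (bv i₀), ?_, ?_, ?_, ?_, ?_⟩
  · rw [Finset.disjoint_left]
    intro v hv hv2
    rw [mem_sdiff] at hv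
    have h1 := hv.1
    rw [mem_image] at hv2
    obtain ⟨r, -, rfl⟩ := hv2
    simp [V0, bv] at h1
  · intro v hv
    rw [mem_sdiff] at hv
    have h1 := hv.1
    simpa [V0] using h1
  · simpa using hAcard
  · rw [card_image_of_injective _ (bv_inj hK i₀)]
    exact hScard
  · intro i hi
    have hBcard : (S.image (bv (K := K) i₀)).card + t = n := by
      rw [card_image_of_injective _ (bv_inj hK i₀)]
      exact hScard
    have h1 := bv_sum hK i₀ i hi S
    have h2 := tv_sum hK i₀ i hi
    have h3 := V0_sum (K := K) i₀ i hi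
    have h4 := Finset.sum_sdiff (f := fun v : Fin n → Fin (K + 1) => ((v i : Fin (K + 1)) : ℕ)) hTsub
    rw [← hT] at h2
    have h5 : (V0 K i₀).card = (V0 K i₀ \ T).card + n := by
      rw [hAcard, V0_card]
    have hd := (Δ i).2
    rw [h1]
    simp only [Nat.add_sub_cancel]
    rw [h2] at h4
    rw [h5] at h3
    generalize (V0 K i₀ \ T).card = a at *
    generalize (S.image (bv (K := K) i₀)).card = b at *
    generalize ∑ v ∈ V0 K i₀, ((v i : Fin (K + 1)) : ℕ) = x at *
    generalize ∑ v ∈ V0 K i₀ \ T, ((v i : Fin (K + 1)) : ℕ) = y at *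
    obtain ⟨n', rfl⟩ : ∃ n', n = n' + 3 := ⟨n - 3, by omega⟩
    by_cases hiS : i ∈ S
    · rw [if_pos hiS]
      have h6 : ((Δ i : Fin (n' + 3)) : ℕ) + t < n' + 3 := by
        rw [hS, mem_filter] at hiS
        exact hiS.2
      generalize ((Δ i : Fin (n' + 3)) : ℕ) = d at *
      have h7 : n' + 3 - 1 = n' + 2 := by omega
      rw [h7] at h4
      have h8 : b = n' + 3 - t := by omega
      obtain ⟨K', rfl⟩ : ∃ K', K = K' + 1 := ⟨K - 1, by omega⟩
      obtain ⟨e, he⟩ : ∃ e, n' + 2 = d + t + e := ⟨n' + 2 - (d + t), by omega⟩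
      have h9 : b = d + e + 1 := by omega
      subst h9
      have h10 : n' = d + t + e - 2 := by omega
      nlinarith [Nat.zero_le (d * K'), Nat.zero_le (e * K'), Nat.zero_le (t * K'),
        Nat.zero_le (n' * K')]
    · rw [if_neg hiS]
      generalize ((Δ i : Fin (n' + 3)) : ℕ) = d at *
      have h7 : n' + 3 - 1 = n' + 2 := by omega
      rw [h7] at h4
      obtain ⟨K', rfl⟩ : ∃ K', K = K' + 1 := ⟨K - 1, by omega⟩
      obtain ⟨e, he⟩ : ∃ e, n' + 1 = t + e := ⟨n' + 1 - t, by omega⟩
      have h9 : b = e + 2 := by omega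
      subst h9
      nlinarith [Nat.zero_le (e * K'), Nat.zero_le (t * K'), Nat.zero_le (n' * K')]

end Pool.Agent.RK
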