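import Pool.Agent.RK.Red
import Pool.Agent.RK.CN
import Pool.Agent.RK.Y2
import Pool.Agent.RK.Sdr

/-!
A row `i₀` with at least `k + 1` large colours (each in the lists of more than `N = k ^ (n-1)`
columns).

Let `a ∈ Λ` have the smallest `cnt L i₀ a`; `∑_{a} cnt L i₀ a = k m` (double counting), so
`(k+1) * cnt L i₀ a ≤ k m`.  `J₁ = {j : a ∈ L i₀ j}`, `J₂` its complement:
`(k+1) #J₂ = (k+1) m - (k+1) cnt ≥ m ≥ (k+1)(n-t)` (as `k ^ n - t ≥ (k+1)(n-t)` for `n ≥ 3`,
`k ≥ 2`, `1 ≤ t ≤ n - 2`), so `#J₂ ≥ n - t`.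
Choose `Q ⊆ J₁` with `#Q = N`, colour it by `choose_cols` (colour `a` in row `i₀`): `c`.
`R = Qᶜ` has `m - N = (k-1) N - t` elements.  New lists: `{c i j}` for `j ∈ Q`; for `j ∉ Q`:
`L i₀ j \ {a}` in row `i₀` (at least `k-1` elements, `k` for `j ∈ J₂`), `L i j` in the other rows.
`y_sets2` gives `A`, `B` with `#A + #B = #R`; `#(J₁ \ Q) ≤ #A` as `#J₂ ≥ n - t = #B`; so there is a
bijection of `R` with `A ∪ B` mapping `J₁ \ Q` into `A`; this is `Y`.  `Δ = swap 0 i₀`.
`cn_lemma` applies: row `i₀` has `Δ i₀ = 0`; in the others all lists on `R` have `k` elements.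
The columns in `Q` differ from those in `R` in row `i₀`.  Conclude by `mdist_of_sums`.
-/

namespace Pool.Agent.RK

open Finset

private lemma pow_bound {n k : ℕ} (hn : 3 ≤ n) (hk : 2 ≤ k) : k * (n - 1) + n ≤ k ^ n := by
  induction n, hn using Nat.le_induction with
  | base =>
    have h1 : k * (k * k) ≥ k * (2 * 2) := Nat.mul_le_mul_left _ (Nat.mul_le_mul hk hk)
    have h2 : k ^ 3 = k * (k * k) := by ring
    simp only [Nat.reduceSub]
    omega
  | succ n hn ih =>
    obtain ⟨r, rfl⟩ : ∃ r, n = r + 1 := ⟨n - 1, by omega⟩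
    simp only [Nat.add_sub_cancel] at ih ⊢
    have h1 : k * (k * r + (r + 1)) ≤ k * k ^ (r + 1) := Nat.mul_le_mul_left _ ih
    have h2 : (2 * 2) * r ≤ k * k * r := Nat.mul_le_mul_right _ (Nat.mul_le_mul hk hk)
    have h3 : k ^ (r + 1 + 1) = k * k ^ (r + 1) := by ring
    have h4 : k * (k * r + (r + 1)) = k * k * r + k * (r + 1) := by ring
    rw [h3]
    omega

private lemma exists_bij {ι β : Type*} [DecidableEq ι] [DecidableEq β] [Nonempty β]
    (X : Finset ι) (V : Finset β) (h : X.card = V.card) :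
    ∃ f : ι → β, (∀ j ∈ X, f j ∈ V) ∧ Set.InjOn f (X : Set ι) ∧ X.image f = V := by
  obtain ⟨f, hf, hinj⟩ := sdr X (fun _ => V) (fun _ _ => h.le)
  refine ⟨f, hf, hinj, ?_⟩
  apply eq_of_subset_of_card_le
  · intro b hb
    obtain ⟨j, hj, rfl⟩ := mem_image.1 hb
    exact hf j hj
  · rw [card_image_of_injOn hinj, h]

theorem heavy_case {n m k t : ℕ} (hn : 3 ≤ n) (hk : 2 ≤ k) (ht : 1 ≤ t) (ht2 : t + 2 ≤ n)
    (hm : t + m = k ^ n) (L : Fin n → Fin m → Finset ℕ) (hL : ∀ i j, (L i j).card = k)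
    (i₀ : Fin n) (Λ : Finset ℕ) (hΛ : k + 1 ≤ Λ.card)
    (hlarge : ∀ a ∈ Λ, k ^ (n - 1) < cnt L i₀ a) :
    ∃ c, Chooses L c ∧ MDist c := by
  classical
  -- the smallest large colour
  have hΛne : Λ.Nonempty := card_pos.1 (by omega)
  obtain ⟨a, haΛ, hamin⟩ := exists_min_image Λ (cnt L i₀) hΛne
  have hsum : ∑ b ∈ Λ, cnt L i₀ b ≤ k * m := by
    have h1 : ∑ b ∈ Λ, cnt L i₀ b = ∑ j : Fin m, (Λ.filter fun b => b ∈ L i₀ j).card := by
      simp only [cnt, card_filter]
      rw [sum_comm]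
    rw [h1]
    calc ∑ j : Fin m, (Λ.filter fun b => b ∈ L i₀ j).card ≤ ∑ _j : Fin m, k := by
          refine sum_le_sum fun j _ => ?_
          rw [← hL i₀ j]
          refine card_le_card fun b hb => (mem_filter.1 hb).2
      _ = k * m := by
          rw [sum_const, card_univ, Fintype.card_fin, smul_eq_mul, mul_comm]
  have hcnt : (k + 1) * cnt L i₀ a ≤ k * m := by
    refine le_trans ?_ hsum
    refine le_trans (Nat.mul_le_mul_right _ hΛ) ?_
    rw [← smul_eq_mul]
    exact card_nsmul_le_sum _ _ _ hamin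
  set N := k ^ (n - 1) with hN
  have hkn : k ^ n = k * N := by
    rw [hN, ← pow_succ']
    congr 1
    omega
  set J₁ := univ.filter fun j => a ∈ L i₀ j with hJ₁
  have hJ₁c : J₁.card = cnt L i₀ a := rfl
  have hlarge' := hlarge a haΛ
  have hJ₁m : J₁.card ≤ m := (card_le_univ _).trans (by simp)
  have hJ₂ : n - t ≤ m - J₁.card := by
    have h1 := pow_bound hn hk
    have h2 : (k + 1) * (n - t) ≤ m := by
      have h3 : (k + 1) * (n - t) + k * t + t = k * n + n := by
        obtain ⟨u, rfl⟩ : ∃ u, n = t + u := ⟨n - t, by omega⟩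
        rw [Nat.add_sub_cancel_left]
        ring
      have h4 : k * (n - 1) + k = k * n := by
        obtain ⟨u, rfl⟩ : ∃ u, n = u + 1 := ⟨n - 1, by omega⟩
        rw [Nat.add_sub_cancel]
        ring
      have h5 : k * 1 ≤ k * t := Nat.mul_le_mul_left _ ht
      omega
    have h6 : (k + 1) * (n - t) ≤ (k + 1) * (m - J₁.card) := by
      have h8 : (k + 1) * (m - J₁.card) = (k + 1) * m - (k + 1) * J₁.card := Nat.mul_sub _ _ _
      rw [h8, hJ₁c]
      have h7 : (k + 1) * m = k * m + m := by ring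
      omega
    exact Nat.le_of_mul_le_mul_left h6 (by omega)
  obtain ⟨Q, hQJ, hQc⟩ := exists_subset_card_eq (show N ≤ J₁.card by omega)
  obtain ⟨c, hc1, hc2, hc3⟩ := choose_cols L (fun i j => (hL i j).ge) Q i₀ a
    (fun j hj => (mem_filter.1 (hQJ hj)).2) hQc.le
  obtain ⟨A, B, hAB, hA, hAc, hBc, hY⟩ := y_sets2 (k := k) hn hk ht ht2 i₀
  rw [← hN] at hAc
  set R := Qᶜ with hR
  have hRc : R.card = m - N := by
    rw [hR, card_compl, Fintype.card_fin, hQc]
  have hkN : (k - 1) * N + N = k * N := by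
    obtain ⟨u, rfl⟩ : ∃ u, k = u + 1 := ⟨k - 1, by omega⟩
    rw [Nat.add_sub_cancel]
    ring
  have hABR : A.card + B.card = R.card := by omega
  -- the set `P`
  have hJ₂c : (J₁ᶜ).card = m - J₁.card := by rw [card_compl, Fintype.card_fin]
  obtain ⟨P, hPJ, hPc⟩ := exists_subset_card_eq (show B.card ≤ (J₁ᶜ).card by omega)
  have hPR : P ⊆ R := by
    intro j hj
    rw [hR, mem_compl]
    exact fun hjQ => (mem_compl.1 (hPJ hj)) (hQJ hjQ)
  have hRPc : (R \ P).card = A.card := by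
    rw [card_sdiff_of_subset hPR]
    omega
  have : Nonempty (Fin n → Fin k) := ⟨fun _ => ⟨0, by omega⟩⟩
  obtain ⟨fB, hfB, hfBinj, hfBim⟩ := exists_bij P B hPc
  obtain ⟨fA, hfA, hfAinj, hfAim⟩ := exists_bij (R \ P) A hRPc
  set Y : Fin m → Fin n → Fin k := fun j => if j ∈ P then fB j else fA j with hYdef
  have hYP : ∀ j ∈ P, Y j = fB j := fun j hj => if_pos hj
  have hYR : ∀ j ∈ R \ P, Y j = fA j := fun j hj => if_neg (mem_sdiff.1 hj).2
  have hYinj : Set.InjOn Y (R : Set (Fin m)) := by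
    intro j hj j' hj' heq
    by_cases h1 : j ∈ P <;> by_cases h2 : j' ∈ P
    · rw [hYP j h1, hYP j' h2] at heq
      exact hfBinj h1 h2 heq
    · have h3 : j' ∈ R \ P := mem_sdiff.2 ⟨hj', h2⟩
      rw [hYP j h1, hYR j' h3] at heq
      exact absurd (heq ▸ hfB j h1) (disjoint_left.1 hAB (hfA j' h3))
    · have h3 : j ∈ R \ P := mem_sdiff.2 ⟨hj, h1⟩
      rw [hYR j h3, hYP j' h2] at heq
      exact absurd (heq ▸ hfB j' h2) (disjoint_left.1 hAB (hfA j h3))
    · have h3 : j ∈ R \ P := mem_sdiff.2 ⟨hj, h1⟩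
      have h4 : j' ∈ R \ P := mem_sdiff.2 ⟨hj', h2⟩
      rw [hYR j h3, hYR j' h4] at heq
      exact hfAinj h3 h4 heq
  have hYsum : ∀ i, ∑ j ∈ R, (Y j i : ℕ) = ∑ v ∈ A, (v i : ℕ) + ∑ v ∈ B, (v i : ℕ) := by
    intro i
    rw [← sum_sdiff hPR]
    congr 1
    · rw [← hfAim, sum_image fun x hx y hy h => hfAinj hx hy h]
      exact sum_congr rfl fun j hj => by rw [hYR j hj]
    · rw [← hfBim, sum_image fun x hx y hy h => hfBinj hx hy h]
      exact sum_congr rfl fun j hj => by rw [hYP j hj]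
  -- the new lists
  set L' : Fin n → Fin m → Finset ℕ := fun i j =>
    if j ∈ Q then {c i j} else if i = i₀ then (L i j).erase a else L i j with hL'
  have hL'Q : ∀ i, ∀ j ∈ Q, L' i j = {c i j} := fun i j hj => if_pos hj
  have hL'0 : ∀ j ∉ Q, L' i₀ j = (L i₀ j).erase a := fun j hj => by
    simp only [hL', if_neg hj, if_true]
  have hL'1 : ∀ i, i ≠ i₀ → ∀ j ∉ Q, L' i j = L i j := fun i hi j hj => by
    simp only [hL', if_neg hj, if_neg hi]
  obtain ⟨c', hc'1, hc'2, hc'3⟩ := cn_lemma (C := Fin m) L' (by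
      intro i j
      by_cases hj : j ∈ Q
      · rw [hL'Q i j hj, card_singleton]
      · by_cases hi : i = i₀
        · subst hi
          rw [hL'0 j hj]
          have h1 := pred_card_le_card_erase (s := L i j) (a := a)
          rw [hL i j] at h1
          omega
        · rw [hL'1 i hi j hj, hL]
          omega) R (fun j i => (Y j i : ℕ)) (by
      intro j hj j' hj' heq
      apply hYinj hj hj'
      funext i
      exact Fin.ext (congrFun heq i)) (by
      intro j hj i
      have hjQ : j ∉ Q := mem_compl.1 hj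
      by_cases hi : i = i₀
      · subst hi
        rw [hL'0 j hjQ]
        by_cases hjJ : j ∈ J₁
        · have h1 : j ∈ R \ P := mem_sdiff.2 ⟨hj, fun h => (mem_compl.1 (hPJ h)) hjJ⟩
          have h2 := hA (Y j) (by rw [hYR j h1]; exact hfA j h1)
          have h3 := pred_card_le_card_erase (s := L i j) (a := a)
          rw [hL i j] at h3
          omega
        · have h1 : a ∉ L i j := fun h => hjJ (mem_filter.2 ⟨mem_univ _, h⟩)
          rw [erase_eq_of_notMem h1, hL]
          exact (Y j i).2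
      · rw [hL'1 i hi j hjQ, hL]
        exact (Y j i).2) (Equiv.swap (⟨0, by omega⟩ : Fin n) i₀) (by
      intro i
      by_cases hi : i = i₀
      · left
        rw [hi, Equiv.swap_apply_right]
      · right
        have h1 := hY i hi
        have h2 : ∑ j, ((L' i j).card - 1) = R.card * (k - 1) := by
          rw [← sum_add_sum_compl Q]
          have h3 : ∑ j ∈ Q, ((L' i j).card - 1) = 0 := by
            refine sum_eq_zero fun j hj => ?_
            rw [hL'Q i j hj, card_singleton, Nat.sub_self]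
          rw [h3, zero_add, ← smul_eq_mul, ← sum_const]
          refine sum_congr rfl fun j hj => ?_
          rw [hL'1 i hi j (mem_compl.1 hj), hL]
        rw [h2, hYsum i, ← hABR]
        exact h1)
  refine ⟨c', ?_, mdist_of_sums c' ?_ hc'3⟩
  · intro i j
    have h1 := hc'1 i j
    by_cases hj : j ∈ Q
    · rw [hL'Q i j hj, mem_singleton] at h1
      rw [h1]
      exact hc1 j hj i
    · by_cases hi : i = i₀
      · subst hi
        rw [hL'0 j hj] at h1
        exact mem_of_mem_erase h1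
      · rwa [hL'1 i hi j hj] at h1
  · have hQval : ∀ j ∈ Q, ∀ i, c' i j = c i j := by
      intro j hj i
      have h1 := hc'1 i j
      rwa [hL'Q i j hj, mem_singleton] at h1
    have hmix : ∀ j ∈ Q, ∀ j' ∉ Q, c' i₀ j ≠ c' i₀ j' := by
      intro j hj j' hj' heq
      have h1 := hc'1 i₀ j'
      rw [hL'0 j' hj', ← heq, hQval j hj, hc2 j hj] at h1
      exact absurd rfl (ne_of_mem_erase h1)
    intro j j' hne
    by_cases hj : j ∈ Q <;> by_cases hj' : j' ∈ Q
    · obtain ⟨i, hi⟩ := hc3 j hj j' hj' hne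
      exact ⟨i, by rwa [hQval j hj, hQval j' hj']⟩
    · exact ⟨i₀, hmix j hj j' hj'⟩
    · exact ⟨i₀, (hmix j' hj' j hj).symm⟩
    · exact hc'2 j (mem_compl.2 hj) j' (mem_compl.2 hj') hne

end Pool.Agent.RK
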