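import Mathlib

/-!
A hard-Lefschetz type injectivity lemma in `ℚ[X_v] / (X_v ^ ℓ v)`.

`InI ℓ f` says that `f` lies in the monomial ideal generated by the `X_v ^ (ℓ v)`: all
coefficients of monomials in the box `e v < ℓ v` vanish.  `T` is a set of variables (a row),
`s = ∑_{v ∈ T} X_v`, `M = ∑_{v ∈ T} (ℓ v - 1)`.

Lemma.  If every monomial of `f` has `T`-degree `y`, `s ^ Δ * f ∈ I` and `2 y + Δ ≤ M`, then
`f ∈ I`.

Proof.  Let `F f = ∑_{v ∈ T} ((ℓ v - 1) ∂_v f - X_v ∂_v² f)`, in coefficients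
`coeff e (F f) = ∑_{v ∈ T} (e v + 1) (ℓ v - 1 - e v) coeff (e + δ_v) f`.
(a) `F` preserves `I` (for `e` in the box: either `e + δ_v` is in the box, or
`ℓ v - 1 - e v = 0`).
(b) `F (s f) = s F f + M f - 2 E f`, `E f = ∑_{v ∈ T} X_v ∂_v f` (Leibniz), and `E f = y f` for
`f` of `T`-degree `y`; `F` lowers the `T`-degree by one (and `F f = 0` for `y = 0`).
(c) hence `F (s ^ j f) = s ^ j F f + j (M - 2 y - j + 1) s ^ (j-1) f`.
Induction on `y`.  Put `g = F f`.  If `y ≥ 1`: `s ^ Δ f ∈ I` gives `s ^ (Δ+1) f ∈ I`, so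
`F (s ^ (Δ+1) f) = s ^ (Δ+1) g + (Δ+1)(M - 2y - Δ) s ^ Δ f ∈ I`, so `s ^ (Δ+1) g ∈ I` and by
induction (`2 (y-1) + (Δ+1) ≤ M`) `g ∈ I`.  If `y = 0` then `g = 0`.  Now inner induction on `Δ`:
`F (s ^ Δ f) = s ^ Δ g + Δ (M - 2y - Δ + 1) s ^ (Δ-1) f ∈ I` and the coefficient is nonzero for
`Δ ≥ 1`, so `s ^ (Δ-1) f ∈ I`, and so on down to `f ∈ I`.
-/

namespace Pool.Agent.RK

open MvPolynomial

/-- Membership in the monomial ideal `(X_v ^ ℓ v)`. -/
def InI {τ : Type*} (ℓ : τ → ℕ) (f : MvPolynomial τ ℚ) : Prop :=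
  ∀ e : τ →₀ ℕ, (∀ v, e v < ℓ v) → coeff e f = 0

theorem InI.mul {τ : Type*} {ℓ : τ → ℕ} {f : MvPolynomial τ ℚ} (h : InI ℓ f)
    (g : MvPolynomial τ ℚ) : InI ℓ (g * f) := by
  classical
  intro e he
  rw [coeff_mul]
  apply Finset.sum_eq_zero
  intro x hx
  rw [Finset.HasAntidiagonal.mem_antidiagonal] at hx
  have : coeff x.2 f = 0 := by
    apply h
    intro v
    have h1 := he v
    have h2 : x.1 v + x.2 v = e v := by rw [← hx]; rfl
    omega
  rw [this, mul_zero]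

theorem InI.zero {τ : Type*} {ℓ : τ → ℕ} : InI ℓ (0 : MvPolynomial τ ℚ) := by
  intro e _
  simp

theorem InI.sub {τ : Type*} {ℓ : τ → ℕ} {f g : MvPolynomial τ ℚ} (h : InI ℓ f)
    (h' : InI ℓ g) : InI ℓ (f - g) := by
  intro e he
  rw [coeff_sub, h e he, h' e he, sub_zero]

theorem InI.of_C_mul {τ : Type*} {ℓ : τ → ℕ} {f : MvPolynomial τ ℚ} {a : ℚ} (ha : a ≠ 0)
    (h : InI ℓ (C a * f)) : InI ℓ f := by
  intro e he
  have := h e he
  rw [coeff_C_mul] at this
  exact (mul_eq_zero.1 this).resolve_left ha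

theorem coeff_pderiv' {τ : Type*} [DecidableEq τ] (v : τ) (f : MvPolynomial τ ℚ) (e : τ →₀ ℕ) :
    coeff e (pderiv v f) = ((e v : ℚ) + 1) * coeff (e + Finsupp.single v 1) f := by
  induction f using MvPolynomial.induction_on' with
  | monomial u a =>
    rw [pderiv_monomial, coeff_monomial, coeff_monomial]
    by_cases h : u = e + Finsupp.single v 1
    · rw [if_pos h, if_pos]
      · rw [h]; simp; ring
      · rw [h]; simp
    · rw [if_neg h, mul_zero]
      split_ifs with h2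
      · by_cases h3 : u v = 0
        · rw [h3]; simp
        · exfalso
          apply h
          rw [← h2]
          ext w
          by_cases hw : w = v
          · subst hw
            simp only [Finsupp.coe_add, Finsupp.coe_tsub, Pi.add_apply, Pi.sub_apply,
              Finsupp.single_eq_same]
            omega
          · simp [Finsupp.single_apply, Ne.symm hw]
      · rfl
  | add p q hp hq =>
    rw [map_add, coeff_add, coeff_add, hp, hq]; ring

theorem coeff_X_mul_pderiv {τ : Type*} [DecidableEq τ] (v : τ) (f : MvPolynomial τ ℚ)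
    (e : τ →₀ ℕ) : coeff e (X v * pderiv v f) = (e v : ℚ) * coeff e f := by
  rw [coeff_X_mul']
  split_ifs with h
  · rw [coeff_pderiv']
    have h1 : 1 ≤ e v := by
      rw [Finsupp.mem_support_iff] at h; omega
    have h2 : e - Finsupp.single v 1 + Finsupp.single v 1 = e := by
      ext w
      by_cases hw : w = v
      · subst hw
        simp only [Finsupp.coe_add, Finsupp.coe_tsub, Pi.add_apply, Pi.sub_apply,
          Finsupp.single_eq_same]
        omega
      · simp [Finsupp.single_apply, Ne.symm hw]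
    rw [h2]
    have h3 : (e - Finsupp.single v 1 : τ →₀ ℕ) v = e v - 1 := by simp
    rw [h3, Nat.cast_sub h1]
    push_cast
    ring
  · have : e v = 0 := by
      rwa [Finsupp.mem_support_iff, not_not] at h
    rw [this]; simp

/-- The lowering operator. -/
noncomputable def lowF {τ : Type*} (ℓ : τ → ℕ) (T : Finset τ) (f : MvPolynomial τ ℚ) :
    MvPolynomial τ ℚ :=
  ∑ v ∈ T, (C ((ℓ v - 1 : ℕ) : ℚ) * pderiv v f - X v * pderiv v (pderiv v f))

theorem coeff_lowF {τ : Type*} [DecidableEq τ] (ℓ : τ → ℕ) (T : Finset τ)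
    (f : MvPolynomial τ ℚ) (e : τ →₀ ℕ) :
    coeff e (lowF ℓ T f) = ∑ v ∈ T, (((ℓ v - 1 : ℕ) : ℚ) - e v) * ((e v : ℚ) + 1) *
      coeff (e + Finsupp.single v 1) f := by
  unfold lowF
  rw [coeff_sum]
  apply Finset.sum_congr rfl
  intro v _
  rw [coeff_sub, coeff_C_mul, coeff_X_mul_pderiv, coeff_pderiv']
  ring

theorem InI.lowF {τ : Type*} [DecidableEq τ] {ℓ : τ → ℕ} {T : Finset τ}
    {f : MvPolynomial τ ℚ} (h : InI ℓ f) : InI ℓ (lowF ℓ T f) := by
  intro e he
  rw [coeff_lowF]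
  apply Finset.sum_eq_zero
  intro v _
  by_cases hv : e v + 1 < ℓ v
  · have : coeff (e + Finsupp.single v 1) f = 0 := by
      apply h
      intro w
      by_cases hw : w = v
      · subst hw; simpa using hv
      · simpa [Finsupp.single_apply, Ne.symm hw] using he w
    rw [this, mul_zero]
  · have h1 := he v
    have : (((ℓ v - 1 : ℕ) : ℚ) - e v) = 0 := by
      have : ℓ v - 1 = e v := by omega
      rw [this, sub_self]
    rw [this]; ring

/-- `T`-homogeneous of degree `y`. -/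
def HomT {τ : Type*} (T : Finset τ) (y : ℕ) (f : MvPolynomial τ ℚ) : Prop :=
  ∀ e : τ →₀ ℕ, coeff e f ≠ 0 → ∑ v ∈ T, e v = y

theorem HomT.lowF {τ : Type*} [DecidableEq τ] {ℓ : τ → ℕ} {T : Finset τ} {y : ℕ}
    {f : MvPolynomial τ ℚ} (h : HomT T (y + 1) f) : HomT T y (lowF ℓ T f) := by
  intro e he
  rw [coeff_lowF] at he
  obtain ⟨v, hv, hne⟩ := Finset.exists_ne_zero_of_sum_ne_zero he
  have h1 : coeff (e + Finsupp.single v 1) f ≠ 0 := by
    intro h0; apply hne; rw [h0, mul_zero]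
  have h2 := h _ h1
  have h3 : ∑ w ∈ T, (e + Finsupp.single v 1 : τ →₀ ℕ) w = ∑ w ∈ T, e w + 1 := by
    simp only [Finsupp.coe_add, Pi.add_apply, Finset.sum_add_distrib]
    congr 1
    rw [Finset.sum_eq_single v]
    · simp
    · intro w _ hw; simp [Finsupp.single_apply, Ne.symm hw]
    · intro h; exact absurd hv h
  omega

theorem HomT.lowF_zero {τ : Type*} [DecidableEq τ] {ℓ : τ → ℕ} {T : Finset τ}
    {f : MvPolynomial τ ℚ} (h : HomT T 0 f) : Pool.Agent.RK.lowF ℓ T f = 0 := by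
  ext e
  rw [coeff_lowF, coeff_zero]
  apply Finset.sum_eq_zero
  intro v hv
  by_cases h1 : coeff (e + Finsupp.single v 1) f = 0
  · rw [h1, mul_zero]
  · exfalso
    have h2 := h _ h1
    have h3 := Finset.sum_eq_zero_iff.1 h2 v hv
    simp at h3

theorem HomT.sum_mul {τ : Type*} [DecidableEq τ] {T : Finset τ} {y : ℕ}
    {f : MvPolynomial τ ℚ} (h : HomT T y f) : HomT T (y + 1) ((∑ v ∈ T, X v) * f) := by
  intro e he
  rw [Finset.sum_mul, coeff_sum] at he
  obtain ⟨v, hv, hne⟩ := Finset.exists_ne_zero_of_sum_ne_zero he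
  rw [coeff_X_mul'] at hne
  split_ifs at hne with hs
  · have h2 := h _ hne
    have h1 : 1 ≤ e v := by
      rw [Finsupp.mem_support_iff] at hs; omega
    have h3 : ∑ w ∈ T, e w = ∑ w ∈ T, (e - Finsupp.single v 1 : τ →₀ ℕ) w + 1 := by
      rw [← Finset.add_sum_erase T _ hv, ← Finset.add_sum_erase T (fun w =>
        (e - Finsupp.single v 1 : τ →₀ ℕ) w) hv]
      have h4 : ∑ w ∈ T.erase v, (e - Finsupp.single v 1 : τ →₀ ℕ) w =
          ∑ w ∈ T.erase v, e w := by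
        apply Finset.sum_congr rfl
        intro w hw
        have hw' := Finset.ne_of_mem_erase hw
        simp [Finsupp.single_apply, Ne.symm hw']
      rw [h4]
      have h5 : (e - Finsupp.single v 1 : τ →₀ ℕ) v = e v - 1 := by simp
      simp only [h5]
      omega
    omega
  · exact absurd rfl hne

theorem HomT.sum_pow_mul {τ : Type*} [DecidableEq τ] {T : Finset τ} {y : ℕ}
    {f : MvPolynomial τ ℚ} (h : HomT T y f) (j : ℕ) :
    HomT T (y + j) ((∑ v ∈ T, X v) ^ j * f) := by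
  induction j with
  | zero => simpa using h
  | succ j ih =>
    have := ih.sum_mul
    rw [pow_succ', mul_assoc]
    exact this

theorem euler {τ : Type*} [DecidableEq τ] {T : Finset τ} {y : ℕ}
    {f : MvPolynomial τ ℚ} (h : HomT T y f) :
    ∑ v ∈ T, X v * pderiv v f = C (y : ℚ) * f := by
  ext e
  rw [coeff_sum, coeff_C_mul, Finset.sum_congr rfl (fun v _ => coeff_X_mul_pderiv v f e),
    ← Finset.sum_mul]
  by_cases h0 : coeff e f = 0
  · rw [h0, mul_zero, mul_zero]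
  · rw [← h e h0]; push_cast; rfl

theorem lowF_sum_mul {τ : Type*} [DecidableEq τ] (ℓ : τ → ℕ) {T : Finset τ} {y : ℕ}
    {f : MvPolynomial τ ℚ} (h : HomT T y f) :
    lowF ℓ T ((∑ v ∈ T, X v) * f) = (∑ v ∈ T, X v) * lowF ℓ T f +
      C (((∑ v ∈ T, (ℓ v - 1) : ℕ) : ℚ) - 2 * y) * f := by
  set s : MvPolynomial τ ℚ := ∑ v ∈ T, X v with hs
  have hds : ∀ v ∈ T, pderiv v s = 1 := by
    intro v hv
    rw [hs, map_sum, Finset.sum_eq_single v]
    · exact pderiv_X_self v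
    · intro w _ hw
      exact pderiv_X_of_ne hw
    · intro h; exact absurd hv h
  have h1 : ∀ v ∈ T, (C ((ℓ v - 1 : ℕ) : ℚ) * pderiv v (s * f) -
      X v * pderiv v (pderiv v (s * f))) =
      s * (C ((ℓ v - 1 : ℕ) : ℚ) * pderiv v f - X v * pderiv v (pderiv v f)) +
      (C ((ℓ v - 1 : ℕ) : ℚ) * f - 2 * (X v * pderiv v f)) := by
    intro v hv
    have e1 : pderiv v (s * f) = f + s * pderiv v f := by
      rw [pderiv_mul, hds v hv, one_mul]
    rw [e1, map_add, pderiv_mul, hds v hv]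
    ring
  unfold lowF
  rw [Finset.sum_congr rfl h1, Finset.sum_add_distrib, ← Finset.mul_sum]
  congr 1
  rw [Finset.sum_sub_distrib, ← Finset.mul_sum, ← Finset.sum_mul, euler h]
  rw [← map_sum C (fun v => ((ℓ v - 1 : ℕ) : ℚ)) T, ← Nat.cast_sum]
  simp only [map_sub, map_mul, map_ofNat]
  ring

theorem lowF_pow {τ : Type*} [DecidableEq τ] (ℓ : τ → ℕ) {T : Finset τ} {y : ℕ}
    {f : MvPolynomial τ ℚ} (h : HomT T y f) (j : ℕ) :
    lowF ℓ T ((∑ v ∈ T, X v) ^ (j + 1) * f) = (∑ v ∈ T, X v) ^ (j + 1) * lowF ℓ T f +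
      C (((j : ℚ) + 1) * (((∑ v ∈ T, (ℓ v - 1) : ℕ) : ℚ) - 2 * y - j)) *
        ((∑ v ∈ T, X v) ^ j * f) := by
  induction j with
  | zero =>
    rw [zero_add, pow_one, pow_zero, one_mul, lowF_sum_mul ℓ h]
    congr 3
    push_cast
    ring
  | succ j ih =>
    have hj := h.sum_pow_mul (j + 1)
    rw [pow_succ' _ (j + 1), mul_assoc, lowF_sum_mul ℓ hj, ih]
    have e1 : (C ((((j + 1 : ℕ) : ℚ) + 1) * (((∑ v ∈ T, (ℓ v - 1) : ℕ) : ℚ) - 2 * y -
        ((j + 1 : ℕ) : ℚ))) : MvPolynomial τ ℚ) =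
        C (((j : ℚ) + 1) * (((∑ v ∈ T, (ℓ v - 1) : ℕ) : ℚ) - 2 * y - j)) +
        C (((∑ v ∈ T, (ℓ v - 1) : ℕ) : ℚ) - 2 * ((y + (j + 1) : ℕ) : ℚ)) := by
      rw [← map_add]
      congr 1
      push_cast
      ring
    rw [e1]
    ring

theorem lef {τ : Type*} [DecidableEq τ] (ℓ : τ → ℕ) (T : Finset τ) (hℓ : ∀ v ∈ T, 1 ≤ ℓ v)
    (y Δ : ℕ) (f : MvPolynomial τ ℚ)
    (hy : ∀ e : τ →₀ ℕ, coeff e f ≠ 0 → ∑ v ∈ T, e v = y)
    (hle : 2 * y + Δ ≤ ∑ v ∈ T, (ℓ v - 1))
    (h : InI ℓ ((∑ v ∈ T, X v) ^ Δ * f)) : InI ℓ f := by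
  -- inner induction
  have inner : ∀ (y : ℕ) (f : MvPolynomial τ ℚ), HomT T y f → InI ℓ (lowF ℓ T f) →
      ∀ Δ : ℕ, 2 * y + Δ ≤ ∑ v ∈ T, (ℓ v - 1) →
      InI ℓ ((∑ v ∈ T, X v) ^ Δ * f) → InI ℓ f := by
    intro y f hf hg Δ
    induction Δ with
    | zero => intro _ h; simpa using h
    | succ d ih =>
      intro hle h
      apply ih (by omega)
      have h1 := h.lowF (T := T)
      rw [lowF_pow ℓ hf d] at h1
      have h2 := hg.mul ((∑ v ∈ T, X v) ^ (d + 1))
      have h3 := h1.sub h2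
      rw [add_sub_cancel_left] at h3
      refine InI.of_C_mul ?_ h3
      apply mul_ne_zero
      · positivity
      · have : ((2 * y + (d + 1) : ℕ) : ℚ) ≤ ((∑ v ∈ T, (ℓ v - 1) : ℕ) : ℚ) := by
          exact_mod_cast hle
        push_cast at this ⊢
        intro h0
        linarith
  -- outer induction
  have outer : ∀ (y : ℕ) (Δ : ℕ) (f : MvPolynomial τ ℚ), HomT T y f →
      2 * y + Δ ≤ ∑ v ∈ T, (ℓ v - 1) →
      InI ℓ ((∑ v ∈ T, X v) ^ Δ * f) → InI ℓ f := by
    intro y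
    induction y with
    | zero =>
      intro Δ f hf hle h
      apply inner 0 f hf _ Δ hle h
      rw [hf.lowF_zero]
      exact InI.zero
    | succ y ih =>
      intro Δ f hf hle h
      apply inner (y + 1) f hf _ Δ hle h
      apply ih (Δ + 1) _ hf.lowF (by omega)
      have h1 : InI ℓ ((∑ v ∈ T, X v) ^ (Δ + 1) * f) := by
        rw [pow_succ', mul_assoc]
        exact h.mul _
      have h2 := h1.lowF (T := T)
      rw [lowF_pow ℓ hf Δ] at h2
      have h3 := h.mul (C (((Δ : ℚ) + 1) * (((∑ v ∈ T, (ℓ v - 1) : ℕ) : ℚ) -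
        2 * ((y + 1 : ℕ) : ℚ) - Δ)))
      have h4 := h2.sub h3
      rwa [add_sub_cancel_right] at h4
  exact outer y Δ f hy hle h

end Pool.Agent.RK
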