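import Pool.Agent.RK.Sdr

/-!
One row: `rook 1 m` is a complete graph.  A distinguishing colouring is injective (otherwise
exchange two vertices of the same colour), so `m ≤ k`; `sdr` gives an injective list colouring.
-/

namespace Pool.Agent.RK

theorem one_row {m k : ℕ} (h : HasDist (rook 1 m) k) : HasListDist (rook 1 m) k := by
  classical
  obtain ⟨c, hc⟩ := h
  -- adjacency in `rook 1 m` is inequality
  have hadj : ∀ x y : Fin 1 × Fin m, (rook 1 m).Adj x y ↔ x ≠ y := by
    rintro ⟨i, a⟩ ⟨j, b⟩
    have hij : i = j := Subsingleton.elim _ _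
    subst hij
    simp [SimpleGraph.boxProd_adj, Prod.ext_iff]
  -- the colouring is injective
  have hinj : Function.Injective c := by
    intro x y hxy
    by_contra hne
    let φ : (rook 1 m) ≃g (rook 1 m) :=
      ⟨Equiv.swap x y, by
        intro a b
        rw [hadj, hadj]
        exact (Equiv.swap x y).injective.ne_iff⟩
    have h1 : φ x = x := by
      apply hc φ
      intro z
      change c (Equiv.swap x y z) = c z
      by_cases hzx : z = x
      · subst hzx; rw [Equiv.swap_apply_left]; exact hxy.symm
      · by_cases hzy : z = y
        · subst hzy; rw [Equiv.swap_apply_right]; exact hxy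
        · rw [Equiv.swap_apply_of_ne_of_ne hzx hzy]
    have h2 : φ x = y := Equiv.swap_apply_left x y
    exact hne (h1.symm.trans h2)
  have hcard : Fintype.card (Fin 1 × Fin m) ≤ k := by
    have := Fintype.card_le_of_injective c hinj
    simpa using this
  intro L hL
  obtain ⟨f, hf, hfi⟩ := sdr (Finset.univ : Finset (Fin 1 × Fin m)) L
    (fun i _ => by rw [hL i, Finset.card_univ]; exact hcard)
  refine ⟨f, fun x => hf x (Finset.mem_univ _), ?_⟩
  intro φ hφ x
  exact hfi (by simp) (by simp) (hφ x)

end Pool.Agent.RK
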