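import Pool.Agent.RK.Red

/-!
The `4 × 4` square with lists of two colours.

Combinatorial Nullstellensatz with `Φ = P V G` in 16 variables,
`P = det (rows (1,1,1,1), X (0,·), X (1,·), X (2,·))`, `V = ∏_{i<i'} (s_i' - s_i)`,
`G = ∑ s_i ^ 2 - ∑ s'_j ^ 2`, total degree `3 + 6 + 2 = 11`.  The monomial
`E = {(0,1),(0,3), (1,0),(1,2),(1,3), (2,0),(2,1),(2,3), (3,0),(3,1),(3,2)}` (squarefree, 11
variables) has coefficient `48`, computed as an iterated difference
`∑_{A ⊆ E} (-1) ^ (|E| - |A|) Φ(1_A)`.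
-/

namespace Pool.Agent.RK

namespace Sq4

open MvPolynomial


variable {σ : Type} [Fintype σ] [DecidableEq σ]

def dif (g : ℤ → ℤ) : ℤ := g 1 - g 0

def iter : List σ → ((σ → ℤ) → ℤ) → (σ → ℤ) → ℤ
  | [], F, c => F c
  | v :: vs, F, c => dif fun x => iter vs F (Function.update c v x)

theorem iter_sum {ι : Type} (s : Finset ι) (a : ι → ℤ) (F : ι → (σ → ℤ) → ℤ) (vs : List σ) :
    ∀ c, iter vs (fun c => ∑ m ∈ s, a m * F m c) c = ∑ m ∈ s, a m * iter vs (F m) c := by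
  induction vs with
  | nil => intro c; rfl
  | cons v vs ih =>
    intro c
    simp only [iter, dif, ih, mul_sub, Finset.sum_sub_distrib]

theorem iter_mono (m : σ →₀ ℕ) (vs : List σ) : vs.Nodup → ∀ c,
    iter vs (fun c => ∏ u, c u ^ m u) c =
      (∏ u ∈ Finset.univ.filter (fun u => u ∉ vs), c u ^ m u) *
        (if ∀ v ∈ vs, m v ≠ 0 then 1 else 0) := by
  induction vs with
  | nil => intro _ c; simp [iter]
  | cons v vs ih =>
    intro hn c
    obtain ⟨hv, hn'⟩ := List.nodup_cons.mp hn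
    have key : ∀ x : ℤ, (∏ u ∈ Finset.univ.filter (fun u => u ∉ vs),
        Function.update c v x u ^ m u) =
        x ^ m v * ∏ u ∈ Finset.univ.filter (fun u => u ∉ v :: vs), c u ^ m u := by
      intro x
      have hmem : v ∈ Finset.univ.filter (fun u => u ∉ vs) := by simp [hv]
      rw [← Finset.mul_prod_erase _ _ hmem]
      simp only [Function.update_self]
      congr 1
      apply Finset.prod_congr
      · ext u
        simp only [Finset.mem_erase, Finset.mem_filter, Finset.mem_univ, true_and,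
          List.mem_cons, not_or]
      · intro u hu
        have : u ≠ v := by
          simp only [Finset.mem_filter, Finset.mem_univ, true_and, List.mem_cons, not_or] at hu
          exact hu.1
        rw [Function.update_of_ne this]
    simp only [iter, dif, ih hn', key]
    by_cases h : m v = 0
    · have : ¬ ∀ w ∈ v :: vs, m w ≠ 0 := by
        intro h'; exact h' v (by simp) h
      simp [h, this]
    · have h2 : (∀ w ∈ v :: vs, m w ≠ 0) ↔ ∀ w ∈ vs, m w ≠ 0 := by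
        simp [h]
      simp only [h2, zero_pow h, one_pow]
      ring

/-- indicator of a list -/
noncomputable def ind (vs : List σ) : σ →₀ ℕ :=
  Finsupp.equivFunOnFinite.symm (fun u => if u ∈ vs then 1 else 0)

theorem ind_apply (vs : List σ) (u : σ) : ind vs u = if u ∈ vs then 1 else 0 := rfl

theorem ind_degree (vs : List σ) (hn : vs.Nodup) : (ind vs).degree = vs.length := by
  rw [Finsupp.degree_eq_sum]
  simp only [ind_apply]
  rw [Finset.sum_ite, Finset.sum_const_zero, add_zero, Finset.sum_const, smul_eq_mul, mul_one]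
  have : Finset.univ.filter (fun u => u ∈ vs) = vs.toFinset := by ext; simp
  rw [this, List.toFinset_card_of_nodup hn]

theorem iter_eval (f : MvPolynomial σ ℤ) (vs : List σ) (hn : vs.Nodup)
    (hf : f.totalDegree ≤ vs.length) :
    iter vs (fun c => eval c f) 0 = f.coeff (ind vs) := by
  have h1 : (fun c : σ → ℤ => eval c f) =
      fun c => ∑ m ∈ f.support, f.coeff m * ∏ u, c u ^ m u := by
    funext c
    rw [eval_eq']
  rw [h1, iter_sum (a := fun m => f.coeff m) (F := fun m c => ∏ u, c u ^ m u)]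
  have h2 : ∀ m ∈ f.support, f.coeff m * iter vs (fun c => ∏ u, c u ^ m u) 0 =
      if m = ind vs then f.coeff (ind vs) else 0 := by
    intro m hm
    rw [iter_mono m vs hn]
    by_cases hmi : m = ind vs
    · rw [if_pos hmi, hmi]
      have e1 : (∏ u ∈ Finset.univ.filter (fun u => u ∉ vs), (0 : σ → ℤ) u ^ (ind vs) u) = 1 := by
        apply Finset.prod_eq_one
        intro u hu
        simp only [Finset.mem_filter, Finset.mem_univ, true_and] at hu
        simp [ind_apply, hu]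
      rw [e1, if_pos]
      · ring
      · intro v hv; simp [ind_apply, hv]
    · rw [if_neg hmi]
      by_cases ha : ∀ v ∈ vs, m v ≠ 0
      · -- some u ∉ vs with m u ≠ 0
        have : ∃ u, u ∉ vs ∧ m u ≠ 0 := by
          by_contra hc
          push Not at hc
          apply hmi
          have hdeg : ∑ u, m u ≤ vs.length := by
            refine le_trans ?_ hf
            refine le_trans (le_of_eq ?_) (le_totalDegree hm)
            rw [Finsupp.sum_fintype]
            intro _; rfl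
          have h3 : ∑ u, m u = ∑ u ∈ vs.toFinset, m u := by
            symm
            apply Finset.sum_subset (Finset.subset_univ _)
            intro u _ hu
            exact hc u (by simpa using hu)
          have h4 : ∑ u ∈ vs.toFinset, m u = ∑ u ∈ vs.toFinset, 1 := by
            apply le_antisymm
            · rw [← h3]
              simpa [List.toFinset_card_of_nodup hn] using hdeg
            · apply Finset.sum_le_sum
              intro u hu
              exact Nat.one_le_iff_ne_zero.mpr (ha u (by simpa using hu))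
          have h5 := (Finset.sum_eq_sum_iff_of_le (s := vs.toFinset) (f := fun _ => 1)
            (g := fun u => m u) (fun u hu => Nat.one_le_iff_ne_zero.mpr
              (ha u (by simpa using hu)))).mp h4.symm
          ext u
          rw [ind_apply]
          split_ifs with hu
          · exact (h5 u (by simpa using hu)).symm
          · exact hc u hu
        obtain ⟨u, hu, hmu⟩ := this
        have : (∏ u ∈ Finset.univ.filter (fun u => u ∉ vs), (0 : σ → ℤ) u ^ m u) = 0 := by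
          apply Finset.prod_eq_zero (i := u)
          · simp [hu]
          · simp [hmu]
        rw [this]; ring
      · rw [if_neg ha]; ring
  rw [Finset.sum_congr rfl h2]
  rw [Finset.sum_ite_eq']
  split_ifs with h
  · rfl
  · exact (notMem_support_iff.mp h).symm


theorem exists_ne (f : MvPolynomial σ ℤ) (vs : List σ) (hn : vs.Nodup)
    (hf : f.totalDegree ≤ vs.length) (h : iter vs (fun c => eval c f) 0 ≠ 0)
    (S : σ → Finset ℤ) (hS : ∀ v, 2 ≤ (S v).card) :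
    ∃ s : σ → ℤ, (∀ v, s v ∈ S v) ∧ eval s f ≠ 0 := by
  rw [iter_eval f vs hn hf] at h
  apply combinatorial_nullstellensatz_exists_eval_nonzero f (ind vs) h
  · apply le_antisymm
    · rw [ind_degree vs hn]; exact hf
    · have := le_totalDegree (mem_support_iff.mpr h)
      rwa [Finsupp.degree_eq_sum, ← Finsupp.sum_fintype (ind vs) (fun _ e => e) (fun _ => rfl)]
  · intro v
    rw [ind_apply]
    have := hS v
    split_ifs <;> omega


def det3 (a b c d e f g h i : ℤ) : ℤ := a * (e * i - f * h) - b * (d * i - f * g) + c * (d * h - e * g)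

/-- det of rows (1,1,1,1), (a_j), (b_j), (c_j) -/
def Pf (a0 a1 a2 a3 b0 b1 b2 b3 c0 c1 c2 c3 : ℤ) : ℤ :=
  det3 a1 a2 a3 b1 b2 b3 c1 c2 c3 - det3 a0 a2 a3 b0 b2 b3 c0 c2 c3
    + det3 a0 a1 a3 b0 b1 b3 c0 c1 c3 - det3 a0 a1 a2 b0 b1 b2 c0 c1 c2

def Vf (s0 s1 s2 s3 : ℤ) : ℤ :=
  (s1 - s0) * (s2 - s0) * (s3 - s0) * (s2 - s1) * (s3 - s1) * (s3 - s2)

def Fn (a0 a1 a2 a3 b0 b1 b2 b3 c0 c1 c2 c3 d0 d1 d2 d3 : ℤ) : ℤ :=
  Pf a0 a1 a2 a3 b0 b1 b2 b3 c0 c1 c2 c3 *
    Vf (a0 + a1 + a2 + a3) (b0 + b1 + b2 + b3) (c0 + c1 + c2 + c3) (d0 + d1 + d2 + d3) *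
    ((a0 + a1 + a2 + a3) ^ 2 + (b0 + b1 + b2 + b3) ^ 2 + (c0 + c1 + c2 + c3) ^ 2
        + (d0 + d1 + d2 + d3) ^ 2
     - ((a0 + b0 + c0 + d0) ^ 2 + (a1 + b1 + c1 + d1) ^ 2 + (a2 + b2 + c2 + d2) ^ 2
        + (a3 + b3 + c3 + d3) ^ 2))

theorem Pf_zero (a b c : Fin 4 → ℤ) (j j' : Fin 4) (h : j ≠ j') (ha : a j = a j')
    (hb : b j = b j') (hc : c j = c j') :
    Pf (a 0) (a 1) (a 2) (a 3) (b 0) (b 1) (b 2) (b 3) (c 0) (c 1) (c 2) (c 3) = 0 := by
  have key : ∀ j j' : Fin 4, j < j' → a j = a j' → b j = b j' → c j = c j' →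
      Pf (a 0) (a 1) (a 2) (a 3) (b 0) (b 1) (b 2) (b 3) (c 0) (c 1) (c 2) (c 3) = 0 := by
    intro j j' h ha hb hc
    fin_cases j <;> fin_cases j' <;> first
      | exact absurd h (by decide)
      | (simp at ha hb hc; rw [Pf, det3, det3, det3, det3, ha, hb, hc]; ring)
  rcases lt_or_gt_of_ne h with h | h
  · exact key j j' h ha hb hc
  · exact key j' j h ha.symm hb.symm hc.symm

theorem Vf_zero (s : Fin 4 → ℤ) (i i' : Fin 4) (h : i ≠ i') (hs : s i = s i') :
    Vf (s 0) (s 1) (s 2) (s 3) = 0 := by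
  have key : ∀ i i' : Fin 4, i < i' → s i = s i' → Vf (s 0) (s 1) (s 2) (s 3) = 0 := by
    intro i i' h hs
    fin_cases i <;> fin_cases i' <;> first
      | exact absurd h (by decide)
      | (simp at hs; rw [Vf, hs]; ring)
  rcases lt_or_gt_of_ne h with h | h
  · exact key i i' h hs
  · exact key i' i h hs.symm

theorem val : (dif fun x01 => dif fun x03 => dif fun x10 => dif fun x12 => dif fun x13 =>
  dif fun x20 => dif fun x21 => dif fun x23 => dif fun x30 => dif fun x31 => dif fun x32 =>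
   Fn 0 x01 0 x03 x10 0 x12 x13 x20 x21 0 x23 x30 x31 x32 0) ≠ 0 := by
  decide +kernel

def Fc (c : Fin 4 × Fin 4 → ℤ) : ℤ :=
  Fn (c (0,0)) (c (0,1)) (c (0,2)) (c (0,3)) (c (1,0)) (c (1,1)) (c (1,2)) (c (1,3))
    (c (2,0)) (c (2,1)) (c (2,2)) (c (2,3)) (c (3,0)) (c (3,1)) (c (3,2)) (c (3,3))

def vs : List (Fin 4 × Fin 4) :=
  [(0,1),(0,3),(1,0),(1,2),(1,3),(2,0),(2,1),(2,3),(3,0),(3,1),(3,2)]

theorem iter_vs : iter vs Fc 0 ≠ 0 := by
  have h : iter vs Fc 0 = (dif fun x01 => dif fun x03 => dif fun x10 => dif fun x12 =>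
      dif fun x13 => dif fun x20 => dif fun x21 => dif fun x23 => dif fun x30 => dif fun x31 =>
      dif fun x32 => Fn 0 x01 0 x03 x10 0 x12 x13 x20 x21 0 x23 x30 x31 x32 0) := by
    simp only [vs, iter]
    rfl
  rw [h]
  exact val

noncomputable section

abbrev x (i j : Fin 4) : MvPolynomial (Fin 4 × Fin 4) ℤ := X (i, j)

def dt (i1 j1 i2 j2 i3 j3 : Fin 4) : MvPolynomial (Fin 4 × Fin 4) ℤ :=
  x i1 j1 * (x i2 j2 * x i3 j3)

/-- the `3 × 3` determinant of the rows `0,1,2` and the columns `j1,j2,j3` -/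
def D (j1 j2 j3 : Fin 4) : MvPolynomial (Fin 4 × Fin 4) ℤ :=
  x 0 j1 * (x 1 j2 * x 2 j3 - x 1 j3 * x 2 j2) - x 0 j2 * (x 1 j1 * x 2 j3 - x 1 j3 * x 2 j1)
    + x 0 j3 * (x 1 j1 * x 2 j2 - x 1 j2 * x 2 j1)

def rs (i : Fin 4) : MvPolynomial (Fin 4 × Fin 4) ℤ := x i 0 + x i 1 + x i 2 + x i 3

def cs (j : Fin 4) : MvPolynomial (Fin 4 × Fin 4) ℤ := x 0 j + x 1 j + x 2 j + x 3 j

def P : MvPolynomial (Fin 4 × Fin 4) ℤ := D 1 2 3 - D 0 2 3 + D 0 1 3 - D 0 1 2

def V : MvPolynomial (Fin 4 × Fin 4) ℤ :=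
  (rs 1 - rs 0) * (rs 2 - rs 0) * (rs 3 - rs 0) * (rs 2 - rs 1) * (rs 3 - rs 1) * (rs 3 - rs 2)

def G : MvPolynomial (Fin 4 × Fin 4) ℤ :=
  rs 0 ^ 2 + rs 1 ^ 2 + rs 2 ^ 2 + rs 3 ^ 2 - (cs 0 ^ 2 + cs 1 ^ 2 + cs 2 ^ 2 + cs 3 ^ 2)

def Φ : MvPolynomial (Fin 4 × Fin 4) ℤ := P * V * G

theorem eval_Φ (c : Fin 4 × Fin 4 → ℤ) : eval c Φ = Fc c := by
  simp only [Φ, P, V, G, D, rs, cs, x, Fc, Fn, Pf, Vf, det3, map_mul, map_sub, map_add, map_pow,
    eval_X]

theorem hX (i j : Fin 4) : (x i j).totalDegree ≤ 1 := by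
  simp [x, totalDegree_X]

theorem td_add {f g : MvPolynomial (Fin 4 × Fin 4) ℤ} {a : ℕ} (hf : f.totalDegree ≤ a)
    (hg : g.totalDegree ≤ a) : (f + g).totalDegree ≤ a :=
  (totalDegree_add f g).trans (max_le hf hg)

theorem td_sub {f g : MvPolynomial (Fin 4 × Fin 4) ℤ} {a : ℕ} (hf : f.totalDegree ≤ a)
    (hg : g.totalDegree ≤ a) : (f - g).totalDegree ≤ a :=
  (totalDegree_sub f g).trans (max_le hf hg)

theorem td_mul {f g : MvPolynomial (Fin 4 × Fin 4) ℤ} {a b : ℕ} (hf : f.totalDegree ≤ a)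
    (hg : g.totalDegree ≤ b) : (f * g).totalDegree ≤ a + b :=
  (totalDegree_mul f g).trans (add_le_add hf hg)

theorem td_pow {f : MvPolynomial (Fin 4 × Fin 4) ℤ} (hf : f.totalDegree ≤ 1) :
    (f ^ 2).totalDegree ≤ 2 := by
  rw [pow_two]; exact td_mul hf hf

theorem hD (a b c : Fin 4) : (D a b c).totalDegree ≤ 3 := by
  have h2 : ∀ i j i' j', (x i j * x i' j').totalDegree ≤ 2 := fun i j i' j' =>
    td_mul (hX i j) (hX i' j')
  have h3 : ∀ i j i' j' k l k' l', (x i j * x i' j' - x k l * x k' l').totalDegree ≤ 2 :=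
    fun i j i' j' k l k' l' => td_sub (h2 _ _ _ _) (h2 _ _ _ _)
  exact td_add (td_sub (td_mul (hX _ _) (h3 _ _ _ _ _ _ _ _))
    (td_mul (hX _ _) (h3 _ _ _ _ _ _ _ _))) (td_mul (hX _ _) (h3 _ _ _ _ _ _ _ _))

theorem hrs (i : Fin 4) : (rs i).totalDegree ≤ 1 :=
  td_add (td_add (td_add (hX _ _) (hX _ _)) (hX _ _)) (hX _ _)

theorem hcs (i : Fin 4) : (cs i).totalDegree ≤ 1 :=
  td_add (td_add (td_add (hX _ _) (hX _ _)) (hX _ _)) (hX _ _)

theorem hP : P.totalDegree ≤ 3 :=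
  td_sub (td_add (td_sub (hD _ _ _) (hD _ _ _)) (hD _ _ _)) (hD _ _ _)

theorem hV : V.totalDegree ≤ 6 := by
  have h : ∀ i j, (rs i - rs j).totalDegree ≤ 1 := fun i j => td_sub (hrs i) (hrs j)
  exact td_mul (td_mul (td_mul (td_mul (td_mul (h _ _) (h _ _)) (h _ _)) (h _ _)) (h _ _)) (h _ _)

theorem hG : G.totalDegree ≤ 2 :=
  td_sub (td_add (td_add (td_add (td_pow (hrs _)) (td_pow (hrs _))) (td_pow (hrs _)))
    (td_pow (hrs _)))
    (td_add (td_add (td_add (td_pow (hcs _)) (td_pow (hcs _))) (td_pow (hcs _)))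
    (td_pow (hcs _)))

theorem hΦ : Φ.totalDegree ≤ vs.length :=
  (td_mul (td_mul hP hV) hG : Φ.totalDegree ≤ 3 + 6 + 2)

end

theorem main (S : Fin 4 × Fin 4 → Finset ℤ) (hS : ∀ v, 2 ≤ (S v).card) :
    ∃ s : Fin 4 × Fin 4 → ℤ, (∀ v, s v ∈ S v) ∧ Fc s ≠ 0 := by
  obtain ⟨s, hs, h⟩ := exists_ne Φ vs (by decide) hΦ
    (by
      have : (fun c => eval c Φ) = Fc := by funext c; exact eval_Φ c
      rw [this]; exact iter_vs) S hS
  exact ⟨s, hs, by rwa [eval_Φ] at h⟩

end Sq4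

open Sq4 in
theorem square_four (L : Fin 4 → Fin 4 → Finset ℕ) (hL : ∀ i j, 2 ≤ (L i j).card) :
    ∃ c, Chooses L c ∧ MDist c ∧ NoSwap c := by
  obtain ⟨s, hs, hF⟩ := Sq4.main (fun v => (L v.1 v.2).map Nat.castEmbedding) (by
    intro v; rw [Finset.card_map]; exact hL _ _)
  have hex : ∀ i j, ∃ a : ℕ, a ∈ L i j ∧ (a : ℤ) = s (i, j) := by
    intro i j
    have := hs (i, j)
    simpa using this
  choose c hc1 hc2 using hex
  have hF2 : Fn (c 0 0) (c 0 1) (c 0 2) (c 0 3) (c 1 0) (c 1 1) (c 1 2) (c 1 3)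
      (c 2 0) (c 2 1) (c 2 2) (c 2 3) (c 3 0) (c 3 1) (c 3 2) (c 3 3) ≠ 0 := by
    simp only [Fc, ← hc2] at hF
    exact hF
  have hP : Pf (c 0 0) (c 0 1) (c 0 2) (c 0 3) (c 1 0) (c 1 1) (c 1 2) (c 1 3)
      (c 2 0) (c 2 1) (c 2 2) (c 2 3) ≠ 0 := by
    intro h; apply hF2; rw [Fn, h, zero_mul, zero_mul]
  have hV : Vf (c 0 0 + c 0 1 + c 0 2 + c 0 3) (c 1 0 + c 1 1 + c 1 2 + c 1 3)
      (c 2 0 + c 2 1 + c 2 2 + c 2 3) (c 3 0 + c 3 1 + c 3 2 + c 3 3) ≠ 0 := by
    intro h; apply hF2; rw [Fn, h, mul_zero, zero_mul]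
  refine ⟨c, hc1, mdist_of_sums c ?_ ?_, noswap_of_sq c ?_⟩
  · intro j j' hjj
    by_contra hcon
    push Not at hcon
    have key : ∀ i, (c i j : ℤ) = c i j' := fun i => by exact_mod_cast hcon i
    exact hP (Pf_zero (fun j => c 0 j) (fun j => c 1 j) (fun j => c 2 j) j j' hjj (key 0) (key 1)
      (key 2))
  · intro i i' h
    by_contra hii
    have h' : ((∑ j, c i j : ℕ) : ℤ) = ((∑ j, c i' j : ℕ) : ℤ) := by exact_mod_cast h
    simp only [Fin.sum_univ_four, Nat.cast_add] at h'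
    exact hV (Vf_zero (fun i => c i 0 + c i 1 + c i 2 + c i 3) i i' hii h')
  · intro h
    apply hF2
    have h' : (((∑ i : Fin 4, (∑ j : Fin 4, c i j) ^ 2 : ℕ)) : ℤ) =
      ((∑ j : Fin 4, (∑ i : Fin 4, c i j) ^ 2 : ℕ) : ℤ) := by exact_mod_cast h
    simp only [Fin.sum_univ_four, Nat.cast_add, Nat.cast_pow] at h'
    rw [Fn, h', sub_self, mul_zero]

end Pool.Agent.RK
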