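import Pool.Agent.RK.Defs

/-!
There is no distinguishing 2-colouring for `n = 2, 3` (finite check: 16 and 512 matrices), and
none with fewer than two colours for `n ≥ 2`.
-/

namespace Pool.Agent.RK

/-- A permutation of `Fin n` given by two tables. -/
private def sqnoMk {n : ℕ} (f g : Fin n → Fin n) (h : ∀ i, g (f i) = i) (h' : ∀ i, f (g i) = i) :
    Equiv.Perm (Fin n) := ⟨f, g, h, h'⟩

private def sqnoP2 : List (Equiv.Perm (Fin 2)) :=
  [sqnoMk ![0, 1] ![0, 1] (by decide) (by decide), sqnoMk ![1, 0] ![1, 0] (by decide) (by decide)]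

private def sqnoP3 : List (Equiv.Perm (Fin 3)) :=
  [sqnoMk ![0, 1, 2] ![0, 1, 2] (by decide) (by decide),
   sqnoMk ![1, 0, 2] ![1, 0, 2] (by decide) (by decide),
   sqnoMk ![2, 1, 0] ![2, 1, 0] (by decide) (by decide),
   sqnoMk ![0, 2, 1] ![0, 2, 1] (by decide) (by decide),
   sqnoMk ![1, 2, 0] ![2, 0, 1] (by decide) (by decide),
   sqnoMk ![2, 0, 1] ![1, 2, 0] (by decide) (by decide)]

/-- the check -/
private def sqnoCheck {n : ℕ} (P : List (Equiv.Perm (Fin n))) (c : Fin n → Fin n → Fin 2) : Prop :=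
  (∃ π ∈ P, ∃ σ ∈ P, (∀ i j, c (π i) (σ j) = c i j) ∧ ∃ i, π i ≠ i ∨ σ i ≠ i) ∨
    (∃ π ∈ P, ∃ σ ∈ P, ∀ i j, c (π j) (σ i) = c i j)

private instance {n : ℕ} (P : List (Equiv.Perm (Fin n))) (c : Fin n → Fin n → Fin 2) :
    Decidable (sqnoCheck P c) := by
  unfold sqnoCheck
  infer_instance

private theorem sqno_of_check {n : ℕ} (P : List (Equiv.Perm (Fin n))) (c : Fin n → Fin n → Fin 2)
    (h : sqnoCheck P c) : ¬ (MDist c ∧ NoSwap c) := by
  rintro ⟨h1, h2⟩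
  rcases h with ⟨π, -, σ, -, hc, i, hi⟩ | ⟨π, -, σ, -, hc⟩
  · obtain ⟨rfl, rfl⟩ := h1 π σ hc
    rcases hi with hi | hi <;> exact hi rfl
  · exact h2 π σ hc

private theorem sqno2 : ∀ a b c d : Fin 2, sqnoCheck sqnoP2 ![![a, b], ![c, d]] := by
  decide +kernel

private theorem sqno3 : ∀ a b c d e f g h k : Fin 2,
    sqnoCheck sqnoP3 ![![a, b, c], ![d, e, f], ![g, h, k]] := by
  decide +kernel

theorem no_two {n : ℕ} (hn : n = 2 ∨ n = 3) (c : Fin n → Fin n → Fin 2) :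
    ¬ (MDist c ∧ NoSwap c) := by
  rcases hn with rfl | rfl
  · have h := sqno2 (c 0 0) (c 0 1) (c 1 0) (c 1 1)
    have e : (![![c 0 0, c 0 1], ![c 1 0, c 1 1]] : Fin 2 → Fin 2 → Fin 2) = c := by
      funext i j
      fin_cases i <;> fin_cases j <;> rfl
    rw [e] at h
    exact sqno_of_check _ _ h
  · have h := sqno3 (c 0 0) (c 0 1) (c 0 2) (c 1 0) (c 1 1) (c 1 2) (c 2 0) (c 2 1) (c 2 2)
    have e : (![![c 0 0, c 0 1, c 0 2], ![c 1 0, c 1 1, c 1 2], ![c 2 0, c 2 1, c 2 2]] :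
        Fin 3 → Fin 3 → Fin 2) = c := by
      funext i j
      fin_cases i <;> fin_cases j <;> rfl
    rw [e] at h
    exact sqno_of_check _ _ h

theorem two_le {n m k : ℕ} (hn : 1 ≤ n) (hm : 2 ≤ m) (c : Fin n → Fin m → Fin k)
    (h : MDist c) : 2 ≤ k := by
  by_contra hk
  have hsub : ∀ a b : Fin k, a = b := by
    intro a b
    apply Fin.ext
    have := a.2
    have := b.2
    omega
  have h0 : (0 : ℕ) < m := by omega
  have h1 : (1 : ℕ) < m := by omega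
  obtain ⟨-, h2⟩ := h 1 (Equiv.swap ⟨0, h0⟩ ⟨1, h1⟩) (fun i j => hsub _ _)
  have h3 := congrArg (fun e => e (⟨0, h0⟩ : Fin m)) h2
  simp only [Equiv.swap_apply_left, Equiv.Perm.coe_one, id_eq] at h3
  have h4 := congrArg Fin.val h3
  simp at h4

end Pool.Agent.RK
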