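import Pool.Agent.RK.SqY
import Pool.Agent.RK.Sq4
import Pool.Agent.RK.SqNo

/-!
The square case: `k ≥ 2` by `two_le`; `n = 2, 3`: `k ≥ 3` by `no_two`, then `square_many`;
`n = 4`: `square_four`; `n ≥ 5`: `square_many`.
-/

namespace Pool.Agent.RK

theorem square {n k : ℕ} (hn : 2 ≤ n) (c₀ : Fin n → Fin n → Fin k) (h : MDist c₀)
    (h2 : NoSwap c₀) (L : Fin n → Fin n → Finset ℕ) (hL : ∀ i j, (L i j).card = k) :
    ∃ c, Chooses L c ∧ MDist c ∧ NoSwap c := by
  have hk : 2 ≤ k := two_le (by omega) hn c₀ h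
  by_cases h4 : n = 4
  · subst h4
    exact square_four L (fun i j => by rw [hL]; exact hk)
  by_cases h5 : 5 ≤ n
  · exact square_many (Or.inr ⟨h5, hk⟩) L hL
  have h23 : n = 2 ∨ n = 3 := by omega
  have hk3 : 3 ≤ k := by
    by_contra hlt
    have hk2 : k = 2 := by omega
    subst hk2
    exact no_two h23 c₀ ⟨h, h2⟩
  exact square_many (Or.inl ⟨h23, hk3⟩) L hL

end Pool.Agent.RK
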