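import Pool.Agent.RK.Rect
import Pool.Agent.RK.Square
import Pool.Agent.RK.One

/-!
Assembly: for all `n, m ≥ 1` and all `k`: `HasDist (rook n m) k → HasListDist (rook n m) k`
(`n ≤ m` by `one_row`, `rect`, `square`; `n > m` by the isomorphism that exchanges the
coordinates, `SimpleGraph.boxProdComm`), and the converse by constant lists.
-/

namespace Pool.Agent.RK

open SimpleGraph

theorem distinguishing_comp_iso {V W α : Type*} {G : SimpleGraph V} {H : SimpleGraph W}
    (e : G ≃g H) (c : W → α) (h : Distinguishing H c) : Distinguishing G (fun x => c (e x)) := by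
  intro φ hφ x
  have h1 := h ((e.symm.trans φ).trans e) (by
    intro y
    have := hφ (e.symm y)
    simpa using this) (e x)
  have h2 : e (φ x) = e x := by simpa using h1
  exact e.injective h2

theorem hasDist_iso {V W : Type*} {G : SimpleGraph V} {H : SimpleGraph W}
    (e : G ≃g H) {k : ℕ} (h : HasDist H k) : HasDist G k := by
  obtain ⟨c, hc⟩ := h
  exact ⟨fun x => c (e x), distinguishing_comp_iso e c hc⟩

theorem hasListDist_iso {V W : Type*} {G : SimpleGraph V} {H : SimpleGraph W}
    (e : G ≃g H) {k : ℕ} (h : HasListDist H k) : HasListDist G k := by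
  intro L hL
  obtain ⟨c, hc, hd⟩ := h (fun y => L (e.symm y)) (fun y => hL _)
  refine ⟨fun x => c (e x), fun x => ?_, distinguishing_comp_iso e c hd⟩
  have := hc (e x)
  simpa using this

theorem main_le {n m k : ℕ} (hn : 1 ≤ n) (hnm : n ≤ m) (h : HasDist (rook n m) k) :
    HasListDist (rook n m) k := by
  rcases Nat.lt_or_ge 1 n with hn2 | hn1
  · obtain ⟨c, hc⟩ := h
    have hM := mdist_of_dist c hc hn (hn.trans hnm)
    rcases Nat.lt_or_ge n m with hlt | hge
    · intro L hL
      obtain ⟨c', h1, h2⟩ := rect (by omega) hlt _ hM (fun i j => L (i, j)) (fun i j => hL _)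
      exact ⟨fun v => c' v.1 v.2, fun x => h1 x.1 x.2, dist_of_mdist (by omega) hlt c' h2⟩
    · have hnm' : n = m := le_antisymm hnm hge
      subst hnm'
      intro L hL
      obtain ⟨c', h1, h2, h3⟩ := square (by omega) _ hM (noswap_of_dist (by omega) c hc)
        (fun i j => L (i, j)) (fun i j => hL _)
      exact ⟨fun v => c' v.1 v.2, fun x => h1 x.1 x.2,
        dist_of_mdist_sq (by omega) c' h2 h3⟩
  · have : n = 1 := by omega
    subst this
    exact one_row h

theorem hasDist_of_hasListDist {V : Type*} {G : SimpleGraph V} {k : ℕ} (h : HasListDist G k) :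
    HasDist G k := by
  obtain ⟨c, hc, hd⟩ := h (fun _ => Finset.range k) (fun _ => Finset.card_range k)
  refine ⟨fun x => ⟨c x, Finset.mem_range.1 (hc x)⟩, ?_⟩
  intro φ hφ x
  exact hd φ (fun y => congrArg Fin.val (hφ y)) x

theorem main_iff {n m : ℕ} (hn : 1 ≤ n) (hm : 1 ≤ m) (k : ℕ) :
    HasListDist (rook n m) k ↔ HasDist (rook n m) k := by
  refine ⟨hasDist_of_hasListDist, fun h => ?_⟩
  rcases le_total n m with hnm | hmn
  · exact main_le hn hnm h
  · have e : rook m n ≃g rook n m := SimpleGraph.boxProdComm _ _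
    exact hasListDist_iso e.symm (main_le hm hmn (hasDist_iso e h))

end Pool.Agent.RK
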