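import Pool.Agent.RK.Sdr

/-!
Marks.

If at least `b ≥ 1` columns contain a small colour, there is a good partial colouring `(Q, c)` with
`b ≤ #Q ≤ b - 1 + k ^ (n-1)`.

Proof.  Start from `Q = ∅`.  While `#Q < b`: there is `j₀ ∈ smallCols \ Q`, so a row `i` and a
colour `a ∈ L i j₀` with `cnt L i a ≤ k ^ (n-1)`.  Let `A = {j ∉ Q : a ∈ L i j}`,
`1 ≤ #A ≤ k ^ (n-1)`; colour `A` with `choose_cols` (colour `a` in row `i`).  The new pair
`(Q ∪ A, c')` is good: a column `j ∈ Q` and a column `j' ∈ A` differ since `Good` for `(Q, c)`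
(`∃ i', c i' j ∉ L i' j'` and `c' i' j' ∈ L i' j'`); for `j ∈ A`, `j' ∉ Q ∪ A`: `a ∉ L i j'`.
-/

namespace Pool.Agent.RK

theorem marks {n m k b : ℕ} (L : Fin n → Fin m → Finset ℕ)
    (hL : ∀ i j, (L i j).card = k) (hb : 1 ≤ b)
    (hX : b ≤ (smallCols L (k ^ (n - 1))).card) :
    ∃ (Q : Finset (Fin m)) (c : Fin n → Fin m → ℕ), Good L Q c ∧ b ≤ Q.card ∧
      Q.card + 1 ≤ b + k ^ (n - 1) := by
  classical
  have key : ∀ t : ℕ, ∃ (Q : Finset (Fin m)) (c : Fin n → Fin m → ℕ), Good L Q c ∧
      Q.card + 1 ≤ b + k ^ (n - 1) ∧ (b ≤ Q.card ∨ t ≤ Q.card) := by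
    intro t
    induction t with
    | zero =>
      refine ⟨∅, fun _ _ => 0, ⟨?_, ?_, ?_⟩, ?_, Or.inr (Nat.zero_le _)⟩
      · intro j hj
        exact absurd hj (Finset.notMem_empty j)
      · intro j hj
        exact absurd hj (Finset.notMem_empty j)
      · intro j hj
        exact absurd hj (Finset.notMem_empty j)
      · simp only [Finset.card_empty]
        omega
    | succ t ih =>
      obtain ⟨Q, c, hG, hc, hor⟩ := ih
      by_cases hbQ : b ≤ Q.card
      · exact ⟨Q, c, hG, hc, Or.inl hbQ⟩
      have htQ : t ≤ Q.card := by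
        rcases hor with h | h
        · exact absurd h hbQ
        · exact h
      have hlt : Q.card < (smallCols L (k ^ (n - 1))).card := by omega
      obtain ⟨j₀, hj₀, hj₀Q⟩ := Finset.exists_mem_notMem_of_card_lt_card hlt
      obtain ⟨i, a, ha, hcnt⟩ := (Finset.mem_filter.1 hj₀).2
      set A : Finset (Fin m) := Finset.univ.filter (fun j => j ∉ Q ∧ a ∈ L i j) with hA
      have hAcard : A.card ≤ k ^ (n - 1) := by
        refine le_trans (Finset.card_le_card ?_) hcnt
        intro j hj
        exact Finset.mem_filter.2 ⟨Finset.mem_univ _, (Finset.mem_filter.1 hj).2.2⟩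
      have hj₀A : j₀ ∈ A := Finset.mem_filter.2 ⟨Finset.mem_univ _, hj₀Q, ha⟩
      have hApos : 1 ≤ A.card := Finset.card_pos.2 ⟨j₀, hj₀A⟩
      obtain ⟨f, hf1, hf2, hf3⟩ := choose_cols L (fun i j => (hL i j).ge) A i a
        (fun j hj => (Finset.mem_filter.1 hj).2.2) hAcard
      have hdisj : Disjoint Q A := by
        rw [Finset.disjoint_left]
        intro j hj hjA
        exact (Finset.mem_filter.1 hjA).2.1 hj
      refine ⟨Q ∪ A, fun i' j => if j ∈ A then f i' j else c i' j, ⟨?_, ?_, ?_⟩, ?_, ?_⟩
      · intro j hj i'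
        by_cases hjA : j ∈ A
        · simp only [hjA, if_true]
          exact hf1 j hjA i'
        · simp only [hjA, if_false]
          have hjQ : j ∈ Q := by
            rcases Finset.mem_union.1 hj with h | h
            · exact h
            · exact absurd h hjA
          exact hG.1 j hjQ i'
      · intro j hj j' hj' hne
        by_cases hjA : j ∈ A
        · by_cases hjA' : j' ∈ A
          · obtain ⟨i', hi'⟩ := hf3 j hjA j' hjA' hne
            exact ⟨i', by simpa only [hjA, hjA', if_true] using hi'⟩
          · have hjQ' : j' ∈ Q := by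
              rcases Finset.mem_union.1 hj' with h | h
              · exact h
              · exact absurd h hjA'
            obtain ⟨i', hi'⟩ := hG.2.2 j' hjQ' j (fun h => (Finset.disjoint_left.1 hdisj h) hjA)
            refine ⟨i', ?_⟩
            simp only [hjA, hjA', if_true, if_false]
            intro heq
            exact hi' (heq ▸ hf1 j hjA i')
        · have hjQ : j ∈ Q := by
            rcases Finset.mem_union.1 hj with h | h
            · exact h
            · exact absurd h hjA
          by_cases hjA' : j' ∈ A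
          · obtain ⟨i', hi'⟩ := hG.2.2 j hjQ j' (fun h => (Finset.disjoint_left.1 hdisj h) hjA')
            refine ⟨i', ?_⟩
            simp only [hjA, hjA', if_true, if_false]
            intro heq
            exact hi' (heq ▸ hf1 j' hjA' i')
          · have hjQ' : j' ∈ Q := by
              rcases Finset.mem_union.1 hj' with h | h
              · exact h
              · exact absurd h hjA'
            obtain ⟨i', hi'⟩ := hG.2.1 j hjQ j' hjQ' hne
            exact ⟨i', by simpa only [hjA, hjA', if_false] using hi'⟩
      · intro j hj j' hj'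
        have hj'Q : j' ∉ Q := fun h => hj' (Finset.mem_union_left _ h)
        have hj'A : j' ∉ A := fun h => hj' (Finset.mem_union_right _ h)
        by_cases hjA : j ∈ A
        · refine ⟨i, ?_⟩
          simp only [hjA, if_true]
          rw [hf2 j hjA]
          intro haL
          exact hj'A (Finset.mem_filter.2 ⟨Finset.mem_univ _, hj'Q, haL⟩)
        · have hjQ : j ∈ Q := by
            rcases Finset.mem_union.1 hj with h | h
            · exact h
            · exact absurd h hjA
          obtain ⟨i', hi'⟩ := hG.2.2 j hjQ j' hj'Q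
          exact ⟨i', by simpa only [hjA, if_false] using hi'⟩
      · rw [Finset.card_union_of_disjoint hdisj]
        omega
      · right
        rw [Finset.card_union_of_disjoint hdisj]
        omega
  obtain ⟨Q, c, hG, hc, hor⟩ := key b
  exact ⟨Q, c, hG, hor.elim id id, hc⟩

end Pool.Agent.RK
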