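import Pool.Agent.RK.Sdr

/-!
The almost constant case.

`extend_asym`: let `f v = #{i | v i = 0}`, which is invariant under permutations of the
coordinates and takes all the values `0..n` (`k ≥ 2`).  `f` takes at most `#T` values on `T`, so
`r ≤ n + 1 - #T` further values are free; add one vector for each of `r` free values.  A
permutation that preserves `T'` preserves `T = {v ∈ T' : f v ∈ f(T)}`.

`near_case`: all columns outside the small exceptional set `X` have the lists `Λ i`; every column
in `X` has in some row a colour outside `Λ i`.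
Let `r = #X`, so `t + r ≤ n - 2`.  Choose bijections `φ i : Fin k → Λ i` that depend only on the
set `Λ i` (e.g. the order isomorphism `Finset.orderEmbOfFin`).  `T'` from `extend_asym` with
`#T' = t + r`.  Give the `m - r = k ^ n - (t + r)` columns outside `X` the vectors
`φ(v) = (φ i (v i))_i`, `v ∉ T'`, bijectively; give the columns in `X` distinct vectors with a colour
outside `Λ i` in some row `i` (`choose_cols'`).  All columns are distinct.  Suppose
`c (π i) (σ j) = c i j` for all `i, j`.
Claim `Λ (π i) = Λ i` for all `i`.  Otherwise take `i` and `b ∈ Λ (π i) \ Λ i`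
(equal cardinalities).  The vectors `v ∉ T'` with `φ (π i) (v (π i)) = b` are at least
`k ^ (n-1) - (t + r)`; each is a column `σ j` (`j` unique) and then the column `j` has
`c i j = b ∉ Λ i`, so `j ∈ X`; so `k ^ (n-1) - (t + r) ≤ r`, but
`t + 2 r ≤ 2 (n-2) - t < 2 ^ (n-1)`, contradiction.
So `π` preserves the `Λ i`, hence `φ`, hence the set `Im φ`.  For `j ∉ X`, the column `j` lies in
`∏ Λ i`, hence so does the column `σ j` (as `c (π i) (σ j) = c i j ∈ Λ i = Λ (π i)`), so `σ j ∉ X`;
so `σ` preserves the complement of `X`, and `π` preserves the complement of `T'`, so `T'`, and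
`π = 1`.  Then `σ = 1` since the columns are distinct.
-/

namespace Pool.Agent.RK

/-- The number of zero coordinates. -/
def zc {n k : ℕ} (v : Fin n → Fin k) : ℕ := ∑ i, if (v i : ℕ) = 0 then 1 else 0

theorem zc_comp {n k : ℕ} (v : Fin n → Fin k) (π : Equiv.Perm (Fin n)) : zc (v ∘ π) = zc v := by
  unfold zc
  exact Equiv.sum_comp π (fun i => if (v i : ℕ) = 0 then 1 else 0)

theorem zc_le {n k : ℕ} (v : Fin n → Fin k) : zc v ≤ n := by
  unfold zc
  calc (∑ i, if (v i : ℕ) = 0 then 1 else 0) ≤ ∑ _i : Fin n, 1 := by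
        apply Finset.sum_le_sum; intro i _; split_ifs <;> omega
    _ = n := by simp

theorem exists_zc {n k : ℕ} (hk : 2 ≤ k) (s : ℕ) (hs : s ≤ n) :
    ∃ v : Fin n → Fin k, zc v = s := by
  refine ⟨fun i => if (i : ℕ) < s then ⟨0, by omega⟩ else ⟨1, by omega⟩, ?_⟩
  unfold zc
  have h1 : ∀ i : Fin n, (if (((if (i : ℕ) < s then (⟨0, by omega⟩ : Fin k) else
      ⟨1, by omega⟩) : Fin k) : ℕ) = 0 then 1 else 0) = if (i : ℕ) < s then 1 else 0 := by
    intro i
    split_ifs <;> simp_all
  rw [Finset.sum_congr rfl (fun i _ => h1 i), Fin.sum_univ_eq_sum_range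
    (fun i => if i < s then 1 else 0) n, ← Finset.sum_filter]
  rw [Finset.sum_const, smul_eq_mul, mul_one]
  have : (Finset.range n).filter (fun i => i < s) = Finset.range s := by
    ext i; simp only [Finset.mem_filter, Finset.mem_range]; omega
  rw [this, Finset.card_range]

theorem extend_asym {n k : ℕ} (hk : 2 ≤ k) (T : Finset (Fin n → Fin k))
    (hA : Asym (T : Set (Fin n → Fin k))) (r : ℕ) (h : T.card + r ≤ n + 1) :
    ∃ T' : Finset (Fin n → Fin k), T'.card = T.card + r ∧
      Asym (T' : Set (Fin n → Fin k)) := by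
  classical
  set F := T.image zc with hF
  have hFc : F.card ≤ T.card := Finset.card_image_le
  have hfree : r ≤ (Finset.range (n + 1) \ F).card := by
    have := Finset.le_card_sdiff F (Finset.range (n + 1))
    rw [Finset.card_range] at this
    omega
  obtain ⟨R, hRs, hRc⟩ := Finset.exists_subset_card_eq hfree
  have hg : ∀ s : ℕ, ∃ v : Fin n → Fin k, s ≤ n → zc v = s := by
    intro s
    by_cases hs : s ≤ n
    · obtain ⟨v, hv⟩ := exists_zc (n := n) hk s hs
      exact ⟨v, fun _ => hv⟩
    · exact ⟨fun _ => ⟨0, by omega⟩, fun h => absurd h hs⟩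
  choose g hg using hg
  have hRn : ∀ s ∈ R, s ≤ n ∧ s ∉ F := by
    intro s hs
    have := hRs hs
    rw [Finset.mem_sdiff, Finset.mem_range] at this
    exact ⟨by omega, this.2⟩
  have hdis : Disjoint T (R.image g) := by
    rw [Finset.disjoint_left]
    intro v hv hv'
    obtain ⟨s, hs, rfl⟩ := Finset.mem_image.1 hv'
    have h1 := hg s (hRn s hs).1
    apply (hRn s hs).2
    rw [hF, Finset.mem_image]
    exact ⟨_, hv, h1⟩
  have hginj : Set.InjOn g (R : Set ℕ) := by
    intro s hs s' hs' he
    have h1 := hg s (hRn s hs).1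
    have h2 := hg s' (hRn s' hs').1
    rw [← h1, ← h2, he]
  refine ⟨T ∪ R.image g, ?_, ?_⟩
  · rw [Finset.card_union_of_disjoint hdis, Finset.card_image_of_injOn hginj, hRc]
  · intro π hπ
    apply hA π
    have key : ∀ v : Fin n → Fin k, v ∈ T ∪ R.image g → (v ∈ T ↔ zc v ∈ F) := by
      intro v hv
      constructor
      · intro h; exact Finset.mem_image_of_mem _ h
      · intro h
        rcases Finset.mem_union.1 hv with h' | h'
        · exact h'
        · obtain ⟨s, hs, rfl⟩ := Finset.mem_image.1 h'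
          rw [hg s (hRn s hs).1] at h
          exact absurd h (hRn s hs).2
    intro v
    have hπv := hπ v
    simp only [Finset.mem_coe] at hπv ⊢
    constructor
    · intro h1
      have h2 : v ∘ π ∈ T ∪ R.image g := Finset.mem_union_left _ h1
      have h3 := hπv.1 h2
      rw [key v h3, ← zc_comp v π]
      exact (key _ h2).1 h1
    · intro h1
      have h2 : v ∈ T ∪ R.image g := Finset.mem_union_left _ h1
      have h3 := hπv.2 h2
      rw [key _ h3, zc_comp v π]
      exact (key _ h2).1 h1

/-- An enumeration of a finite set of naturals that depends only on the set. -/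
noncomputable def enum (k : ℕ) (s : Finset ℕ) : Fin k → ℕ :=
  if h : s.card = k then s.orderEmbOfFin h else fun _ => 0

theorem enum_mem {k : ℕ} {s : Finset ℕ} (h : s.card = k) (x : Fin k) : enum k s x ∈ s := by
  unfold enum
  rw [dif_pos h]
  exact Finset.orderEmbOfFin_mem s h x

theorem enum_inj {k : ℕ} {s : Finset ℕ} (h : s.card = k) : Function.Injective (enum k s) := by
  unfold enum
  rw [dif_pos h]
  exact (s.orderEmbOfFin h).injective

theorem enum_surj {k : ℕ} {s : Finset ℕ} (h : s.card = k) {b : ℕ} (hb : b ∈ s) :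
    ∃ x, enum k s x = b := by
  unfold enum
  rw [dif_pos h]
  have := Finset.range_orderEmbOfFin s h
  have hb' : b ∈ Set.range (s.orderEmbOfFin h) := by rw [this]; exact hb
  exact hb'

theorem card_fiber {n k : ℕ} (i₁ : Fin n) (b : Fin k) :
    ((Finset.univ : Finset (Fin n → Fin k)).filter (fun v => v i₁ = b)).card = k ^ (n - 1) := by
  classical
  have h1 : (Finset.univ : Finset (Fin n → Fin k)).filter (fun v => v i₁ = b) =
      Fintype.piFinset (fun i => if i = i₁ then ({b} : Finset (Fin k)) else Finset.univ) := by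
    ext v
    simp only [Finset.mem_filter, Finset.mem_univ, true_and, Fintype.mem_piFinset]
    constructor
    · intro h i
      by_cases hi : i = i₁
      · subst hi; simp [h]
      · simp [hi]
    · intro h
      have := h i₁
      simpa using this
  rw [h1, Fintype.card_piFinset]
  have h2 : ∀ i : Fin n, (if i = i₁ then ({b} : Finset (Fin k)) else Finset.univ).card =
      if i = i₁ then 1 else k := by
    intro i; split_ifs <;> simp
  rw [Finset.prod_congr rfl (fun i _ => h2 i)]
  rw [← Finset.mul_prod_erase Finset.univ _ (Finset.mem_univ i₁), if_pos rfl, one_mul]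
  rw [Finset.prod_congr rfl (fun i hi => if_neg (Finset.ne_of_mem_erase hi)), Finset.prod_const,
    Finset.card_erase_of_mem (Finset.mem_univ _), Finset.card_univ, Fintype.card_fin]

theorem two_mul_lt_pow : ∀ n : ℕ, 3 ≤ n → 2 * n < 2 ^ (n - 1) + 5 := by
  intro n hn
  induction n, hn using Nat.le_induction with
  | base => norm_num
  | succ n hn ih =>
    have : 2 ^ (n + 1 - 1) = 2 * 2 ^ (n - 1) := by
      rw [← pow_succ']; congr 1; omega
    rw [this]
    have h4 : 4 ≤ 2 ^ (n - 1) := by
      calc 4 = 2 ^ 2 := by norm_num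
        _ ≤ 2 ^ (n - 1) := Nat.pow_le_pow_right (by norm_num) (by omega)
    omega

theorem near_case {n m k t : ℕ} (hn : 3 ≤ n) (hk : 2 ≤ k) (ht : 1 ≤ t)
    (hm : t + m = k ^ n) (L : Fin n → Fin m → Finset ℕ) (hL : ∀ i j, (L i j).card = k)
    (T : Finset (Fin n → Fin k)) (hT : T.card = t) (hA : Asym (T : Set (Fin n → Fin k)))
    (X : Finset (Fin m)) (hX : X.card + t + 2 ≤ n)
    (Λ : Fin n → Finset ℕ) (hΛ : ∀ i, (Λ i).card = k)
    (hout : ∀ j ∉ X, ∀ i, L i j = Λ i)
    (hin : ∀ j ∈ X, ∃ i, ∃ a ∈ L i j, a ∉ Λ i) :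
    ∃ c, Chooses L c ∧ MDist c := by
  classical
  obtain ⟨T', hT'c, hT'⟩ := extend_asym hk T hA X.card (by omega)
  rw [hT] at hT'c
  -- the size bound
  have hpow : 2 ^ (n - 1) ≤ k ^ (n - 1) := Nat.pow_le_pow_left hk _
  have h2n := two_mul_lt_pow n hn
  -- exceptional columns
  have hin' : ∀ j : Fin m, ∃ i : Fin n, ∃ a : ℕ, j ∈ X → (a ∈ L i j ∧ a ∉ Λ i) := by
    intro j
    by_cases hj : j ∈ X
    · obtain ⟨i, a, ha, ha'⟩ := hin j hj
      exact ⟨i, a, fun _ => ⟨ha, ha'⟩⟩
    · exact ⟨⟨0, by omega⟩, 0, fun h => absurd h hj⟩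
  choose i₀ a ha using hin'
  obtain ⟨f, hf1, hf2, hf3⟩ := choose_cols' L (fun i j => (hL i j).ge) X i₀ a
    (fun j hj => (ha j hj).1) (by omega)
  -- the bijection
  have hcards : (Xᶜ).card = (T'ᶜ).card := by
    rw [Finset.card_compl, Finset.card_compl, Fintype.card_fin, hT'c, Fintype.card_fun,
      Fintype.card_fin, Fintype.card_fin]
    have : X.card ≤ m := by
      calc X.card ≤ Fintype.card (Fin m) := Finset.card_le_univ X
        _ = m := Fintype.card_fin m
    omega
  let e := Finset.equivOfCardEq hcards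
  have hkn : 0 < k := by omega
  let w : Fin m → (Fin n → Fin k) := fun j => if h : j ∈ Xᶜ then (e ⟨j, h⟩ : Fin n → Fin k)
    else fun _ => ⟨0, hkn⟩
  have hw1 : ∀ j, j ∉ X → w j ∉ T' := by
    intro j hj
    have hj' : j ∈ Xᶜ := Finset.mem_compl.2 hj
    have : w j = (e ⟨j, hj'⟩ : Fin n → Fin k) := dif_pos hj'
    rw [this]
    exact Finset.mem_compl.1 (e ⟨j, hj'⟩).2
  have hw2 : ∀ j j', j ∉ X → j' ∉ X → w j = w j' → j = j' := by
    intro j j' hj hj' he
    have h1 : j ∈ Xᶜ := Finset.mem_compl.2 hj
    have h2 : j' ∈ Xᶜ := Finset.mem_compl.2 hj'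
    have e1 : w j = (e ⟨j, h1⟩ : Fin n → Fin k) := dif_pos h1
    have e2 : w j' = (e ⟨j', h2⟩ : Fin n → Fin k) := dif_pos h2
    rw [e1, e2] at he
    have := e.injective (Subtype.ext he)
    exact congrArg Subtype.val this
  have hw3 : ∀ v, v ∉ T' → ∃ j, j ∉ X ∧ w j = v := by
    intro v hv
    have hv' : v ∈ T'ᶜ := Finset.mem_compl.2 hv
    refine ⟨(e.symm ⟨v, hv'⟩ : Fin m), Finset.mem_compl.1 (e.symm ⟨v, hv'⟩).2, ?_⟩
    have h1 := (e.symm ⟨v, hv'⟩).2
    have : w (e.symm ⟨v, hv'⟩ : Fin m) = (e ⟨(e.symm ⟨v, hv'⟩ : Fin m), h1⟩ : Fin n → Fin k) :=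
      dif_pos h1
    rw [this]
    simp
  let c : Fin n → Fin m → ℕ := fun i j => if j ∈ X then f i j else enum k (Λ i) (w j i)
  have hcX : ∀ i j, j ∈ X → c i j = f i j := fun i j hj => if_pos hj
  have hcO : ∀ i j, j ∉ X → c i j = enum k (Λ i) (w j i) := fun i j hj => if_neg hj
  have hcOm : ∀ i j, j ∉ X → c i j ∈ Λ i := by
    intro i j hj
    rw [hcO i j hj]
    exact enum_mem (hΛ i) _
  have hbad : ∀ j, j ∈ X → c (i₀ j) j ∉ Λ (i₀ j) := by
    intro j hj
    rw [hcX _ _ hj, hf2 j hj]
    exact (ha j hj).2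
  have hchoose : Chooses L c := by
    intro i j
    by_cases hj : j ∈ X
    · rw [hcX i j hj]; exact hf1 j hj i
    · rw [hout j hj i]; exact hcOm i j hj
  have hcol : ∀ j j', (∀ i, c i j = c i j') → j = j' := by
    intro j j' h
    by_cases hj : j ∈ X
    · by_cases hj' : j' ∈ X
      · by_contra hne
        obtain ⟨i, hi⟩ := hf3 j hj j' hj' hne
        apply hi
        rw [← hcX i j hj, ← hcX i j' hj', h i]
      · exfalso
        apply hbad j hj
        rw [h]
        exact hcOm _ _ hj'
    · by_cases hj' : j' ∈ X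
      · exfalso
        apply hbad j' hj'
        rw [← h]
        exact hcOm _ _ hj
      · apply hw2 j j' hj hj'
        funext i
        apply enum_inj (hΛ i)
        rw [← hcO i j hj, ← hcO i j' hj', h i]
  -- Claim A
  have claimA : ∀ (π : Equiv.Perm (Fin n)) (σ : Equiv.Perm (Fin m)),
      (∀ i j, c (π i) (σ j) = c i j) → ∀ i, Λ (π i) = Λ i := by
    intro π σ h i
    by_contra hne
    have hsub : ¬ Λ (π i) ⊆ Λ i := by
      intro hs
      exact hne (Finset.eq_of_subset_of_card_le hs (by rw [hΛ, hΛ]))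
    obtain ⟨b, hb, hb'⟩ := Finset.not_subset.1 hsub
    obtain ⟨b0, hb0⟩ := enum_surj (hΛ (π i)) hb
    set B := ((Finset.univ : Finset (Fin n → Fin k)).filter (fun v => v (π i) = b0)) \ T' with hB
    have hBc : k ^ (n - 1) ≤ B.card + (t + X.card) := by
      have := Finset.le_card_sdiff T'
        ((Finset.univ : Finset (Fin n → Fin k)).filter (fun v => v (π i) = b0))
      rw [card_fiber, hT'c] at this
      have h9 : k ^ (n - 1) - (t + X.card) ≤ B.card := this
      omega
    have hBX : B.card ≤ X.card := by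
      have hmap : ∀ v : Fin n → Fin k, ∃ j : Fin m, v ∉ T' → (j ∉ X ∧ w j = v) := by
        intro v
        by_cases hv : v ∈ T'
        · have hm0 : 0 < m := by
            have h8 : n ≤ k ^ n := (Nat.lt_pow_self (by omega)).le
            omega
          exact ⟨⟨0, hm0⟩, fun h => absurd hv h⟩
        · obtain ⟨j, hj⟩ := hw3 v hv
          exact ⟨j, fun _ => hj⟩
      choose jj hjj using hmap
      apply Finset.card_le_card_of_injOn (fun v => σ.symm (jj v))
      · intro v hv
        have hv' := Finset.mem_coe.1 hv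
        rw [hB, Finset.mem_sdiff, Finset.mem_filter] at hv'
        obtain ⟨hj1, hj2⟩ := hjj v hv'.2
        by_contra hnX
        have hnX' : σ.symm (jj v) ∉ X := fun hh => hnX (Finset.mem_coe.2 hh)
        apply hb'
        have h1 := h i (σ.symm (jj v))
        rw [Equiv.apply_symm_apply] at h1
        have h2 := hcO (π i) (jj v) hj1
        rw [hj2, hv'.1.2, hb0] at h2
        rw [← h2, h1]
        exact hcOm _ _ hnX'
      · intro v hv v' hv' he
        have hv1 := Finset.mem_coe.1 hv
        have hv1' := Finset.mem_coe.1 hv'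
        rw [hB, Finset.mem_sdiff] at hv1 hv1'
        have h1 := (hjj v hv1.2).2
        have h2 := (hjj v' hv1'.2).2
        have h3 : jj v = jj v' := σ.symm.injective he
        rw [← h1, ← h2, h3]
    omega
  -- Claim C
  have claimC : ∀ (π : Equiv.Perm (Fin n)) (σ : Equiv.Perm (Fin m)),
      (∀ i j, c (π i) (σ j) = c i j) → ∀ j, j ∉ X → σ j ∉ X := by
    intro π σ h j hj hj'
    apply hbad (σ j) hj'
    obtain ⟨i, hi⟩ := π.surjective (i₀ (σ j))
    rw [← hi, h, claimA π σ h i]
    exact hcOm _ _ hj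
  -- Claim D
  have claimD : ∀ (π : Equiv.Perm (Fin n)) (σ : Equiv.Perm (Fin m)),
      (∀ i j, c (π i) (σ j) = c i j) → ∀ v : Fin n → Fin k, v ∉ T' → v ∘ π.symm ∉ T' := by
    intro π σ h v hv
    obtain ⟨j, hj, rfl⟩ := hw3 v hv
    have hσj := claimC π σ h j hj
    have : w j ∘ π.symm = w (σ j) := by
      funext i'
      obtain ⟨i, rfl⟩ := π.surjective i'
      rw [Function.comp_apply, Equiv.symm_apply_apply]
      apply enum_inj (hΛ i)
      rw [← hcO i j hj, ← h i j, hcO _ _ hσj, claimA π σ h i]
    rw [this]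
    exact hw1 _ hσj
  refine ⟨c, hchoose, ?_⟩
  intro π σ h
  have hinv : ∀ i j, c (π.symm i) (σ.symm j) = c i j := by
    intro i j
    have := h (π.symm i) (σ.symm j)
    rw [Equiv.apply_symm_apply, Equiv.apply_symm_apply] at this
    exact this.symm
  have hπ : π = 1 := by
    apply hT' π
    intro v
    simp only [Finset.mem_coe]
    rw [← not_iff_not]
    constructor
    · intro h1
      have := claimD π σ h _ h1
      have e1 : (v ∘ π) ∘ π.symm = v := by
        funext i; simp
      rwa [e1] at this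
    · intro h1
      have := claimD π.symm σ.symm hinv _ h1
      simpa using this
  refine ⟨hπ, ?_⟩
  ext j
  have : σ j = j := by
    apply hcol
    intro i
    have := h i j
    rw [hπ] at this
    exact this
  rw [this]
  rfl

end Pool.Agent.RK
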