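import Pool.Agent.RK.Defs

/-!
The complement of the set of columns.

Let `C` be the set of columns `fun i => c₀ i j`.  The columns are distinct (otherwise
`σ = swap j j'` preserves `c₀`).  `T` = complement of `C`.  If `π` satisfies
`v ∘ π ∈ T ↔ v ∈ T` for all `v`, the same holds for `C`, so for every `j` there is a unique
`σ j` with `c₀ (π i) j = c₀ i (σ j)` for all `i`; `σ` is injective, hence a permutation, and
`(π, σ⁻¹)` preserves `c₀`; so `π = 1`.  If `T` were empty, `π = swap 0 1` would be a
counterexample.
-/

namespace Pool.Agent.RK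

private theorem t0_inj {n m k : ℕ} (c₀ : Fin n → Fin m → Fin k) (h : MDist c₀) :
    Function.Injective (fun (j : Fin m) (i : Fin n) => c₀ i j) := by
  intro j j' hj
  have hj' : ∀ i, c₀ i j = c₀ i j' := fun i => congrFun hj i
  by_contra hne
  obtain ⟨-, h2⟩ := h 1 (Equiv.swap j j') (by
    intro i x
    simp only [Equiv.Perm.coe_one, id_eq]
    by_cases hx : x = j
    · subst hx
      rw [Equiv.swap_apply_left]
      exact (hj' i).symm
    · by_cases hx' : x = j'
      · subst hx'
        rw [Equiv.swap_apply_right]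
        exact hj' i
      · rw [Equiv.swap_apply_of_ne_of_ne hx hx'])
  exact hne (Equiv.swap_eq_one_iff.1 h2)

theorem complement_facts {n m k : ℕ} (hn : 2 ≤ n) (c₀ : Fin n → Fin m → Fin k)
    (h : MDist c₀) :
    ∃ T : Finset (Fin n → Fin k), T.card + m = k ^ n ∧ 1 ≤ T.card ∧
      Asym (T : Set (Fin n → Fin k)) := by
  classical
  have hinj := t0_inj c₀ h
  set C : Finset (Fin n → Fin k) := Finset.univ.image (fun (j : Fin m) (i : Fin n) => c₀ i j)
    with hC
  have hCcard : C.card = m := by
    rw [hC, Finset.card_image_of_injective _ hinj]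
    simp
  have hmem : ∀ v, v ∈ C ↔ ∃ j, (fun i => c₀ i j) = v := by
    intro v
    rw [hC]
    simp
  have hasym : Asym ((Cᶜ : Finset (Fin n → Fin k)) : Set (Fin n → Fin k)) := by
    intro π hπ
    have hπC : ∀ v, v ∘ π ∈ C ↔ v ∈ C := by
      intro v
      have := hπ v
      simp only [Finset.mem_coe, Finset.mem_compl] at this
      exact not_iff_not.1 this
    have hσ : ∀ j : Fin m, ∃ j' : Fin m, (fun i => c₀ i j') = (fun i => c₀ i j) ∘ π := by
      intro j
      exact (hmem _).1 ((hπC _).2 ((hmem _).2 ⟨j, rfl⟩))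
    choose σ hσ using hσ
    have hσi : Function.Injective σ := by
      intro j j' hjj
      apply hinj
      have h1 : (fun i => c₀ i j) ∘ π = (fun i => c₀ i j') ∘ π := by
        rw [← hσ j, ← hσ j', hjj]
      funext i
      have h2 := congrFun h1 (π.symm i)
      simpa using h2
    have hσb : Function.Bijective σ := Finite.injective_iff_bijective.1 hσi
    set s : Equiv.Perm (Fin m) := Equiv.ofBijective σ hσb with hs
    obtain ⟨h1, -⟩ := h π s.symm (by
      intro i j
      have h3 := congrFun (hσ (s.symm j)) i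
      have h4 : σ (s.symm j) = j := s.apply_symm_apply j
      rw [h4] at h3
      exact h3.symm)
    exact h1
  refine ⟨Cᶜ, ?_, ?_, hasym⟩
  · have h1 := Finset.card_compl_add_card C
    rw [hCcard] at h1
    rw [h1]
    simp
  · by_contra hcon
    have h0 : Cᶜ.card = 0 := by omega
    have h1 : (Cᶜ : Finset (Fin n → Fin k)) = ∅ := Finset.card_eq_zero.1 h0
    have h2 := hasym (Equiv.swap ⟨0, by omega⟩ ⟨1, by omega⟩) (by
      intro v
      rw [h1]
      simp)
    have h3 := Equiv.swap_eq_one_iff.1 h2
    have h4 := congrArg Fin.val h3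
    simp at h4

end Pool.Agent.RK
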