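import Pool.Agent.RK.Red
import Pool.Agent.RK.T0
import Pool.Agent.RK.Finish
import Pool.Agent.RK.Marks
import Pool.Agent.RK.Heavy
import Pool.Agent.RK.Near

/-!
The rectangular case `2 ≤ n < m`.

`k ≥ 2` since the columns of `c₀` are distinct.  `T`, `t = #T` from `complement_facts`.
Case 1: `t ≥ n - 1`: `finish` with `Q = ∅`.
Case 2: `1 ≤ t ≤ n - 2` (so `n ≥ 3`), `b = n - 1 - t`, `N = k ^ (n-1)`, `X = smallCols L N`.
(a) `#X ≥ b`: `marks`, then `finish`
    (`n - 1 + #Q ≤ n - 1 + (n - 2 - t) + N ≤ k ^ n - t = m`, as `2 n - 3 + N ≤ k ^ n`).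
(b) some row `i₀` has `≥ k + 1` colours `a` with `cnt L i₀ a > N`: `heavy_case`.
(c) otherwise: every column `j ∉ X` has only colours with `cnt > N` in its lists; there is such a
    column since `m > #X`; so in every row `i` the set `Λ i` of the colours with `cnt > N` has
    exactly `k` elements and `L i j = Λ i` for `j ∉ X`; `near_case`.
-/

namespace Pool.Agent.RK

theorem two_le_of_mdist {n m k : ℕ} (hm : 2 ≤ m) (c : Fin n → Fin m → Fin k)
    (h : MDist c) : 2 ≤ k := by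
  by_contra hk
  have hk1 : k ≤ 1 := by omega
  have h1 : ∀ a b : Fin k, a = b := by
    intro a b
    ext
    have := a.2
    have := b.2
    omega
  have h2 := (h 1 (Equiv.swap ⟨0, by omega⟩ ⟨1, by omega⟩) (fun i j => h1 _ _)).2
  have h3 := congrArg (fun f : Equiv.Perm (Fin m) => ((f ⟨0, by omega⟩ : Fin m) : ℕ)) h2
  simp at h3

theorem pow_bound1 {n k : ℕ} (hn : 3 ≤ n) (hk : 2 ≤ k) : 2 * n + k ^ (n - 1) ≤ k ^ n + 3 := by
  obtain ⟨a, rfl⟩ : ∃ a, n = a + 3 := ⟨n - 3, by omega⟩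
  have h1 : a + 3 - 1 = a + 2 := by omega
  rw [h1]
  have h2 : 2 * a + 3 ≤ k ^ (a + 2) := by
    have h3 : ∀ b : ℕ, 2 * b + 3 ≤ 2 ^ (b + 2) := by
      intro b
      induction b with
      | zero => norm_num
      | succ b ih => rw [show b + 1 + 2 = (b + 2) + 1 by ring, pow_succ]; omega
    exact (h3 a).trans (Nat.pow_le_pow_left hk _)
  have h4 : k ^ (a + 3) = k ^ (a + 2) * k := pow_succ _ _
  have h5 : k ^ (a + 2) * 2 ≤ k ^ (a + 2) * k := Nat.mul_le_mul_left _ hk
  omega

theorem rect {n m k : ℕ} (hn : 2 ≤ n) (hnm : n < m) (c₀ : Fin n → Fin m → Fin k)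
    (h : MDist c₀) (L : Fin n → Fin m → Finset ℕ) (hL : ∀ i j, (L i j).card = k) :
    ∃ c, Chooses L c ∧ MDist c := by
  have hk : 2 ≤ k := two_le_of_mdist (by omega) c₀ h
  obtain ⟨T, hT1, hT2, hT3⟩ := complement_facts hn c₀ h
  by_cases hcase : n - 1 ≤ T.card
  · refine finish hn hk L hL ∅ (fun _ _ => 0) ⟨?_, ?_, ?_⟩ ?_ ?_
    · simp
    · simp
    · simp
    · simp only [Finset.card_empty]; omega
    · simp only [Finset.card_empty]; omega
  push Not at hcase
  have hn3 : 3 ≤ n := by omega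
  have hb1 := pow_bound1 hn3 hk
  by_cases hX : n - 1 - T.card ≤ (smallCols L (k ^ (n - 1))).card
  · obtain ⟨Q, c, hG, hQ1, hQ2⟩ := marks (b := n - 1 - T.card) L hL (by omega) hX
    exact finish hn hk L hL Q c hG (by omega) (by omega)
  push Not at hX
  by_cases hheavy : ∃ i₀, ∃ Λ : Finset ℕ, k + 1 ≤ Λ.card ∧ ∀ a ∈ Λ, k ^ (n - 1) < cnt L i₀ a
  · obtain ⟨i₀, Λ, hΛ, hlarge⟩ := hheavy
    exact heavy_case (t := T.card) hn3 hk hT2 (by omega) hT1 L hL i₀ Λ hΛ hlarge
  push Not at hheavy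
  set X := smallCols L (k ^ (n - 1)) with hXdef
  have hXm : X.card < m := by omega
  obtain ⟨j₁, hj₁⟩ : ∃ j, j ∉ X := by
    by_contra hcon
    push Not at hcon
    have : X = Finset.univ := by
      ext j; simp [hcon j]
    rw [this, Finset.card_univ, Fintype.card_fin] at hXm
    exact lt_irrefl _ hXm
  have hout : ∀ j ∉ X, ∀ i, ∀ a ∈ L i j, k ^ (n - 1) < cnt L i a := by
    intro j hj i a ha
    by_contra hcon
    push Not at hcon
    apply hj
    rw [hXdef]
    unfold smallCols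
    rw [Finset.mem_filter]
    exact ⟨Finset.mem_univ _, i, a, ha, hcon⟩
  have hlist : ∀ j ∉ X, ∀ i, L i j = L i j₁ := by
    intro j hj i
    by_contra hne
    have hcard : k + 1 ≤ (L i j ∪ L i j₁).card := by
      by_contra hlt
      push Not at hlt
      have h1 : L i j = L i j ∪ L i j₁ := by
        apply Finset.eq_of_subset_of_card_le Finset.subset_union_left
        rw [hL]; omega
      have h2 : L i j₁ = L i j ∪ L i j₁ := by
        apply Finset.eq_of_subset_of_card_le Finset.subset_union_right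
        rw [hL]; omega
      exact hne (h1.trans h2.symm)
    obtain ⟨a, ha, ha2⟩ := hheavy i (L i j ∪ L i j₁) hcard
    rcases Finset.mem_union.1 ha with ha | ha
    · exact absurd (hout j hj i a ha) (not_lt.2 ha2)
    · exact absurd (hout j₁ hj₁ i a ha) (not_lt.2 ha2)
  refine near_case (t := T.card) hn3 hk hT2 hT1 L hL T rfl hT3 X (by omega) (fun i => L i j₁)
    (fun i => hL i j₁) hlist ?_
  intro j hj
  rw [hXdef] at hj
  unfold smallCols at hj
  rw [Finset.mem_filter] at hj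
  obtain ⟨_, i, a, ha, hcnt⟩ := hj
  refine ⟨i, a, ha, fun ha2 => ?_⟩
  exact absurd (hout j₁ hj₁ i a ha2) (not_lt.2 hcnt)

end Pool.Agent.RK
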