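import Pool.Agent.RK.CN

/-!
The Combinatorial Nullstellensatz lemma for squares.

Rows `0..n-1`, the last row `r = n-1` is special; for the other rows put `Δ i = i` for `i + 2 < n`
and `Δ (n-2) = n-1`.  `Y j i` is the exponent of the column `j` in row `i`, zero for `i = r`.

`Φ = P V G`, `P = det_{l,j} (∏ i, X (i,j) ^ (Y l i))`, `V = det (vandermonde s)`,
`G = ∑_i s_i ^ 2 - ∑_j s'_j ^ 2`, `s_i` row sums, `s'_j` column sums (`= ∑_i X (i,j)`).
As in `cn_lemma` (proof steps (1), (2)), there is a monomial `e'` without variables of the row `r`,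
in the box, with row degrees `y i + Δ i` for `i ≠ r`, whose coefficient `κ` in
`P * ∏_{i ≠ r} s_i ^ (Δ i)` is nonzero.  Put `e = e' + ∑_j δ_(r,j)` (in the box as the lists in row
`r` have at least two elements).
Claim: the coefficient of `e` in `Φ` is `± (n-1)! (n+2) κ`.
Expand `V = ∑_σ ± ∏ i, s_i ^ (σ i)` (`σ` a permutation of `0..n-1`, sign `sign σ`) and
`G = ∑_x s_x ^ 2 - ∑_j ∑_{x,x'} X (x,j) X (x',j)`.  The product
`P * ∏ s_i ^ (σ i) * s_x ^ 2` has row degrees `y + σ + 2 δ_x`, which equals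
`(y i + Δ i; n)` only if `x = r`, `σ r = n-2`, `σ (n-2) = n-1` and `σ i = i` otherwise; call it `σA`.
`P * ∏ s_i ^ (σ i) * X (x,j) X (x',j)` has row degrees `y + σ + δ_x + δ_x'`; this fits only for
`x = x' = r`, `σ = σA`, where the coefficient of `e` is zero (`e (r,j) = 1 < 2`), or for
`{x,x'} = {r, n-2}` and `σ = id`.
So the coefficient is
`sign σA * n! * κ - 2 * ∑_j coeff_e (P ∏_{i≠r} s_i ^ i * X (n-2,j) * s_r ^ (n-1) * X (r,j))`
`= sign σA * n! * κ - 2 (n-1)! coeff_{e'} (P ∏_{i≠r} s_i ^ i * s_(n-2))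
 = (sign σA * n! - 2 (n-1)!) κ`, and `sign σA = -1`; so `-(n-1)! (n+2) κ ≠ 0`.
Used here: for `f` without variables of row `r` and `g` with only variables of row `r`,
`coeff (e' + e_r) (f * g) = coeff e' f * coeff e_r g`; the coefficient of `∏_j X (r,j)` in
`s_r ^ n` is `n!` and in `s_r ^ (n-1) * X (r,j)` it is `(n-1)!`.
`Φ` is homogeneous of degree `degree e`; apply
`MvPolynomial.combinatorial_nullstellensatz_exists_eval_nonzero`.
-/

namespace Pool.Agent.RK

open MvPolynomial

/-- Row weights. -/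
noncomputable def sqW (n : ℕ) : Fin n × Fin n → (Fin n → ℕ) := fun v => Pi.single v.1 1

/-- Weight counting the variables of the row `r`. -/
def sqIn {n : ℕ} (r : Fin n) : Fin n × Fin n → ℕ := fun v => if v.1 = r then 1 else 0

/-- Weight counting the variables outside the row `r`. -/
def sqOut {n : ℕ} (r : Fin n) : Fin n × Fin n → ℕ := fun v => if v.1 = r then 0 else 1

theorem sq_weight_W {n : ℕ} (e : Fin n × Fin n →₀ ℕ) (i : Fin n) :
    Finsupp.weight (sqW n) e i = ∑ j, e (i, j) := by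
  rw [Finsupp.weight_apply, Finsupp.sum_fintype _ _ (by intro v; simp)]
  rw [Finset.sum_apply, Fintype.sum_prod_type]
  rw [Finset.sum_eq_single i]
  · refine Finset.sum_congr rfl (fun j _ => ?_)
    simp [sqW]
  · intro b _ hb
    refine Finset.sum_eq_zero (fun j _ => ?_)
    simp [sqW, Ne.symm hb]
  · intro h
    exact absurd (Finset.mem_univ _) h

theorem sq_weight_in {n : ℕ} (r : Fin n) (e : Fin n × Fin n →₀ ℕ) :
    Finsupp.weight (sqIn r) e = ∑ j, e (r, j) := by
  rw [Finsupp.weight_apply, Finsupp.sum_fintype _ _ (by intro v; simp)]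
  rw [Fintype.sum_prod_type]
  rw [Finset.sum_eq_single r]
  · refine Finset.sum_congr rfl (fun j _ => ?_)
    simp [sqIn]
  · intro b _ hb
    refine Finset.sum_eq_zero (fun j _ => ?_)
    simp [sqIn, hb]
  · intro h
    exact absurd (Finset.mem_univ _) h

theorem sq_weight_out {n : ℕ} (r : Fin n) (e : Fin n × Fin n →₀ ℕ)
    (h : Finsupp.weight (sqOut r) e = 0) (i j : Fin n) (hi : i ≠ r) : e (i, j) = 0 := by
  rw [Finsupp.weight_apply, Finsupp.sum_fintype _ _ (by intro v; simp)] at h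
  rw [Finset.sum_eq_zero_iff] at h
  have := h (i, j) (Finset.mem_univ _)
  simpa [sqOut, hi] using this

/-- Coefficient of a product of a polynomial without variables of the row `r` and a polynomial
with only variables of the row `r`. -/
theorem sq_factor {n : ℕ} (r : Fin n) (f g : MvPolynomial (Fin n × Fin n) ℚ)
    (hf : IsWeightedHomogeneous (sqIn r) f 0) (hg : IsWeightedHomogeneous (sqOut r) g 0)
    (a b : Fin n × Fin n →₀ ℕ) (ha : ∀ j, a (r, j) = 0) (hb : ∀ i j, i ≠ r → b (i, j) = 0) :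
    coeff (a + b) (f * g) = coeff a f * coeff b g := by
  classical
  rw [coeff_mul]
  rw [Finset.sum_eq_single (a, b)]
  · rintro ⟨x, y⟩ hxy hne
    rw [Finset.HasAntidiagonal.mem_antidiagonal] at hxy
    by_contra h0
    have hx : coeff x f ≠ 0 := fun h => h0 (by simp [h])
    have hy : coeff y g ≠ 0 := fun h => h0 (by simp [h])
    have h1 := hf hx
    rw [sq_weight_in] at h1
    have h1' : ∀ j, x (r, j) = 0 := by
      intro j
      rw [Finset.sum_eq_zero_iff] at h1
      exact h1 j (Finset.mem_univ _)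
    have h2 := sq_weight_out r y (hg hy)
    apply hne
    have hxa : x = a := by
      ext ⟨i, j⟩
      by_cases hi : i = r
      · rw [hi, h1', ha]
      · have := DFunLike.congr_fun hxy (i, j)
        simp only [Finsupp.add_apply] at this
        rw [h2 i j hi, hb i j hi] at this
        simpa using this
    have hyb : y = b := by
      ext ⟨i, j⟩
      by_cases hi : i = r
      · have := DFunLike.congr_fun hxy (i, j)
        simp only [Finsupp.add_apply] at this
        rw [hi, h1', ha] at this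
        rw [hi]
        simpa using this
      · rw [h2 i j hi, hb i j hi]
    rw [hxa, hyb]
  · intro h
    exfalso
    apply h
    rw [Finset.HasAntidiagonal.mem_antidiagonal]

/-- Row sum polynomials. -/
noncomputable def sqRs {n : ℕ} (i : Fin n) : MvPolynomial (Fin n × Fin n) ℚ := ∑ j, X (i, j)

/-- Indicator exponent of a set of variables in the row `r`. -/
noncomputable def sqOne {n : ℕ} (r : Fin n) (A : Finset (Fin n)) : Fin n × Fin n →₀ ℕ :=
  ∑ j ∈ A, Finsupp.single (r, j) 1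

theorem sqOne_apply {n : ℕ} (r : Fin n) (A : Finset (Fin n)) (i j : Fin n) :
    sqOne r A (i, j) = if i = r ∧ j ∈ A then 1 else 0 := by
  classical
  unfold sqOne
  rw [Finsupp.finsetSum_apply]
  by_cases h : i = r ∧ j ∈ A
  · rw [if_pos h, Finset.sum_eq_single j]
    · rw [h.1]; simp
    · intro b _ hb
      rw [Finsupp.single_apply, if_neg]
      intro h2
      exact hb (Prod.mk.inj h2).2
    · intro h2
      exact absurd h.2 h2
  · rw [if_neg h]
    refine Finset.sum_eq_zero (fun b hb => ?_)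
    rw [Finsupp.single_apply, if_neg]
    intro h2
    obtain ⟨h3, h4⟩ := Prod.mk.inj h2
    exact h ⟨h3.symm, h4 ▸ hb⟩

theorem sqOne_sub {n : ℕ} (r : Fin n) (A : Finset (Fin n)) (j : Fin n) :
    sqOne r A - Finsupp.single (r, j) 1 = sqOne r (A.erase j) := by
  classical
  ext ⟨i, k⟩
  rw [Finsupp.tsub_apply, sqOne_apply, sqOne_apply, Finsupp.single_apply]
  by_cases h : (r, j) = (i, k)
  · obtain ⟨h1, h2⟩ := Prod.mk.inj h
    subst h1 h2
    simp
    split_ifs <;> rfl
  · rw [if_neg h]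
    by_cases h3 : i = r
    · have h4 : k ≠ j := by
        rintro rfl
        exact h (by rw [h3])
      simp [h3, h4]
    · simp [h3]

theorem sq_mem_supp {n : ℕ} (r : Fin n) (A : Finset (Fin n)) (j : Fin n) :
    (r, j) ∈ (sqOne r A).support ↔ j ∈ A := by
  rw [Finsupp.mem_support_iff, sqOne_apply]
  simp

theorem sq_coeff_X {n : ℕ} (r : Fin n) (A : Finset (Fin n)) (j : Fin n)
    (f : MvPolynomial (Fin n × Fin n) ℚ) :
    coeff (sqOne r A) (f * X (r, j)) = if j ∈ A then coeff (sqOne r (A.erase j)) f else 0 := by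
  classical
  rw [coeff_mul_X', sqOne_sub]
  simp only [sq_mem_supp]

theorem sq_fact {n : ℕ} (r : Fin n) (m : ℕ) : ∀ A : Finset (Fin n), A.card = m →
    coeff (sqOne r A) ((sqRs r) ^ m) = (m.factorial : ℚ) := by
  classical
  induction m with
  | zero =>
    intro A hA
    rw [Finset.card_eq_zero] at hA
    subst hA
    simp [sqOne]
  | succ m ih =>
    intro A hA
    rw [pow_succ]
    conv_lhs => rw [sqRs, Finset.mul_sum, coeff_sum]
    simp_rw [sq_coeff_X]
    rw [← Finset.sum_filter]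
    have h1 : (Finset.univ.filter (fun j => j ∈ A)) = A := by ext; simp
    rw [h1]
    have h2 : ∀ j ∈ A, coeff (sqOne r (A.erase j)) ((∑ j, X (r, j) : MvPolynomial (Fin n × Fin n) ℚ) ^ m)
        = (m.factorial : ℚ) := by
      intro j hj
      exact ih _ (by rw [Finset.card_erase_of_mem hj, hA]; rfl)
    rw [Finset.sum_congr rfl h2, Finset.sum_const, hA, Nat.factorial_succ]
    push_cast
    simp

theorem sq_rs_in {n : ℕ} (i : Fin n) : IsWeightedHomogeneous (sqW n) (sqRs i) (Pi.single i 1) := by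
  unfold sqRs
  refine IsWeightedHomogeneous.sum _ _ _ (fun j _ => ?_)
  exact isWeightedHomogeneous_X ℚ (sqW n) (i, j)

theorem sq_rs_hom {n : ℕ} (i : Fin n) : (sqRs i).IsHomogeneous 1 := by
  unfold sqRs
  exact IsHomogeneous.sum _ _ _ (fun j _ => isHomogeneous_X ℚ _)

theorem sqOne_degree {n : ℕ} (r : Fin n) (A : Finset (Fin n)) : (sqOne r A).degree = A.card := by
  unfold sqOne
  rw [map_sum]
  simp

/-- The determinant of a matrix all of whose permutation products are weighted homogeneous. -/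
theorem sq_det_wh {σ M : Type*} [AddCommMonoid M] {w : σ → M} {m : M} {q : ℕ}
    (A : Matrix (Fin q) (Fin q) (MvPolynomial σ ℚ))
    (h : ∀ τ : Equiv.Perm (Fin q), IsWeightedHomogeneous w (∏ l, A (τ l) l) m) :
    IsWeightedHomogeneous w A.det m := by
  rw [Matrix.det_apply']
  refine IsWeightedHomogeneous.sum _ _ _ (fun τ _ => ?_)
  have h1 : ((((Equiv.Perm.sign τ : ℤˣ) : ℤ) : MvPolynomial σ ℚ)) =
      C (((Equiv.Perm.sign τ : ℤˣ) : ℤ) : ℚ) := by
    simp
  rw [h1]
  exact IsWeightedHomogeneous.C_mul (h τ) _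

theorem sq_wh_mul0 {σ M : Type*} [AddCommMonoid M] {w : σ → M} {f g : MvPolynomial σ ℚ}
    (hf : IsWeightedHomogeneous w f 0) (hg : IsWeightedHomogeneous w g 0) :
    IsWeightedHomogeneous w (f * g) 0 := by
  have := hf.mul hg
  rwa [add_zero] at this

theorem sq_wh_pow0 {σ M : Type*} [AddCommMonoid M] {w : σ → M} {f : MvPolynomial σ ℚ}
    (hf : IsWeightedHomogeneous w f 0) (m : ℕ) : IsWeightedHomogeneous w (f ^ m) 0 := by
  have := hf.pow m
  rwa [smul_zero] at this

theorem sq_wh_prod0 {σ M ι : Type*} [AddCommMonoid M] {w : σ → M} (s : Finset ι)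
    (f : ι → MvPolynomial σ ℚ)
    (hf : ∀ i ∈ s, IsWeightedHomogeneous w (f i) 0) : IsWeightedHomogeneous w (∏ i ∈ s, f i) 0 := by
  have := IsWeightedHomogeneous.prod s f (fun _ => (0 : M)) hf
  rwa [Finset.sum_const_zero] at this

theorem sq_rs_noRow {n : ℕ} (r i : Fin n) (h : i ≠ r) :
    IsWeightedHomogeneous (sqIn r) (sqRs i) 0 := by
  unfold sqRs
  refine IsWeightedHomogeneous.sum _ _ _ (fun j _ => ?_)
  have := isWeightedHomogeneous_X ℚ (sqIn r) (i, j)
  rwa [show sqIn r (i, j) = 0 by simp [sqIn, h]] at this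

theorem sq_rs_onlyRow {n : ℕ} (r : Fin n) :
    IsWeightedHomogeneous (sqOut r) (sqRs r) 0 := by
  unfold sqRs
  refine IsWeightedHomogeneous.sum _ _ _ (fun j _ => ?_)
  have := isWeightedHomogeneous_X ℚ (sqOut r) (r, j)
  rwa [show sqOut r (r, j) = 0 by simp [sqOut]] at this

theorem sq_X_onlyRow {n : ℕ} (r j : Fin n) :
    IsWeightedHomogeneous (sqOut r) (X (r, j) : MvPolynomial (Fin n × Fin n) ℚ) 0 := by
  have := isWeightedHomogeneous_X ℚ (sqOut r) (r, j)
  rwa [show sqOut r (r, j) = 0 by simp [sqOut]] at this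

theorem sq_X_noRow {n : ℕ} (r i j : Fin n) (h : i ≠ r) :
    IsWeightedHomogeneous (sqIn r) (X (i, j) : MvPolynomial (Fin n × Fin n) ℚ) 0 := by
  have := isWeightedHomogeneous_X ℚ (sqIn r) (i, j)
  rwa [show sqIn r (i, j) = 0 by simp [sqIn, h]] at this

section coeffs

variable {k : ℕ}

theorem sq_fac1 (f : MvPolynomial (Fin (k + 2) × Fin (k + 2)) ℚ) (r : Fin (k + 2))
    (hf : IsWeightedHomogeneous (sqIn r) f 0) (a : Fin (k + 2) × Fin (k + 2) →₀ ℕ)
    (ha : ∀ j, a (r, j) = 0) (m : ℕ) :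
    coeff (a + sqOne r Finset.univ) (f * sqRs r ^ m) =
      if m = k + 2 then coeff a f * ((k + 2).factorial : ℚ) else 0 := by
  rw [sq_factor r f _ hf (sq_wh_pow0 (sq_rs_onlyRow r) m) a _ ha
    (fun i j hi => by rw [sqOne_apply]; simp [hi])]
  split_ifs with h
  · rw [sq_fact r m Finset.univ (by simp [h]), h]
  · have h1 : coeff (sqOne r Finset.univ) (sqRs r ^ m : MvPolynomial (Fin (k + 2) × Fin (k + 2)) ℚ)
        = 0 := by
      refine (((sq_rs_hom r).pow m)).coeff_eq_zero ?_
      rw [sqOne_degree]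
      simp
      omega
    rw [h1, mul_zero]

theorem sq_fac3 (f : MvPolynomial (Fin (k + 2) × Fin (k + 2)) ℚ) (r : Fin (k + 2))
    (hf : IsWeightedHomogeneous (sqIn r) f 0) (a : Fin (k + 2) × Fin (k + 2) →₀ ℕ)
    (ha : ∀ j, a (r, j) = 0) (m : ℕ) (j : Fin (k + 2)) :
    coeff (a + sqOne r Finset.univ) (f * (sqRs r ^ m * X (r, j))) =
      if m = k + 1 then coeff a f * ((k + 1).factorial : ℚ) else 0 := by
  classical
  rw [sq_factor r f _ hf (sq_wh_mul0 (sq_wh_pow0 (sq_rs_onlyRow r) m) (sq_X_onlyRow r j)) a _ ha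
    (fun i j hi => by rw [sqOne_apply]; simp [hi])]
  rw [sq_coeff_X, if_pos (Finset.mem_univ _)]
  split_ifs with h
  · rw [sq_fact r m _ (by rw [Finset.card_erase_of_mem (Finset.mem_univ _)]; simp [h]), h]
  · have h1 : coeff (sqOne r (Finset.univ.erase j))
        (sqRs r ^ m : MvPolynomial (Fin (k + 2) × Fin (k + 2)) ℚ) = 0 := by
      refine (((sq_rs_hom r).pow m)).coeff_eq_zero ?_
      rw [sqOne_degree, Finset.card_erase_of_mem (Finset.mem_univ _)]
      simp
      omega
    rw [h1, mul_zero]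

theorem sq_fac2 (f : MvPolynomial (Fin (k + 2) × Fin (k + 2)) ℚ) (r : Fin (k + 2))
    (hf : IsWeightedHomogeneous (sqIn r) f 0) (a : Fin (k + 2) × Fin (k + 2) →₀ ℕ)
    (ha : ∀ j, a (r, j) = 0) (m : ℕ) (j : Fin (k + 2)) :
    coeff (a + sqOne r Finset.univ) (f * (sqRs r ^ m * X (r, j) * X (r, j))) = 0 := by
  classical
  rw [sq_factor r f _ hf (sq_wh_mul0 (sq_wh_mul0 (sq_wh_pow0 (sq_rs_onlyRow r) m)
    (sq_X_onlyRow r j)) (sq_X_onlyRow r j)) a _ ha
    (fun i j hi => by rw [sqOne_apply]; simp [hi])]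
  rw [sq_coeff_X, if_pos (Finset.mem_univ _), sq_coeff_X, if_neg (by simp), mul_zero]

/-- The product `∏ (s_r - s_i)`. -/
noncomputable def sqQ (k : ℕ) : MvPolynomial (Fin (k + 2) × Fin (k + 2)) ℚ :=
  ∏ i : Fin (k + 1), (sqRs (Fin.last (k + 1)) - sqRs i.castSucc)

/-- The difference of the sums of squares. -/
noncomputable def sqG (k : ℕ) : MvPolynomial (Fin (k + 2) × Fin (k + 2)) ℚ :=
  ∑ i, sqRs i ^ 2 - ∑ j, (∑ i, X (i, j)) ^ 2

/-- The sum of the row sums other than the last. -/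
noncomputable def sqS (k : ℕ) : MvPolynomial (Fin (k + 2) × Fin (k + 2)) ℚ :=
  ∑ i : Fin (k + 1), sqRs i.castSucc

theorem sq_poly_coeff {R ι : Type*} [CommRing R] (N : Set R) (h1 : (1 : R) ∈ N)
    (h0 : (0 : R) ∈ N) (hs : ∀ x ∈ N, ∀ y ∈ N, x - y ∈ N) (hm : ∀ x ∈ N, ∀ y ∈ N, x * y ∈ N)
    (A : Finset ι) (f : ι → R) (hf : ∀ i ∈ A, f i ∈ N) :
    ∀ m, (∏ i ∈ A, (Polynomial.X - Polynomial.C (f i))).coeff m ∈ N := by
  classical
  induction A using Finset.induction_on with
  | empty =>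
    intro m
    rw [Finset.prod_empty, Polynomial.coeff_one]
    split_ifs
    · exact h1
    · exact h0
  | insert b A hb ih =>
    intro m
    rw [Finset.prod_insert hb, sub_mul, Polynomial.coeff_sub]
    have ih' := ih (fun i hi => hf i (Finset.mem_insert_of_mem hi))
    refine hs _ ?_ _ ?_
    · cases m with
      | zero => simpa using h0
      | succ m => rw [Polynomial.coeff_X_mul]; exact ih' m
    · rw [Polynomial.coeff_C_mul]
      exact hm _ (hf b (Finset.mem_insert_self _ _)) _ (ih' m)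

theorem sq_main_coeff (F : MvPolynomial (Fin (k + 2) × Fin (k + 2)) ℚ)
    (hF : IsWeightedHomogeneous (sqIn (Fin.last (k + 1))) F 0)
    (a : Fin (k + 2) × Fin (k + 2) →₀ ℕ) (ha : ∀ j, a (Fin.last (k + 1), j) = 0) :
    coeff (a + sqOne (Fin.last (k + 1)) Finset.univ) (F * sqQ k * sqG k) =
      - (((k + 2).factorial : ℚ) + 2 * ((k + 1).factorial : ℚ)) * coeff a (F * sqS k) := by
  classical
  set r := Fin.last (k + 1) with hr
  set z : MvPolynomial (Fin (k + 2) × Fin (k + 2)) ℚ := sqRs r with hz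
  set Qp : Polynomial (MvPolynomial (Fin (k + 2) × Fin (k + 2)) ℚ) :=
    ∏ i : Fin (k + 1), (Polynomial.X - Polynomial.C (sqRs i.castSucc)) with hQp
  have hne : ∀ i : Fin (k + 1), i.castSucc ≠ r := fun i => (Fin.castSucc_lt_last i).ne
  -- coefficients have no variables of the row `r`
  have hN : ∀ m, IsWeightedHomogeneous (sqIn r) (Qp.coeff m) 0 := by
    refine sq_poly_coeff {f | IsWeightedHomogeneous (sqIn r) f 0} ?_ ?_ ?_ ?_ _ _ ?_
    · exact isWeightedHomogeneous_one ℚ _
    · exact isWeightedHomogeneous_zero ℚ _ _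
    · intro x hx y hy
      exact IsWeightedHomogeneous.sub hx hy
    · intro x hx y hy
      exact sq_wh_mul0 hx hy
    · intro i _
      exact sq_rs_noRow r _ (hne i)
  have hdeg : Qp.natDegree = k + 1 := by
    rw [hQp, Polynomial.natDegree_finsetProd_X_sub_C_eq_card]
    simp
  have hmonic : Qp.Monic := by
    rw [hQp]
    exact Polynomial.monic_prod_X_sub_C _ _
  have hck1 : Qp.coeff (k + 1) = 1 := by
    rw [← hdeg]
    exact hmonic
  have hck : Qp.coeff k = - sqS k := by
    have := Polynomial.prod_X_sub_C_coeff_card_pred (Finset.univ : Finset (Fin (k + 1)))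
      (fun i => (sqRs i.castSucc : MvPolynomial (Fin (k + 2) × Fin (k + 2)) ℚ)) (by simp)
    simpa [sqS] using this
  have hQ : sqQ k = ∑ m ∈ Finset.range (k + 2), Qp.coeff m * z ^ m := by
    have h1 : sqQ k = Qp.eval z := by
      rw [hQp, Polynomial.eval_prod]
      simp [sqQ, hz, hr]
    rw [h1, Polynomial.eval_eq_sum_range, hdeg]
  set u : Fin (k + 2) → MvPolynomial (Fin (k + 2) × Fin (k + 2)) ℚ :=
    fun j => ∑ i : Fin (k + 1), X (i.castSucc, j) with hu
  have huN : ∀ j, IsWeightedHomogeneous (sqIn r) (u j) 0 := fun j =>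
    IsWeightedHomogeneous.sum _ _ _ (fun i _ => sq_X_noRow r _ j (hne i))
  have husum : ∑ j, u j = sqS k := by
    simp only [hu, sqS, sqRs]
    rw [Finset.sum_comm]
  set A : MvPolynomial (Fin (k + 2) × Fin (k + 2)) ℚ :=
    ∑ i : Fin (k + 1), (sqRs i.castSucc) ^ 2 - ∑ j, (u j) ^ 2 with hA
  have hAN : IsWeightedHomogeneous (sqIn r) A 0 := by
    refine IsWeightedHomogeneous.sub ?_ ?_
    · exact IsWeightedHomogeneous.sum _ _ _ (fun i _ => sq_wh_pow0 (sq_rs_noRow r _ (hne i)) 2)
    · exact IsWeightedHomogeneous.sum _ _ _ (fun j _ => sq_wh_pow0 (huN j) 2)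
  have hG : sqG k = z ^ 2 + A - ∑ j, X (r, j) * X (r, j) -
      (∑ j, X (r, j) * u j + ∑ j, X (r, j) * u j) := by
    unfold sqG
    rw [Fin.sum_univ_castSucc]
    have h1 : ∀ j, (∑ i, X (i, j) : MvPolynomial (Fin (k + 2) × Fin (k + 2)) ℚ) ^ 2 =
        u j ^ 2 + X (r, j) * X (r, j) + (X (r, j) * u j + X (r, j) * u j) := by
      intro j
      rw [Fin.sum_univ_castSucc]
      ring
    simp_rw [h1]
    rw [Finset.sum_add_distrib, Finset.sum_add_distrib, Finset.sum_add_distrib]
    ring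
  have hexp : F * sqQ k * sqG k = ∑ m ∈ Finset.range (k + 2),
      ((F * Qp.coeff m) * z ^ (m + 2) + (F * Qp.coeff m * A) * z ^ m -
        ∑ j, (F * Qp.coeff m) * (z ^ m * X (r, j) * X (r, j)) -
        (∑ j, (F * Qp.coeff m * u j) * (z ^ m * X (r, j)) +
          ∑ j, (F * Qp.coeff m * u j) * (z ^ m * X (r, j)))) := by
    rw [hQ, Finset.mul_sum, Finset.sum_mul]
    refine Finset.sum_congr rfl (fun m _ => ?_)
    have e1 : ∑ j, (F * Qp.coeff m) * (z ^ m * X (r, j) * X (r, j)) =
        F * Qp.coeff m * z ^ m * ∑ j, X (r, j) * X (r, j) := by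
      rw [Finset.mul_sum]
      exact Finset.sum_congr rfl (fun j _ => by ring)
    have e2 : ∑ j, (F * Qp.coeff m * u j) * (z ^ m * X (r, j)) =
        F * Qp.coeff m * z ^ m * ∑ j, X (r, j) * u j := by
      rw [Finset.mul_sum]
      exact Finset.sum_congr rfl (fun j _ => by ring)
    rw [e1, e2, hG]
    ring
  rw [hexp, coeff_sum]
  have hterm : ∀ m ∈ Finset.range (k + 2),
      coeff (a + sqOne r Finset.univ) ((F * Qp.coeff m) * z ^ (m + 2) +
        (F * Qp.coeff m * A) * z ^ m -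
        ∑ j, (F * Qp.coeff m) * (z ^ m * X (r, j) * X (r, j)) -
        (∑ j, (F * Qp.coeff m * u j) * (z ^ m * X (r, j)) +
          ∑ j, (F * Qp.coeff m * u j) * (z ^ m * X (r, j)))) =
      (if m = k then coeff a (F * Qp.coeff m) * ((k + 2).factorial : ℚ) else 0) -
      (if m = k + 1 then 2 * coeff a (F * Qp.coeff m * sqS k) * ((k + 1).factorial : ℚ)
        else 0) := by
    intro m hm
    rw [Finset.mem_range] at hm
    rw [coeff_sub, coeff_sub, coeff_add, coeff_add, coeff_sum, coeff_sum]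
    have hF1 := sq_wh_mul0 hF (hN m)
    rw [sq_fac1 _ r hF1 a ha, sq_fac1 _ r (sq_wh_mul0 hF1 hAN) a ha]
    rw [if_neg (by omega : ¬ m = k + 2)]
    rw [Finset.sum_eq_zero (fun j _ => sq_fac2 _ r hF1 a ha m j)]
    have h3 : ∀ j, coeff (a + sqOne r Finset.univ) ((F * Qp.coeff m * u j) * (z ^ m * X (r, j))) =
        if m = k + 1 then coeff a (F * Qp.coeff m * u j) * ((k + 1).factorial : ℚ) else 0 :=
      fun j => sq_fac3 _ r (sq_wh_mul0 hF1 (huN j)) a ha m j
    simp_rw [h3]
    by_cases hmk : m = k + 1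
    · simp only [hmk, if_true]
      rw [if_neg (by omega), if_neg (by omega)]
      rw [← Finset.sum_mul, ← coeff_sum, ← Finset.mul_sum, husum]
      ring
    · simp only [hmk, if_false, Finset.sum_const_zero]
      by_cases hmk2 : m = k
      · simp [hmk2]
      · rw [if_neg (by omega), if_neg hmk2]
        ring
  rw [Finset.sum_congr rfl hterm, Finset.sum_sub_distrib]
  rw [Finset.sum_ite_eq' , Finset.sum_ite_eq']
  rw [if_pos (by simp), if_pos (by simp), hck, hck1]
  rw [mul_neg, coeff_neg, mul_one]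
  ring

end coeffs

/-- The determinant making the columns distinct. -/
noncomputable def sqP {n : ℕ} (Y : Fin n → Fin n → ℕ) : MvPolynomial (Fin n × Fin n) ℚ :=
  (Matrix.of (fun l j => ∏ i, X (i, j) ^ (Y l i)) :
    Matrix (Fin n) (Fin n) (MvPolynomial (Fin n × Fin n) ℚ)).det

theorem sq_term_wh {n : ℕ} {M : Type*} [AddCommMonoid M] (w : Fin n × Fin n → M)
    (Y : Fin n → Fin n → ℕ) (τ : Equiv.Perm (Fin n)) :
    IsWeightedHomogeneous w
      (∏ l, (Matrix.of (fun l j => ∏ i, X (i, j) ^ (Y l i)) :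
        Matrix (Fin n) (Fin n) (MvPolynomial (Fin n × Fin n) ℚ)) (τ l) l)
      (∑ l, ∑ i, Y (τ l) i • w (i, l)) := by
  refine IsWeightedHomogeneous.prod _ _ _ (fun l _ => ?_)
  rw [Matrix.of_apply]
  refine IsWeightedHomogeneous.prod _ _ _ (fun i _ => ?_)
  exact (isWeightedHomogeneous_X ℚ w (i, l)).pow _

theorem sqP_row {n : ℕ} (Y : Fin n → Fin n → ℕ) :
    IsWeightedHomogeneous (sqW n) (sqP Y) (fun i => ∑ l, Y l i) := by
  refine sq_det_wh _ (fun τ => ?_)
  have h := sq_term_wh (sqW n) Y τ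
  have h1 : (∑ l, ∑ i, Y (τ l) i • sqW n (i, l)) = fun i => ∑ l, Y l i := by
    funext i
    rw [← Equiv.sum_comp τ (fun l => Y l i), Finset.sum_apply]
    refine Finset.sum_congr rfl (fun l _ => ?_)
    rw [Finset.sum_apply, Finset.sum_eq_single i]
    · simp [sqW]
    · intro b _ hb
      simp [sqW, Ne.symm hb]
    · intro h
      exact absurd (Finset.mem_univ _) h
  rwa [h1] at h

theorem sqP_noRow {n : ℕ} (Y : Fin n → Fin n → ℕ) (r : Fin n) (hr : ∀ l, Y l r = 0) :
    IsWeightedHomogeneous (sqIn r) (sqP Y) 0 := by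
  refine sq_det_wh _ (fun τ => ?_)
  have h := sq_term_wh (sqIn r) Y τ
  have h1 : (∑ l, ∑ i, Y (τ l) i • sqIn r (i, l)) = 0 := by
    refine Finset.sum_eq_zero (fun l _ => Finset.sum_eq_zero (fun i _ => ?_))
    by_cases hi : i = r
    · rw [hi, hr, zero_smul]
    · simp [sqIn, hi]
  rwa [h1] at h

theorem sqP_hom {n : ℕ} (Y : Fin n → Fin n → ℕ) :
    (sqP Y).IsHomogeneous (∑ l, ∑ i, Y l i) := by
  refine sq_det_wh _ (fun τ => ?_)
  have h := sq_term_wh (1 : Fin n × Fin n → ℕ) Y τ
  have h1 : (∑ l, ∑ i, Y (τ l) i • (1 : Fin n × Fin n → ℕ) (i, l)) = ∑ l, ∑ i, Y l i := by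
    rw [← Equiv.sum_comp τ (fun l => ∑ i, Y l i)]
    simp
  rwa [h1] at h

theorem sq_monomial {n : ℕ} (E : Fin n × Fin n → ℕ) :
    (∏ l, ∏ i, X (i, l) ^ (E (i, l)) : MvPolynomial (Fin n × Fin n) ℚ) =
      monomial (Finsupp.equivFunOnFinite.symm E) 1 := by
  rw [monomial_eq, Finsupp.prod_fintype _ _ (by intro v; simp)]
  rw [Fintype.prod_prod_type, Finset.prod_comm]
  simp

theorem sqP_coeff {n : ℕ} (Y : Fin n → Fin n → ℕ) (hinj : Function.Injective Y) :
    coeff (Finsupp.equivFunOnFinite.symm (fun v : Fin n × Fin n => Y v.2 v.1)) (sqP Y) = 1 := by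
  classical
  unfold sqP
  rw [Matrix.det_apply', coeff_sum]
  have h0 : ∀ τ : Equiv.Perm (Fin n),
      (((Equiv.Perm.sign τ : ℤˣ) : ℤ) : MvPolynomial (Fin n × Fin n) ℚ) *
        ∏ l, (Matrix.of (fun l j => ∏ i, X (i, j) ^ (Y l i)) :
          Matrix (Fin n) (Fin n) (MvPolynomial (Fin n × Fin n) ℚ)) (τ l) l =
      C (((Equiv.Perm.sign τ : ℤˣ) : ℤ) : ℚ) *
        monomial (Finsupp.equivFunOnFinite.symm (fun v : Fin n × Fin n => Y (τ v.2) v.1)) 1 := by
    intro τ
    rw [← sq_monomial]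
    simp
  rw [Finset.sum_eq_single (1 : Equiv.Perm (Fin n))]
  · rw [h0, coeff_C_mul, coeff_monomial, if_pos (by simp)]
    simp
  · intro τ _ hτ
    rw [h0, coeff_C_mul, coeff_monomial, if_neg, mul_zero]
    intro h
    apply hτ
    have h1 := Finsupp.equivFunOnFinite.symm.injective h
    ext l : 1
    apply hinj
    funext i
    exact congrFun h1 (i, l)
  · intro h
    exact absurd (Finset.mem_univ _) h

theorem sq_lef_step {n : ℕ} (L : Fin n → Fin n → Finset ℕ) (hL : ∀ i j, 2 ≤ (L i j).card)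
    (f : MvPolynomial (Fin n × Fin n) ℚ) (w : Fin n → ℕ)
    (hf : IsWeightedHomogeneous (sqW n) f w) (i : Fin n) (D : ℕ)
    (hD : D = 0 ∨ 2 * w i + D ≤ ∑ j, ((L i j).card - 1))
    (h : InI (fun v : Fin n × Fin n => (L v.1 v.2).card) (sqRs i ^ D * f)) :
    InI (fun v : Fin n × Fin n => (L v.1 v.2).card) f := by
  classical
  rcases hD with h0 | hle
  · rwa [h0, pow_zero, one_mul] at h
  · have hinj : Function.Injective (fun j : Fin n => (i, j)) := fun a b hab => (Prod.mk.inj hab).2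
    refine lef _ (Finset.univ.map ⟨fun j => (i, j), hinj⟩) ?_ (w i) D f ?_ ?_ ?_
    · intro v _
      exact le_trans (by norm_num) (hL v.1 v.2)
    · intro e he
      rw [Finset.sum_map]
      have := hf he
      rw [← this, sq_weight_W]
      rfl
    · rw [Finset.sum_map]
      exact hle
    · rw [Finset.sum_map]
      exact h

/-- The exponents. -/
def sqD (k : ℕ) (i : Fin (k + 1)) : ℕ := if (i : ℕ) = k then k + 1 else i

theorem sq_prod_row {k : ℕ} (A : Finset (Fin (k + 1))) (D : Fin (k + 1) → ℕ) :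
    IsWeightedHomogeneous (sqW (k + 2)) (∏ i ∈ A, sqRs i.castSucc ^ D i)
      (∑ i ∈ A, D i • Pi.single i.castSucc 1) :=
  IsWeightedHomogeneous.prod _ _ _ (fun i _ => (sq_rs_in i.castSucc).pow _)

theorem sq_not_InI {k : ℕ} (L : Fin (k + 2) → Fin (k + 2) → Finset ℕ)
    (hL : ∀ i j, 2 ≤ (L i j).card) (Y : Fin (k + 2) → Fin (k + 2) → ℕ)
    (hinj : Function.Injective Y) (hlt : ∀ j i, Y j i < (L i j).card)
    (hD : ∀ i : Fin (k + 1), sqD k i = 0 ∨
      2 * (∑ j, Y j i.castSucc) + sqD k i ≤ ∑ j, ((L i.castSucc j).card - 1)) :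
    ¬ InI (fun v : Fin (k + 2) × Fin (k + 2) => (L v.1 v.2).card)
      (sqP Y * ∏ i : Fin (k + 1), sqRs i.castSucc ^ sqD k i) := by
  classical
  have key : ∀ A : Finset (Fin (k + 1)),
      InI (fun v : Fin (k + 2) × Fin (k + 2) => (L v.1 v.2).card)
        (sqP Y * ∏ i ∈ A, sqRs i.castSucc ^ sqD k i) →
      InI (fun v : Fin (k + 2) × Fin (k + 2) => (L v.1 v.2).card) (sqP Y) := by
    intro A
    induction A using Finset.induction_on with
    | empty => intro h; simpa using h
    | insert b A hb ih =>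
      intro h
      apply ih
      rw [Finset.prod_insert hb] at h
      refine sq_lef_step L hL _ _ ((sqP_row Y).mul (sq_prod_row A (sqD k))) b.castSucc (sqD k b)
        ?_ ?_
      · have h1 : ((fun i => ∑ l, Y l i) + ∑ i ∈ A, sqD k i • Pi.single i.castSucc 1 :
            Fin (k + 2) → ℕ) b.castSucc = ∑ l, Y l b.castSucc := by
          rw [Pi.add_apply, Finset.sum_apply]
          have hz : ∑ i ∈ A, (sqD k i • Pi.single i.castSucc 1 : Fin (k + 2) → ℕ) b.castSucc
              = 0 := by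
            refine Finset.sum_eq_zero (fun i hi => ?_)
            have hib : i ≠ b := by
              rintro rfl
              exact hb hi
            have : b.castSucc ≠ i.castSucc := fun h => hib (Fin.castSucc_injective _ h).symm
            simp [this]
          rw [hz, add_zero]
        rw [h1]
        exact hD b
      · have : sqRs b.castSucc ^ sqD k b * (sqP Y * ∏ i ∈ A, sqRs i.castSucc ^ sqD k i) =
          sqP Y * (sqRs b.castSucc ^ sqD k b * ∏ i ∈ A, sqRs i.castSucc ^ sqD k i) := by ring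
        rw [this]
        exact h
  intro h
  have h1 := key Finset.univ h
  have h2 := h1 (Finsupp.equivFunOnFinite.symm
    (fun v : Fin (k + 2) × Fin (k + 2) => Y v.2 v.1)) (fun v => hlt v.2 v.1)
  rw [sqP_coeff Y hinj] at h2
  exact one_ne_zero h2

/-- The Vandermonde determinant of the row sums other than the last. -/
noncomputable def sqV (k : ℕ) : MvPolynomial (Fin (k + 2) × Fin (k + 2)) ℚ :=
  (Matrix.vandermonde (fun i : Fin (k + 1) => sqRs i.castSucc)).det

theorem sq_kappa {k : ℕ} (P : MvPolynomial (Fin (k + 2) × Fin (k + 2)) ℚ)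
    (y : Fin (k + 2) → ℕ) (hP : IsWeightedHomogeneous (sqW (k + 2)) P y)
    (a : Fin (k + 2) × Fin (k + 2) →₀ ℕ)
    (ha : coeff a (P * ∏ i : Fin (k + 1), sqRs i.castSucc ^ sqD k i) ≠ 0) :
    coeff a (P * sqV k * sqS k) =
      coeff a (P * ∏ i : Fin (k + 1), sqRs i.castSucc ^ sqD k i) := by
  classical
  have hwa := (hP.mul (sq_prod_row Finset.univ (sqD k))) ha
  have hexp : P * sqV k * sqS k = ∑ τ : Equiv.Perm (Fin (k + 1)), ∑ x : Fin (k + 1),
      C (((Equiv.Perm.sign τ : ℤˣ) : ℤ) : ℚ) *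
        (P * ((∏ i : Fin (k + 1), sqRs (τ i).castSucc ^ (i : ℕ)) * sqRs x.castSucc)) := by
    have hV : P * sqV k = ∑ τ : Equiv.Perm (Fin (k + 1)),
        P * (C (((Equiv.Perm.sign τ : ℤˣ) : ℤ) : ℚ) *
          ∏ i : Fin (k + 1), sqRs (τ i).castSucc ^ (i : ℕ)) := by
      unfold sqV
      rw [Matrix.det_apply', Finset.mul_sum]
      refine Finset.sum_congr rfl (fun τ _ => ?_)
      simp only [Matrix.vandermonde_apply, map_intCast]
    rw [hV, Finset.sum_mul]
    refine Finset.sum_congr rfl (fun τ _ => ?_)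
    unfold sqS
    rw [Finset.mul_sum]
    refine Finset.sum_congr rfl (fun x _ => ?_)
    ring
  rw [hexp, coeff_sum]
  have hzero : ∀ (τ : Equiv.Perm (Fin (k + 1))) (x : Fin (k + 1)),
      ¬ (τ = 1 ∧ x = Fin.last k) →
      coeff a (P * ((∏ i : Fin (k + 1), sqRs (τ i).castSucc ^ (i : ℕ)) * sqRs x.castSucc)) = 0 := by
    intro τ x hτx
    by_contra hne
    apply hτx
    have hw1 : IsWeightedHomogeneous (sqW (k + 2))
        (∏ i : Fin (k + 1), sqRs (τ i).castSucc ^ (i : ℕ))
        (∑ i : Fin (k + 1), (i : ℕ) • Pi.single (τ i).castSucc 1) :=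
      IsWeightedHomogeneous.prod _ _ _ (fun i _ => (sq_rs_in (τ i).castSucc).pow _)
    have hw2 := (hP.mul (hw1.mul (sq_rs_in x.castSucc))) hne
    rw [hwa] at hw2
    have hcomp : ∀ i : Fin (k + 1), sqD k (τ i) = (i : ℕ) + (if x = τ i then 1 else 0) := by
      intro i
      have h1 := congrFun hw2 (τ i).castSucc
      simp only [Pi.add_apply, Finset.sum_apply, Pi.smul_apply, Pi.single_apply, smul_eq_mul,
        mul_ite, mul_one, mul_zero, (Fin.castSucc_injective (k + 1)).eq_iff,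
        EmbeddingLike.apply_eq_iff_eq] at h1
      rw [Finset.sum_ite_eq, Finset.sum_ite_eq] at h1
      simp only [Finset.mem_univ, if_true] at h1
      have h2 : (if τ i = x then 1 else 0 : ℕ) = if x = τ i then 1 else 0 := by
        simp only [eq_comm]
      omega
    have hlast := hcomp (τ.symm (Fin.last k))
    rw [Equiv.apply_symm_apply] at hlast
    have hDl : sqD k (Fin.last k) = k + 1 := by simp [sqD]
    rw [hDl] at hlast
    have hle : ((τ.symm (Fin.last k) : Fin (k + 1)) : ℕ) ≤ k :=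
      Nat.lt_succ_iff.mp (τ.symm (Fin.last k)).isLt
    have hx : x = Fin.last k := by
      by_contra hx
      rw [if_neg hx] at hlast
      omega
    refine ⟨?_, hx⟩
    ext i : 1
    by_cases hi : τ i = Fin.last k
    · have h1 := hcomp i
      rw [hi, hDl, if_pos hx] at h1
      rw [hi]
      ext
      simp
      omega
    · have h1 := hcomp i
      have h2 : x ≠ τ i := by rw [hx]; exact fun h => hi h.symm
      rw [if_neg h2] at h1
      have h3 : ((τ i : Fin (k + 1)) : ℕ) ≠ k := fun h => hi (Fin.ext (by simpa using h))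
      rw [sqD, if_neg h3] at h1
      ext
      simp
      omega
  rw [Finset.sum_eq_single (1 : Equiv.Perm (Fin (k + 1)))]
  · rw [coeff_sum, Finset.sum_eq_single (Fin.last k)]
    · rw [coeff_C_mul]
      have h1 : (∏ i : Fin (k + 1),
          sqRs ((1 : Equiv.Perm (Fin (k + 1))) i).castSucc ^ (i : ℕ)) *
          sqRs (Fin.last k).castSucc =
          (∏ i : Fin (k + 1), sqRs i.castSucc ^ sqD k i :
            MvPolynomial (Fin (k + 2) × Fin (k + 2)) ℚ) := by
        rw [Fin.prod_univ_castSucc, Fin.prod_univ_castSucc]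
        have h2 : sqD k (Fin.last k) = k + 1 := by simp [sqD]
        have h3 : ∀ i : Fin k, sqD k i.castSucc = (i : ℕ) := by
          intro i
          have := i.isLt
          simp [sqD]
          omega
        rw [h2]
        simp only [h3, Equiv.Perm.coe_one, id_eq, Fin.val_castSucc, Fin.val_last]
        ring
      rw [h1]
      simp
    · intro x _ hx
      rw [coeff_C_mul, hzero 1 x (fun h => hx h.2), mul_zero]
    · intro h
      exact absurd (Finset.mem_univ _) h
  · intro τ _ hτ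
    rw [coeff_sum]
    refine Finset.sum_eq_zero (fun x _ => ?_)
    rw [coeff_C_mul, hzero τ x (fun h => hτ h.1), mul_zero]
  · intro h
    exact absurd (Finset.mem_univ _) h

theorem sqV_noRow (k : ℕ) : IsWeightedHomogeneous (sqIn (Fin.last (k + 1))) (sqV k) 0 := by
  refine sq_det_wh _ (fun τ => ?_)
  refine sq_wh_prod0 _ _ (fun i _ => ?_)
  rw [Matrix.vandermonde_apply]
  exact sq_wh_pow0 (sq_rs_noRow _ _ (Fin.castSucc_lt_last _).ne) _

theorem sqV_hom (k : ℕ) : (sqV k).IsHomogeneous (∑ i : Fin (k + 1), (i : ℕ)) := by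
  refine sq_det_wh _ (fun τ => ?_)
  refine IsWeightedHomogeneous.prod _ _ _ (fun i _ => ?_)
  rw [Matrix.vandermonde_apply]
  have := (sq_rs_hom ((τ i).castSucc : Fin (k + 2))).pow (i : ℕ)
  rwa [one_mul] at this

theorem sqQ_hom (k : ℕ) : (sqQ k).IsHomogeneous (k + 1) := by
  have := IsHomogeneous.prod (Finset.univ : Finset (Fin (k + 1)))
    (fun i => (sqRs (Fin.last (k + 1)) - sqRs i.castSucc :
      MvPolynomial (Fin (k + 2) × Fin (k + 2)) ℚ)) (fun _ => 1)
    (fun i _ => (sq_rs_hom _).sub (sq_rs_hom _))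
  simpa [sqQ] using this

theorem sqG_hom (k : ℕ) : (sqG k).IsHomogeneous 2 := by
  unfold sqG
  refine IsHomogeneous.sub ?_ ?_
  · refine IsHomogeneous.sum _ _ _ (fun i _ => ?_)
    exact (sq_rs_hom i).pow 2
  · refine IsHomogeneous.sum _ _ _ (fun j _ => ?_)
    exact (IsHomogeneous.sum _ _ 1 (fun i _ => isHomogeneous_X ℚ _)).pow 2

theorem sq_lemma_aux {k : ℕ} (L : Fin (k + 2) → Fin (k + 2) → Finset ℕ)
    (hL : ∀ i j, 2 ≤ (L i j).card) (Y : Fin (k + 2) → Fin (k + 2) → ℕ)
    (hinj : Function.Injective Y) (hlt : ∀ j i, Y j i < (L i j).card)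
    (hr : ∀ j, Y j (Fin.last (k + 1)) = 0)
    (hD : ∀ i : Fin (k + 1), sqD k i = 0 ∨
      2 * (∑ j, Y j i.castSucc) + sqD k i ≤ ∑ j, ((L i.castSucc j).card - 1)) :
    ∃ c : Fin (k + 2) → Fin (k + 2) → ℕ, (∀ i j, c i j ∈ L i j) ∧
      (∀ j j', j ≠ j' → ∃ i, c i j ≠ c i j') ∧
      Function.Injective (fun i => ∑ j, c i j) ∧
      (∑ i, (∑ j, c i j) ^ 2) ≠ ∑ j, (∑ i, c i j) ^ 2 := by
  classical
  have h0 := sq_not_InI L hL Y hinj hlt hD
  unfold InI at h0
  push Not at h0
  obtain ⟨a, habox, hane⟩ := h0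
  -- `a` has no variables of the last row
  have hNo : IsWeightedHomogeneous (sqIn (Fin.last (k + 1)))
      (sqP Y * ∏ i : Fin (k + 1), sqRs i.castSucc ^ sqD k i) 0 :=
    sq_wh_mul0 (sqP_noRow Y _ hr) (sq_wh_prod0 _ _ (fun i _ =>
      sq_wh_pow0 (sq_rs_noRow _ _ (Fin.castSucc_lt_last _).ne) _))
  have ha0 : ∀ j, a (Fin.last (k + 1), j) = 0 := by
    intro j
    have h1 := hNo hane
    rw [sq_weight_in, Finset.sum_eq_zero_iff] at h1
    exact h1 j (Finset.mem_univ _)
  set Φ : MvPolynomial (Fin (k + 2) × Fin (k + 2)) ℚ := sqP Y * sqV k * sqQ k * sqG k with hΦ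
  set e := a + sqOne (Fin.last (k + 1)) Finset.univ with he
  have hcoef : coeff e Φ ≠ 0 := by
    rw [hΦ, he, sq_main_coeff _ (sq_wh_mul0 (sqP_noRow Y _ hr) (sqV_noRow k)) a ha0,
      sq_kappa (sqP Y) _ (sqP_row Y) a hane]
    refine mul_ne_zero ?_ hane
    have h1 : (0 : ℚ) < ((k + 2).factorial : ℚ) := by exact_mod_cast Nat.factorial_pos _
    have h2 : (0 : ℚ) < ((k + 1).factorial : ℚ) := by exact_mod_cast Nat.factorial_pos _
    intro h3
    linarith
  have hhom := (((sqP_hom Y).mul (sqV_hom k)).mul (sqQ_hom k)).mul (sqG_hom k)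
  have hne : Φ ≠ 0 := by
    intro h
    rw [h] at hcoef
    simp at hcoef
  have htd : Φ.totalDegree = e.degree := by
    rw [hhom.totalDegree hne]
    by_contra h
    exact hcoef (hhom.coeff_eq_zero (fun h' => h h'.symm))
  have hbox : ∀ v, e v < ((L v.1 v.2).image (fun t : ℕ => (t : ℚ))).card := by
    rintro ⟨i, j⟩
    rw [Finset.card_image_of_injective _ Nat.cast_injective]
    rw [he, Finsupp.add_apply, sqOne_apply]
    by_cases hi : i = Fin.last (k + 1)
    · subst hi
      rw [ha0]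
      simp
      exact hL _ _
    · simp [hi]
      exact habox (i, j)
  obtain ⟨s, hs, hΦs⟩ := combinatorial_nullstellensatz_exists_eval_nonzero Φ e hcoef htd
    (fun v => (L v.1 v.2).image (fun t : ℕ => (t : ℚ))) hbox
  have hs' : ∀ i j, ∃ t : ℕ, t ∈ L i j ∧ (t : ℚ) = s (i, j) := by
    intro i j
    have := hs (i, j)
    rw [Finset.mem_image] at this
    exact this
  choose c hc hcs using hs'
  rw [hΦ, map_mul, map_mul, map_mul] at hΦs
  have hG := right_ne_zero_of_mul hΦs
  have hΦs2 := left_ne_zero_of_mul hΦs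
  have hQ := right_ne_zero_of_mul hΦs2
  have hΦs3 := left_ne_zero_of_mul hΦs2
  have hV := right_ne_zero_of_mul hΦs3
  have hPs := left_ne_zero_of_mul hΦs3
  have hrs : ∀ i, eval s (sqRs i) = ((∑ j, c i j : ℕ) : ℚ) := by
    intro i
    simp only [sqRs, map_sum, eval_X]
    push_cast
    exact Finset.sum_congr rfl (fun j _ => (hcs i j).symm)
  refine ⟨c, hc, ?_, ?_, ?_⟩
  · intro j j' hjj'
    by_contra hcon
    push Not at hcon
    apply hPs
    unfold sqP
    rw [RingHom.map_det]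
    refine Matrix.det_zero_of_column_eq hjj' (fun l => ?_)
    simp only [RingHom.mapMatrix_apply, Matrix.map_apply, Matrix.of_apply, map_prod, map_pow,
      eval_X]
    refine Finset.prod_congr rfl (fun i _ => ?_)
    rw [← hcs i j, ← hcs i j', hcon i]
  · have hinjV : Function.Injective (fun i : Fin (k + 1) => eval s (sqRs i.castSucc)) := by
      rw [← Matrix.det_vandermonde_ne_zero_iff]
      intro h
      apply hV
      unfold sqV
      rw [RingHom.map_det]
      convert h using 2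
      ext i j
      simp [Matrix.vandermonde_apply]
    have hQ' : ∀ i : Fin (k + 1),
        eval s (sqRs (Fin.last (k + 1))) ≠ eval s (sqRs i.castSucc) := by
      intro i h
      apply hQ
      unfold sqQ
      rw [map_prod]
      refine Finset.prod_eq_zero (Finset.mem_univ i) ?_
      rw [map_sub, h, sub_self]
    intro i i' hii'
    have hii : eval s (sqRs i) = eval s (sqRs i') := by
      rw [hrs, hrs]
      exact_mod_cast hii'
    induction i using Fin.lastCases with
    | last =>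
      induction i' using Fin.lastCases with
      | last => rfl
      | cast i' => exact absurd hii (hQ' i')
    | cast i =>
      induction i' using Fin.lastCases with
      | last => exact absurd hii.symm (hQ' i)
      | cast i' => rw [hinjV hii]
  · intro h
    apply hG
    unfold sqG
    rw [map_sub, map_sum, map_sum, sub_eq_zero]
    have e1 : ∑ i, eval s (sqRs i ^ 2) = (((∑ i, (∑ j, c i j) ^ 2 : ℕ)) : ℚ) := by
      push_cast
      refine Finset.sum_congr rfl (fun i _ => ?_)
      rw [map_pow, hrs]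
      push_cast
      rfl
    have e2 : ∑ j, eval s ((∑ i, X (i, j)) ^ 2 : MvPolynomial (Fin (k + 2) × Fin (k + 2)) ℚ) =
        (((∑ j, (∑ i, c i j) ^ 2 : ℕ)) : ℚ) := by
      push_cast
      refine Finset.sum_congr rfl (fun j _ => ?_)
      rw [map_pow, map_sum]
      congr 1
      refine Finset.sum_congr rfl (fun i _ => ?_)
      rw [eval_X, hcs]
    rw [e1, e2]
    exact_mod_cast h

theorem sq_lemma {n : ℕ} (hn : 2 ≤ n) (L : Fin n → Fin n → Finset ℕ)
    (hL : ∀ i j, 2 ≤ (L i j).card) (Y : Fin n → Fin n → ℕ) (hinj : Function.Injective Y)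
    (hlt : ∀ j i, Y j i < (L i j).card) (hr : ∀ j i : Fin n, (i : ℕ) + 1 = n → Y j i = 0)
    (hsum : ∀ i : Fin n, (i : ℕ) + 2 < n → (i : ℕ) = 0 ∨
      2 * (∑ j, Y j i) + (i : ℕ) ≤ ∑ j, ((L i j).card - 1))
    (hp : ∀ i : Fin n, (i : ℕ) + 2 = n →
      2 * (∑ j, Y j i) + (n - 1) ≤ ∑ j, ((L i j).card - 1)) :
    ∃ c : Fin n → Fin n → ℕ, (∀ i j, c i j ∈ L i j) ∧
      (∀ j j', j ≠ j' → ∃ i, c i j ≠ c i j') ∧
      Function.Injective (fun i => ∑ j, c i j) ∧
      (∑ i : Fin n, (∑ j : Fin n, c i j) ^ 2) ≠ ∑ j : Fin n, (∑ i : Fin n, c i j) ^ 2 := by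
  obtain ⟨k, rfl⟩ : ∃ k, n = k + 2 := ⟨n - 2, by omega⟩
  refine sq_lemma_aux L hL Y hinj hlt (fun j => hr j _ (by simp)) (fun i => ?_)
  by_cases hik : (i : ℕ) = k
  · right
    have h1 : sqD k i = k + 1 := by simp [sqD, hik]
    rw [h1]
    have := hp i.castSucc (by simp [hik])
    simpa using this
  · have hlt' := i.isLt
    have h1 : sqD k i = (i : ℕ) := by simp [sqD, hik]
    rw [h1]
    have := hsum i.castSucc (by simp; omega)
    simpa using this

end Pool.Agent.RK
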