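import Pool.Agent.RK.Red
import Pool.Agent.RK.SqCN

/-!
Squares with `n = 2, 3` (lists of at least 3 colours) or `n ≥ 5` (at least 2 colours):
apply `sq_lemma` with
* `n = 2`: `Y j i = j` in row `0` (`Y 0 = (0,0)`, `Y 1 = (1,0)`);
* `n = 3`: `Y j 0 = j`, all other exponents zero;
* `n ≥ 5`: `Y 0 = 0`, `Y j = e_(j-1)` for `1 ≤ j ≤ n-2`, `Y (n-1) = e_0 + e_1`
  (rows `0` and `1` have sum 2, rows `2..n-3` sum 1, rows `n-2`, `n-1` sum 0).
Then `mdist_of_sums` and `noswap_of_sq`.
-/

namespace Pool.Agent.RK

theorem square_of_Y {n k : ℕ} (hn : 2 ≤ n) (hk : 2 ≤ k) (L : Fin n → Fin n → Finset ℕ)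
    (hL : ∀ i j, (L i j).card = k) (Y : Fin n → Fin n → ℕ) (hinj : Function.Injective Y)
    (hlt : ∀ j i, Y j i < k) (hr : ∀ j i : Fin n, (i : ℕ) + 1 = n → Y j i = 0)
    (hsum : ∀ i : Fin n, (i : ℕ) + 2 < n → (i : ℕ) = 0 ∨
      2 * (∑ j, Y j i) + (i : ℕ) ≤ n * (k - 1))
    (hp : ∀ i : Fin n, (i : ℕ) + 2 = n → 2 * (∑ j, Y j i) + (n - 1) ≤ n * (k - 1)) :
    ∃ c, Chooses L c ∧ MDist c ∧ NoSwap c := by
  have h1 : ∀ i, ∑ j, ((L i j).card - 1) = n * (k - 1) := by
    intro i
    simp_rw [hL]
    simp
  obtain ⟨c, hc1, hc2, hc3, hc4⟩ := sq_lemma hn L (fun i j => by rw [hL]; exact hk) Y hinj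
    (fun j i => by rw [hL]; exact hlt j i) hr (fun i hi => by rw [h1]; exact hsum i hi)
    (fun i hi => by rw [h1]; exact hp i hi)
  exact ⟨c, hc1, mdist_of_sums c hc2 hc3, noswap_of_sq c hc4⟩

/-- The exponents for `n ≥ 5`. -/
def Y5 (n : ℕ) (j i : Fin n) : ℕ :=
  if (j : ℕ) + 1 = n then (if (i : ℕ) < 2 then 1 else 0)
  else if (i : ℕ) + 1 = (j : ℕ) then 1 else 0

theorem square_many {n k : ℕ} (h : ((n = 2 ∨ n = 3) ∧ 3 ≤ k) ∨ (5 ≤ n ∧ 2 ≤ k))
    (L : Fin n → Fin n → Finset ℕ) (hL : ∀ i j, (L i j).card = k) :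
    ∃ c, Chooses L c ∧ MDist c ∧ NoSwap c := by
  rcases h with ⟨h2 | h3, hk⟩ | ⟨hn, hk⟩
  · subst h2
    refine square_of_Y le_rfl (by omega) L hL (fun j i => if i = 0 then (j : ℕ) else 0) ?_ ?_ ?_
      ?_ ?_
    · intro j j' hjj
      have := congrFun hjj 0
      simp only [if_true] at this
      exact Fin.ext this
    · intro j i
      have := j.2
      split_ifs <;> omega
    · intro j i hi
      rw [if_neg]
      rintro rfl
      simp at hi
    · intro i hi
      omega
    · intro i hi
      have hi0 : i = 0 := by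
        ext; simp; omega
      subst hi0
      simp [Fin.sum_univ_two]
      omega
  · subst h3
    refine square_of_Y (by omega) (by omega) L hL (fun j i => if i = 0 then (j : ℕ) else 0) ?_ ?_
      ?_ ?_ ?_
    · intro j j' hjj
      have := congrFun hjj 0
      simp only [if_true] at this
      exact Fin.ext this
    · intro j i
      have := j.2
      split_ifs <;> omega
    · intro j i hi
      rw [if_neg]
      rintro rfl
      simp at hi
    · intro i hi
      left
      omega
    · intro i hi
      have hi0 : i ≠ 0 := by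
        rintro rfl
        simp at hi
      simp [hi0]
      omega
  · refine square_of_Y (by omega) (by omega) L hL (Y5 n) ?_ ?_ ?_ ?_ ?_
    · intro j j' hjj
      by_contra hne
      have hne' : (j : ℕ) ≠ (j' : ℕ) := fun h => hne (Fin.ext h)
      have key : ∀ a b : Fin n, (a : ℕ) < (b : ℕ) → Y5 n a = Y5 n b → False := by
        intro a b hab hY
        have hb := b.2
        by_cases hbn : (b : ℕ) + 1 = n
        · -- b is the last one
          have h0 := congrFun hY ⟨0, by omega⟩
          have h1 := congrFun hY ⟨1, by omega⟩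
          simp only [Y5, hbn, if_true] at h0 h1
          rw [if_neg (by omega)] at h0 h1
          split_ifs at h0 h1 <;> omega
        · have h0 := congrFun hY ⟨(b : ℕ) - 1, by omega⟩
          simp only [Y5] at h0
          rw [if_neg (by omega), if_neg (by omega), if_neg (by omega), if_pos (by omega)] at h0
          omega
      rcases lt_or_gt_of_ne hne' with h | h
      · exact key j j' h hjj
      · exact key j' j h hjj.symm
    · intro j i
      unfold Y5
      split_ifs <;> omega
    · intro j i hi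
      unfold Y5
      have := j.2
      split_ifs <;> omega
    · intro i hi
      by_cases hi0 : (i : ℕ) = 0
      · left; exact hi0
      right
      have hs : ∑ j, Y5 n j i ≤ (if (i : ℕ) < 2 then 1 else 0) + 1 := by
        have h1 : ∀ j : Fin n, Y5 n j i ≤
            (if j = ⟨n - 1, by omega⟩ then (if (i : ℕ) < 2 then 1 else 0) else 0) +
            (if j = ⟨(i : ℕ) + 1, by omega⟩ then 1 else 0) := by
          intro j
          unfold Y5
          simp only [Fin.ext_iff]
          split_ifs <;> omega
        refine (Finset.sum_le_sum fun j _ => h1 j).trans ?_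
        rw [Finset.sum_add_distrib, Finset.sum_ite_eq' , Finset.sum_ite_eq']
        simp
      have hnk : n ≤ n * (k - 1) := Nat.le_mul_of_pos_right n (by omega)
      split_ifs at hs <;> omega
    · intro i hi
      have hs : ∑ j, Y5 n j i = 0 := by
        refine Finset.sum_eq_zero fun j _ => ?_
        unfold Y5
        have := j.2
        split_ifs <;> omega
      have hnk : n ≤ n * (k - 1) := Nat.le_mul_of_pos_right n (by omega)
      omega

end Pool.Agent.RK
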